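import Pool.Agent.Z72.SQ.Stm

/-!
DG: the diagonal sum is close to the first term of the recipe on average.
-/

set_option autoImplicit false
set_option linter.all false

namespace Pool.Agent.Z72.SQ

open Complex Filter Topology MeasureTheory Set
open Pool.Agent.TH612.GS (z zN PN mP SN zr Sep DD tup ch wt dr IG)
open Pool.Agent.TH612.CF (dg dg_zero tau_le)
open Pool.Agent.W182.KO (tau)
open scoped ENNReal

noncomputable section

variable {k : ℕ}

lemma dr_norm (γ : Fin k ⊕ Fin k → ℝ) (n : ℕ) : ‖dr γ n‖ ≤ (n : ℝ) ^ (2 * k) := by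
  unfold dr
  rcases Nat.eq_zero_or_pos n with hn | hn
  · subst hn
    rw [dg_zero, norm_zero]
    positivity
  have hn1 : (1 : ℝ) ≤ n := by exact_mod_cast hn
  have h1 : ‖tau (fun j => I * ((γ (Sum.inr j) : ℝ) : ℂ)) n‖ ≤
      (n.divisors.card : ℝ) ^ k * (n : ℝ) ^ (0 : ℝ) := tau_le (fun j => by simp) n
  have h2 : ‖tau (fun j => -(I * ((γ (Sum.inl j) : ℝ) : ℂ))) n‖ ≤
      (n.divisors.card : ℝ) ^ k * (n : ℝ) ^ (0 : ℝ) := tau_le (fun j => by simp) n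
  have h3 : (n.divisors.card : ℝ) ≤ n := by exact_mod_cast Nat.card_divisors_le_self n
  have h4 : (n.divisors.card : ℝ) ^ k ≤ (n : ℝ) ^ k := pow_le_pow_left₀ (by positivity) h3 k
  rw [Real.rpow_zero, mul_one] at h1 h2
  unfold dg
  rw [norm_mul, norm_mul, norm_inv, Complex.norm_natCast]
  calc _ ≤ (n : ℝ) ^ k * (n : ℝ) ^ k * 1 := by
        refine mul_le_mul (mul_le_mul (h1.trans h4) (h2.trans h4) (norm_nonneg _) (by positivity))
          (inv_le_one_of_one_le₀ hn1) (by positivity) (by positivity)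
    _ = (n : ℝ) ^ (2 * k) := by
        rw [mul_one, ← pow_add]
        congr 1
        ring

lemma dr_meas (n : ℕ) : Measurable fun γ : Fin k ⊕ Fin k → ℝ => dr γ n := by
  unfold dr dg tau
  refine Measurable.mul_const (Measurable.mul ?_ ?_) _
  · refine Finset.measurable_sum _ fun f _ => Finset.measurable_prod _ fun j _ => ?_
    apply Measurable.pow measurable_const
    fun_prop
  · refine Finset.measurable_sum _ fun f _ => Finset.measurable_prod _ fun j _ => ?_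
    apply Measurable.pow measurable_const
    fun_prop

lemma ch_meas (ν : Fin k ⊕ Fin k → ℕ) : Measurable fun γ : Fin k ⊕ Fin k → ℝ => ch ν γ := by
  unfold ch
  refine Measurable.mul ?_ ?_
  · refine Finset.measurable_prod _ fun j _ => ?_
    apply Measurable.pow measurable_const
    fun_prop
  · refine Finset.measurable_prod _ fun j _ => ?_
    apply Measurable.pow measurable_const
    fun_prop

lemma SN_meas (N : ℕ) : Measurable fun γ : Fin k ⊕ Fin k → ℝ => SN N γ := by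
  unfold SN
  refine Finset.measurable_sum _ fun ν _ => ?_
  by_cases h : ∏ j, ν (Sum.inl j) = ∏ j, ν (Sum.inr j)
  · simp only [if_pos h]
    exact (ch_meas ν).const_mul _
  · simp only [if_neg h]
    exact measurable_const

lemma mP_univ' {U : ℝ} (hU : 0 ≤ U) : mP (Fin k ⊕ Fin k) U univ = ENNReal.ofReal (U ^ (2 * k)) := by
  unfold mP
  rw [Measure.pi_univ]
  simp only [Measure.restrict_apply_univ, Real.volume_Icc, sub_zero]
  rw [Finset.prod_const, Finset.card_univ, Fintype.card_sum, Fintype.card_fin,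
    ENNReal.ofReal_pow hU, two_mul]

lemma sq4 (a b c d : ℝ) : (a + b + c + d) ^ 2 ≤ 4 * (a ^ 2 + b ^ 2 + c ^ 2 + d ^ 2) := by
  nlinarith [sq_nonneg (a - b), sq_nonneg (a - c), sq_nonneg (a - d), sq_nonneg (b - c),
    sq_nonneg (b - d), sq_nonneg (c - d)]

theorem t_DG (hSA : S_SA) (hDT : S_DT) : S_DG := by
  intro k ε hε
  obtain ⟨W, C1, U1, B, hC1, hU1, hB, hW1, hW2, hSA⟩ := hSA k
  obtain ⟨C2, hC2, hDT⟩ := hDT k (2 * B) ε hε
  obtain ⟨C3, hC3⟩ : ∃ C3 : ℝ, C3 = C1 * 16 ^ (2 * k + 2) := ⟨_, rfl⟩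
  have hC30 : 0 < C3 := by rw [hC3]; positivity
  refine ⟨4 * (C1 ^ 2 + C3 ^ 2) + 8 * C2, U1, by positivity, hU1, fun U N hU hUN hNU => ?_⟩
  have hU3 : 3 ≤ U := hU1.trans hU
  have hU0 : 0 < U := by linarith
  have hU1' : 1 ≤ U := by linarith
  obtain ⟨hD1, hD2⟩ := hDT U N hU3 hUN hNU
  obtain ⟨Y, hY⟩ : ∃ Y, Y = ⌊U ^ (2 * B)⌋₊ := ⟨_, rfl⟩
  have hYU : (Y : ℝ) ≤ U ^ (2 * B) := by
    rw [hY]
    exact Nat.floor_le (by positivity)
  have hp4 : 16 * U ≤ U ^ 4 := by nlinarith [mul_pos hU0 hU0, mul_pos (mul_pos hU0 hU0) hU0]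
  have hpB : U ^ 4 ≤ U ^ B := pow_le_pow_right₀ hU1' (by omega)
  have hp2B : U ^ 4 ≤ U ^ (2 * B) := pow_le_pow_right₀ hU1' (by omega)
  have hNY : N ≤ Y := by
    rw [hY]
    exact Nat.le_floor (hNU.trans (hp4.trans hp2B))
  have hUB : 0 < U ^ B := by positivity
  have hc := hD1 (fun n => W (n / U ^ B)) (fun n => hW1 _) Y hYU
  -- the sum near the origin
  have hb : ∀ γ : Fin k ⊕ Fin k → ℝ, ‖∑ n ∈ Finset.Icc 1 N, dr γ n * (W (n / U ^ B) - 1)‖ ≤
      C3 / U := by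
    intro γ
    have h1 : ∀ n ∈ Finset.Icc 1 N, ‖dr γ n * (W (n / U ^ B) - 1)‖ ≤
        C1 * (16 * U) ^ (2 * k + 1) / U ^ B := by
      intro n hn
      rw [Finset.mem_Icc] at hn
      have hn1 : (1 : ℝ) ≤ n := by exact_mod_cast hn.1
      have hnN : (n : ℝ) ≤ 16 * U := le_trans (by exact_mod_cast hn.2) hNU
      have e1 : 0 < (n : ℝ) / U ^ B := by positivity
      have e2 : (n : ℝ) / U ^ B ≤ 1 := by
        rw [div_le_one hUB]
        exact hnN.trans (hp4.trans hpB)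
      have e3 := hW2 _ e1 e2
      rw [norm_mul]
      calc ‖dr γ n‖ * ‖W (n / U ^ B) - 1‖ ≤ (n : ℝ) ^ (2 * k) * (C1 * (n / U ^ B)) :=
            mul_le_mul (dr_norm γ n) e3 (norm_nonneg _) (by positivity)
        _ = C1 * (n : ℝ) ^ (2 * k + 1) / U ^ B := by
            rw [pow_succ]
            ring
        _ ≤ C1 * (16 * U) ^ (2 * k + 1) / U ^ B := by gcongr
    refine (norm_sum_le _ _).trans ((Finset.sum_le_sum h1).trans ?_)
    rw [Finset.sum_const, Nat.card_Icc, Nat.add_sub_cancel, nsmul_eq_mul]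
    have e4 : U ^ (2 * k + 2) * U ≤ U ^ B := by
      rw [← pow_succ]
      exact pow_le_pow_right₀ hU1' (by omega)
    calc (N : ℝ) * (C1 * (16 * U) ^ (2 * k + 1) / U ^ B)
        ≤ (16 * U) * (C1 * (16 * U) ^ (2 * k + 1) / U ^ B) := by gcongr
      _ = C3 * U ^ (2 * k + 2) / U ^ B := by
          rw [hC3]
          have : (16 * U) ^ (2 * k + 1) * (16 * U) = 16 ^ (2 * k + 2) * U ^ (2 * k + 2) := by
            rw [← pow_succ, mul_pow]
          calc _ = C1 * ((16 * U) ^ (2 * k + 1) * (16 * U)) / U ^ B := by ring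
            _ = _ := by rw [this]; ring
      _ ≤ C3 / U := by
          rw [div_le_div_iff₀ hUB hU0, mul_assoc]
          exact mul_le_mul_of_nonneg_left e4 hC30.le
  have hpt : ∀ γ ∈ Sep k U, ENNReal.ofReal (‖SN N γ - zr γ‖ ^ 2) ≤
      ENNReal.ofReal (4 * (C1 ^ 2 + C3 ^ 2) / U ^ 2) +
      (4 * ENNReal.ofReal (‖∑ n ∈ Finset.Ioc N Y, dr γ n * W (n / U ^ B)‖ ^ 2) +
      4 * ENNReal.ofReal (‖SN N γ - ∑ n ∈ Finset.Icc 1 N, dr γ n‖ ^ 2)) := by
    intro γ hγ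
    have ha := hSA U hU γ hγ
    rw [← hY] at ha
    obtain ⟨a, ha'⟩ : ∃ a, a = zr γ - ∑ n ∈ Finset.Icc 1 Y, dr γ n * W (n / U ^ B) := ⟨_, rfl⟩
    obtain ⟨b, hb'⟩ : ∃ b, b = ∑ n ∈ Finset.Icc 1 N, dr γ n * (W (n / U ^ B) - 1) := ⟨_, rfl⟩
    obtain ⟨c, hc'⟩ : ∃ c, c = ∑ n ∈ Finset.Ioc N Y, dr γ n * W (n / U ^ B) := ⟨_, rfl⟩
    obtain ⟨d, hd'⟩ : ∃ d, d = SN N γ - ∑ n ∈ Finset.Icc 1 N, dr γ n := ⟨_, rfl⟩
    have hsplit : ∑ n ∈ Finset.Icc 1 Y, dr γ n * W (n / U ^ B) =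
        ∑ n ∈ Finset.Icc 1 N, dr γ n * W (n / U ^ B) +
          ∑ n ∈ Finset.Ioc N Y, dr γ n * W (n / U ^ B) := by
      rw [← Finset.sum_union]
      · congr 1
        ext n
        simp only [Finset.mem_union, Finset.mem_Icc, Finset.mem_Ioc]
        omega
      · rw [Finset.disjoint_left]
        intro n hn hn'
        rw [Finset.mem_Icc] at hn
        rw [Finset.mem_Ioc] at hn'
        omega
    have hb'' : b = ∑ n ∈ Finset.Icc 1 N, dr γ n * W (n / U ^ B) -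
        ∑ n ∈ Finset.Icc 1 N, dr γ n := by
      rw [hb', ← Finset.sum_sub_distrib]
      exact Finset.sum_congr rfl fun n _ => by ring
    have he : SN N γ - zr γ = d - b - c - a := by
      rw [hd', hb'', hc', ha', hsplit]
      ring
    have hn : ‖SN N γ - zr γ‖ ≤ ‖d‖ + ‖b‖ + ‖c‖ + ‖a‖ := by
      rw [he]
      refine (norm_sub_le _ _).trans (add_le_add ?_ le_rfl)
      refine (norm_sub_le _ _).trans (add_le_add ?_ le_rfl)
      exact norm_sub_le _ _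
    have hbn : ‖b‖ ≤ C3 / U := by rw [hb']; exact hb γ
    have han : ‖a‖ ≤ C1 / U := by rw [ha']; exact ha
    rw [← hc', ← hd']
    have h4 : (4 : ℝ≥0∞) = ENNReal.ofReal 4 := by norm_num
    rw [h4, ← ENNReal.ofReal_mul (by norm_num), ← ENNReal.ofReal_mul (by norm_num),
      ← ENNReal.ofReal_add (by positivity) (by positivity),
      ← ENNReal.ofReal_add (by positivity) (by positivity)]
    apply ENNReal.ofReal_le_ofReal
    calc ‖SN N γ - zr γ‖ ^ 2 ≤ (‖d‖ + ‖b‖ + ‖c‖ + ‖a‖) ^ 2 :=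
          pow_le_pow_left₀ (norm_nonneg _) hn 2
      _ ≤ 4 * (‖d‖ ^ 2 + ‖b‖ ^ 2 + ‖c‖ ^ 2 + ‖a‖ ^ 2) := sq4 _ _ _ _
      _ ≤ 4 * (‖d‖ ^ 2 + (C3 / U) ^ 2 + ‖c‖ ^ 2 + (C1 / U) ^ 2) := by gcongr
      _ = _ := by
          rw [div_pow, div_pow]
          ring
  have hm1 : Measurable fun γ : Fin k ⊕ Fin k → ℝ =>
      4 * ENNReal.ofReal (‖∑ n ∈ Finset.Ioc N Y, dr γ n * W (n / U ^ B)‖ ^ 2) := by
    refine Measurable.const_mul (Measurable.ennreal_ofReal (Measurable.pow_const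
      (Measurable.norm ?_) 2)) _
    exact Finset.measurable_sum _ fun n _ => (dr_meas n).mul_const _
  have hm2 : Measurable fun γ : Fin k ⊕ Fin k → ℝ =>
      ENNReal.ofReal (‖∑ n ∈ Finset.Ioc N Y, dr γ n * W (n / U ^ B)‖ ^ 2) := by
    refine (Measurable.ennreal_ofReal (Measurable.pow_const
      (Measurable.norm ?_) 2))
    exact Finset.measurable_sum _ fun n _ => (dr_meas n).mul_const _
  have hm3 : Measurable fun γ : Fin k ⊕ Fin k → ℝ =>
      ENNReal.ofReal (‖SN N γ - ∑ n ∈ Finset.Icc 1 N, dr γ n‖ ^ 2) := by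
    refine (Measurable.ennreal_ofReal (Measurable.pow_const
      (Measurable.norm ?_) 2))
    exact (SN_meas N).sub (Finset.measurable_sum _ fun n _ => dr_meas n)
  have hUe : 1 / U ^ 2 ≤ U ^ (ε - 1) := by
    rw [one_div, ← Real.rpow_natCast, ← Real.rpow_neg hU0.le]
    apply Real.rpow_le_rpow_of_exponent_le hU1'
    push_cast
    linarith
  calc ∫⁻ γ in Sep k U, ENNReal.ofReal (‖SN N γ - zr γ‖ ^ 2) ∂(mP (Fin k ⊕ Fin k) U)
      ≤ ∫⁻ γ in Sep k U, (ENNReal.ofReal (4 * (C1 ^ 2 + C3 ^ 2) / U ^ 2) +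
      (4 * ENNReal.ofReal (‖∑ n ∈ Finset.Ioc N Y, dr γ n * W (n / U ^ B)‖ ^ 2) +
      4 * ENNReal.ofReal (‖SN N γ - ∑ n ∈ Finset.Icc 1 N, dr γ n‖ ^ 2)))
        ∂(mP (Fin k ⊕ Fin k) U) := setLIntegral_mono' (Pool.Agent.TH612.GS.Sep_meas k U) hpt
    _ ≤ ∫⁻ γ, (ENNReal.ofReal (4 * (C1 ^ 2 + C3 ^ 2) / U ^ 2) +
      (4 * ENNReal.ofReal (‖∑ n ∈ Finset.Ioc N Y, dr γ n * W (n / U ^ B)‖ ^ 2) +
      4 * ENNReal.ofReal (‖SN N γ - ∑ n ∈ Finset.Icc 1 N, dr γ n‖ ^ 2)))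
        ∂(mP (Fin k ⊕ Fin k) U) := setLIntegral_le_lintegral _ _
    _ = ENNReal.ofReal (4 * (C1 ^ 2 + C3 ^ 2) / U ^ 2) * ENNReal.ofReal (U ^ (2 * k)) +
      (4 * ∫⁻ γ, ENNReal.ofReal (‖∑ n ∈ Finset.Ioc N Y, dr γ n * W (n / U ^ B)‖ ^ 2)
        ∂(mP (Fin k ⊕ Fin k) U) +
      4 * ∫⁻ γ, ENNReal.ofReal (‖SN N γ - ∑ n ∈ Finset.Icc 1 N, dr γ n‖ ^ 2)
        ∂(mP (Fin k ⊕ Fin k) U)) := by
        rw [lintegral_add_left measurable_const, lintegral_const, mP_univ' hU0.le,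
          lintegral_add_left hm1, lintegral_const_mul _ hm2, lintegral_const_mul _ hm3]
    _ ≤ ENNReal.ofReal (4 * (C1 ^ 2 + C3 ^ 2) / U ^ 2) * ENNReal.ofReal (U ^ (2 * k)) +
      (4 * ENNReal.ofReal (C2 * U ^ (2 * k) * U ^ (ε - 1)) +
      4 * ENNReal.ofReal (C2 * U ^ (2 * k) * U ^ (ε - 1))) := by
        gcongr
    _ ≤ _ := by
        have h4 : (4 : ℝ≥0∞) = ENNReal.ofReal 4 := by norm_num
        rw [h4, ← ENNReal.ofReal_mul (by positivity), ← ENNReal.ofReal_mul (by norm_num),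
          ← ENNReal.ofReal_add (by positivity) (by positivity),
          ← ENNReal.ofReal_add (by positivity) (by positivity)]
        apply ENNReal.ofReal_le_ofReal
        have h5 : 4 * (C1 ^ 2 + C3 ^ 2) / U ^ 2 * U ^ (2 * k) ≤
            4 * (C1 ^ 2 + C3 ^ 2) * U ^ (ε - 1) * U ^ (2 * k) := by
          refine mul_le_mul_of_nonneg_right ?_ (by positivity)
          rw [div_eq_mul_one_div]
          exact mul_le_mul_of_nonneg_left hUe (by positivity)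
        calc _ ≤ 4 * (C1 ^ 2 + C3 ^ 2) * U ^ (ε - 1) * U ^ (2 * k) +
              (4 * (C2 * U ^ (2 * k) * U ^ (ε - 1)) + 4 * (C2 * U ^ (2 * k) * U ^ (ε - 1))) :=
              add_le_add h5 le_rfl
          _ = _ := by ring

end

end Pool.Agent.Z72.SQ
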