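import Pool.Agent.Z72.SQ.Dt1

set_option autoImplicit false

/-! # Project SQ, part DT: the tail of the diagonal series is small on average -/

namespace Pool.Agent.Z72.SQ

open Complex Filter Topology MeasureTheory Set
open Pool.Agent.TH612.GS (z zN PN mP SN zr Sep DD tup ch wt dr IG)
open Pool.Agent.TH612.CF (dg)
open Pool.Agent.W182.KO (tau)
open Pool.Agent.TH367.GS (pl pr dgn mem_tup pl_pos mem_dgn fiber_sum fiber_card fma_card SN_eq)
open scoped ComplexConjugate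

noncomputable section

variable {k : ℕ}

lemma fiber_le (k : ℕ) (ε : ℝ) (hε : 0 < ε) : ∃ C : ℝ, 0 ≤ C ∧ ∀ N n : ℕ, 1 ≤ n →
    (((dgn k N).filter (fun ν => pl ν = n)).card : ℝ) ≤ C * (n : ℝ) ^ ε := by
  obtain ⟨C, hC0, hC⟩ := Pool.Agent.H510R2.divisor_bound (ε / (2 * (k + 1))) (by positivity)
  refine ⟨C ^ (2 * k), by positivity, fun N n hn1 => ?_⟩
  have hn0 : (0:ℝ) < n := by exact_mod_cast hn1
  have h3 : (((dgn k N).filter (fun ν => pl ν = n)).card : ℝ) ≤ (n.divisors.card : ℝ) ^ (2 * k) := by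
    have h4 := (fiber_card (k := k) N n hn1).trans (Nat.pow_le_pow_left (fma_card n hn1) 2)
    rw [← pow_mul, mul_comm k 2] at h4
    exact_mod_cast h4
  refine h3.trans ?_
  refine (pow_le_pow_left₀ (by positivity) (hC n hn1) _).trans ?_
  rw [mul_pow, ← Real.rpow_natCast ((n:ℝ) ^ _), ← Real.rpow_mul hn0.le]
  refine mul_le_mul_of_nonneg_left ?_ (by positivity)
  refine Real.rpow_le_rpow_of_exponent_le (by exact_mod_cast hn1) ?_
  push_cast
  rw [div_mul_eq_mul_div, div_le_iff₀ (by positivity)]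
  nlinarith

lemma sum_by_fiber (k N : ℕ) (P : ℕ → Prop) [DecidablePred P] (f : ℕ → ℝ) (M : ℕ)
    (hM : ∀ ν ∈ dgn k N, P (pl ν) → pl ν ≤ M) :
    ∑ ν ∈ (dgn k N).filter (fun ν => P (pl ν)), f (pl ν) =
      ∑ n ∈ (Finset.Icc 1 M).filter P, (((dgn k N).filter (fun ν => pl ν = n)).card : ℝ) * f n := by
  rw [← Finset.sum_fiberwise_of_maps_to (s := (dgn k N).filter (fun ν => P (pl ν)))
    (t := (Finset.Icc 1 M).filter P) (g := pl)]
  · refine Finset.sum_congr rfl fun n hn => ?_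
    have h1 : ((dgn k N).filter (fun ν => P (pl ν))).filter (fun ν => pl ν = n) =
        (dgn k N).filter (fun ν => pl ν = n) := by
      ext ν
      simp only [Finset.mem_filter]
      constructor
      · rintro ⟨⟨h, _⟩, h'⟩
        exact ⟨h, h'⟩
      · rintro ⟨h, h'⟩
        refine ⟨⟨h, ?_⟩, h'⟩
        rw [h']
        exact (Finset.mem_filter.1 hn).2
    rw [h1, Finset.sum_congr rfl (g := fun _ => f n), Finset.sum_const, nsmul_eq_mul]
    intro ν hν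
    rw [(Finset.mem_filter.1 hν).2]
  · intro ν hν
    obtain ⟨h1, h2⟩ := Finset.mem_filter.1 hν
    rw [Finset.mem_filter, Finset.mem_Icc]
    exact ⟨⟨pl_pos (mem_dgn.1 h1).1, hM ν h1 h2⟩, h2⟩

lemma pl_le {N : ℕ} {ν : Fin k ⊕ Fin k → ℕ} (h : ν ∈ dgn k N) : pl ν ≤ N ^ k := by
  unfold pl
  refine (Finset.prod_le_pow_card _ _ N fun j _ => ?_).trans (by simp)
  exact (mem_tup.1 (mem_dgn.1 h).1 (Sum.inl j)).2

lemma diag_bound' (k : ℕ) (ε : ℝ) (hε : 0 < ε) : ∃ K : ℝ, 0 ≤ K ∧ ∀ N : ℕ,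
    ∑ ν ∈ dgn k N, ((pl ν : ℕ) : ℝ) ^ (-(1 + ε)) ≤ K := by
  obtain ⟨C, hC0, hC⟩ := fiber_le k (ε / 2) (by positivity)
  have hs : Summable (fun n : ℕ => (n : ℝ) ^ (-(1 + ε / 2))) :=
    Real.summable_nat_rpow.2 (by linarith)
  refine ⟨C * ∑' n : ℕ, (n : ℝ) ^ (-(1 + ε / 2)),
    mul_nonneg (by positivity) (tsum_nonneg fun n => by positivity), fun N => ?_⟩
  have h1 := sum_by_fiber k N (fun _ => True) (fun n => (n : ℝ) ^ (-(1 + ε))) (N ^ k)
    (fun ν hν _ => pl_le hν)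
  rw [Finset.filter_true, Finset.filter_true] at h1
  rw [h1, ← tsum_mul_left]
  refine le_trans ?_ ((hs.mul_left _).sum_le_tsum (Finset.Icc 1 (N ^ k)) (fun n _ => by positivity))
  refine Finset.sum_le_sum fun n hn => ?_
  have hn1 : 1 ≤ n := (Finset.mem_Icc.1 hn).1
  have hn0 : (0:ℝ) < n := by exact_mod_cast hn1
  calc _ ≤ (C * (n : ℝ) ^ (ε / 2)) * (n : ℝ) ^ (-(1 + ε)) := by
        gcongr
        exact hC N n hn1
    _ = C * (n : ℝ) ^ (-(1 + ε / 2)) := by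
      rw [mul_assoc, ← Real.rpow_add hn0]
      congr 2
      ring

lemma harm (Y : ℕ) : ∑ q ∈ Finset.Icc 1 Y, ((q : ℕ) : ℝ)⁻¹ ≤ 1 + Real.log Y := by
  have h := harmonic_le_one_add_log Y
  rw [harmonic_eq_sum_Icc] at h
  push_cast at h
  exact h

lemma harm_dvd (Y m : ℕ) (hm : 1 ≤ m) :
    ∑ n ∈ (Finset.Icc 1 Y).filter (fun n => m ∣ n), ((n : ℕ) : ℝ)⁻¹ ≤ (1 + Real.log Y) / m := by
  have hm0 : (0:ℝ) < m := by exact_mod_cast hm
  have h1 : ∑ n ∈ (Finset.Icc 1 Y).filter (fun n => m ∣ n), ((n : ℕ) : ℝ)⁻¹ =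
      ∑ q ∈ ((Finset.Icc 1 Y).filter (fun n => m ∣ n)).image (fun n => n / m), ((m : ℝ) * (q : ℝ))⁻¹ := by
    rw [Finset.sum_image]
    · refine Finset.sum_congr rfl fun n hn => ?_
      obtain ⟨q, rfl⟩ := (Finset.mem_filter.1 hn).2
      rw [Nat.mul_div_cancel_left _ hm]
      push_cast
      rfl
    · intro a ha b hb hab
      obtain ⟨q, rfl⟩ := (Finset.mem_filter.1 (Finset.mem_coe.1 ha)).2
      obtain ⟨r, rfl⟩ := (Finset.mem_filter.1 (Finset.mem_coe.1 hb)).2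
      simp only [Nat.mul_div_cancel_left _ hm] at hab
      rw [hab]
  rw [h1]
  have h2 : ((Finset.Icc 1 Y).filter (fun n => m ∣ n)).image (fun n => n / m) ⊆ Finset.Icc 1 Y := by
    intro q hq
    obtain ⟨n, hn, rfl⟩ := Finset.mem_image.1 hq
    obtain ⟨hn1, q, rfl⟩ := Finset.mem_filter.1 hn
    rw [Finset.mem_Icc] at hn1 ⊢
    rw [Nat.mul_div_cancel_left _ hm]
    constructor
    · rcases Nat.eq_zero_or_pos q with h0 | h0
      · subst h0
        simp at hn1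
      · exact h0
    · nlinarith
  refine (Finset.sum_le_sum_of_subset_of_nonneg h2 fun q _ _ => by positivity).trans ?_
  simp_rw [mul_inv]
  rw [← Finset.mul_sum, div_eq_mul_inv, mul_comm (1 + Real.log (Y:ℝ))]
  exact mul_le_mul_of_nonneg_left (harm Y) (by positivity)

/-- the sums over the tuples with one fixed coordinate -/
lemma coord_bound (k : ℕ) (ε : ℝ) (hε : 0 < ε) : ∃ C : ℝ, 0 ≤ C ∧ ∀ Y m : ℕ, 1 ≤ m → 1 ≤ Y →
    ∑ ν ∈ (dgn k Y).filter (fun ν => pl ν ≤ Y ∧ m ∣ pl ν), ((pl ν : ℕ) : ℝ)⁻¹ ≤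
      C * (Y : ℝ) ^ ε * (1 + Real.log Y) / m := by
  obtain ⟨C, hC0, hC⟩ := fiber_le k ε hε
  refine ⟨C, hC0, fun Y m hm hY => ?_⟩
  have h1 := sum_by_fiber k Y (fun n => n ≤ Y ∧ m ∣ n) (fun n => (n : ℝ)⁻¹) Y
    (fun ν _ h => h.1)
  rw [h1]
  have h2 : (Finset.Icc 1 Y).filter (fun n => n ≤ Y ∧ m ∣ n) =
      (Finset.Icc 1 Y).filter (fun n => m ∣ n) := by
    refine Finset.filter_congr fun n hn => ?_
    have := (Finset.mem_Icc.1 hn).2
    tauto
  rw [h2]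
  have h3 := harm_dvd Y m hm
  calc _ ≤ ∑ n ∈ (Finset.Icc 1 Y).filter (fun n => m ∣ n), C * (Y : ℝ) ^ ε * ((n : ℕ) : ℝ)⁻¹ := by
        refine Finset.sum_le_sum fun n hn => ?_
        obtain ⟨hn1, hn2⟩ := Finset.mem_Icc.1 (Finset.mem_filter.1 hn).1
        refine mul_le_mul_of_nonneg_right ((hC Y n hn1).trans ?_) (by positivity)
        refine mul_le_mul_of_nonneg_left (Real.rpow_le_rpow (by positivity) ?_ hε.le) hC0
        exact_mod_cast hn2
    _ ≤ _ := by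
        rw [← Finset.mul_sum, mul_div_assoc]
        exact mul_le_mul_of_nonneg_left h3 (by positivity)

/-- `dr` as a sum over diagonal tuples -/
lemma dr_sum (Y : ℕ) (S : Finset ℕ) (hS : ∀ n ∈ S, 1 ≤ n ∧ n ≤ Y) (W : ℕ → ℂ)
    (γ : Fin k ⊕ Fin k → ℝ) :
    ∑ n ∈ S, dr γ n * W n =
      ∑ ν ∈ (dgn k Y).filter (fun ν => pl ν ∈ S), (((pl ν : ℕ) : ℂ)⁻¹ * W (pl ν)) * ch ν γ := by
  rw [← Finset.sum_fiberwise_of_maps_to (s := (dgn k Y).filter (fun ν => pl ν ∈ S))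
    (t := S) (g := pl) (fun ν hν => (Finset.mem_filter.1 hν).2)]
  refine Finset.sum_congr rfl fun n hn => ?_
  obtain ⟨hn1, hn2⟩ := hS n hn
  have h1 : ((dgn k Y).filter (fun ν => pl ν ∈ S)).filter (fun ν => pl ν = n) =
      (dgn k Y).filter (fun ν => pl ν = n) := by
    ext ν
    simp only [Finset.mem_filter]
    constructor
    · rintro ⟨⟨h, _⟩, h'⟩
      exact ⟨h, h'⟩
    · rintro ⟨h, h'⟩
      refine ⟨⟨h, ?_⟩, h'⟩
      rw [h']
      exact hn
  rw [h1]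
  have h2 := fiber_sum (k := k) Y n hn1 hn2 (fun g f => ((n : ℕ) : ℂ)⁻¹ * W n *
      ((∏ j, (g j : ℂ) ^ (-(I * γ (Sum.inl j)))) * ∏ j, (f j : ℂ) ^ (I * γ (Sum.inr j))))
  have h3 : ∑ ν ∈ (dgn k Y).filter (fun ν => pl ν = n),
        (((pl ν : ℕ) : ℂ)⁻¹ * W (pl ν)) * ch ν γ =
      ∑ g ∈ Nat.finMulAntidiag k n, ∑ f ∈ Nat.finMulAntidiag k n,
        ((n : ℕ) : ℂ)⁻¹ * W n *
      ((∏ j, (g j : ℂ) ^ (-(I * γ (Sum.inl j)))) * ∏ j, (f j : ℂ) ^ (I * γ (Sum.inr j))) := by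
    rw [← h2]
    refine Finset.sum_congr rfl fun ν hν => ?_
    rw [(Finset.mem_filter.1 hν).2]
    rfl
  rw [h3]
  unfold dr dg tau
  simp_rw [← Finset.mul_sum]
  rw [← Finset.sum_mul]
  ring

/-- the part with all coordinates at most `N` -/
lemma small_part (hMM : S_MM) (k : ℕ) (ε : ℝ) (hε : 0 < ε) (hε1 : ε ≤ 1) : ∃ C : ℝ, 0 < C ∧
    ∀ (U : ℝ) (N : ℕ) (c : (Fin k ⊕ Fin k → ℕ) → ℂ), 3 ≤ U → U ≤ 2 * N → (N : ℝ) ≤ 16 * U →
    (∀ ν ∈ tup k N, c ν ≠ 0 → pl ν = pr ν ∧ N < pl ν ∧ ‖c ν‖ ≤ ((pl ν : ℕ) : ℝ)⁻¹) →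
    ∫⁻ γ, ENNReal.ofReal (‖∑ ν ∈ tup k N, c ν * ch ν γ‖ ^ 2) ∂(mP (Fin k ⊕ Fin k) U) ≤
      ENNReal.ofReal (C * U ^ (2 * k) * U ^ (ε - 1)) := by
  obtain ⟨C, hC, h⟩ := hMM
  obtain ⟨K, hK0, hK⟩ := diag_bound' k ε hε
  refine ⟨C ^ (2 * k) * (2 * K + 1), by positivity, fun U N c hU hUN hNU hc => ?_⟩
  have hU0 : 0 < U := by linarith
  have hN0 : (0:ℝ) < N := by linarith
  have hN1 : 1 ≤ N := by exact_mod_cast (Nat.cast_pos.1 hN0)
  refine (h k N U c hN1 (by linarith) hNU).trans (ENNReal.ofReal_le_ofReal ?_)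
  have h1 : ∑ ν ∈ tup k N, ‖c ν‖ ^ 2 ≤ (N : ℝ) ^ (ε - 1) * K := by
    refine le_trans ?_ (mul_le_mul_of_nonneg_left (hK N) (by positivity))
    rw [Finset.mul_sum]
    unfold dgn
    rw [Finset.sum_filter]
    refine Finset.sum_le_sum fun ν hν => ?_
    by_cases h0 : c ν = 0
    · rw [h0, norm_zero, zero_pow two_ne_zero]
      split_ifs
      · positivity
      · exact le_rfl
    · obtain ⟨h2, h3, h4⟩ := hc ν hν h0
      rw [if_pos h2]
      have hp0 : (0:ℝ) < (pl ν : ℕ) := by exact_mod_cast pl_pos hν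
      calc ‖c ν‖ ^ 2 ≤ (((pl ν : ℕ) : ℝ)⁻¹) ^ 2 := pow_le_pow_left₀ (norm_nonneg _) h4 2
        _ = ((pl ν : ℕ) : ℝ) ^ (ε - 1) * ((pl ν : ℕ) : ℝ) ^ (-(1 + ε)) := by
          rw [← Real.rpow_add hp0, ← Real.rpow_neg_one, ← Real.rpow_natCast, ← Real.rpow_mul hp0.le]
          congr 1
          push_cast
          ring
        _ ≤ _ := by
          refine mul_le_mul_of_nonneg_right ?_ (by positivity)
          exact Real.rpow_le_rpow_of_nonpos hN0 (by exact_mod_cast h3.le) (by linarith)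
  have h2 : (N : ℝ) ^ (ε - 1) ≤ 2 * U ^ (ε - 1) := by
    calc (N : ℝ) ^ (ε - 1) ≤ (U / 2) ^ (ε - 1) :=
          Real.rpow_le_rpow_of_nonpos (by positivity) (by linarith) (by linarith)
      _ = U ^ (ε - 1) * (1 / 2) ^ (ε - 1) := by
        rw [div_eq_mul_one_div, Real.mul_rpow hU0.le (by norm_num)]
      _ ≤ U ^ (ε - 1) * 2 := by
        refine mul_le_mul_of_nonneg_left ?_ (by positivity)
        calc ((1:ℝ) / 2) ^ (ε - 1) ≤ (1 / 2) ^ (-1 : ℝ) :=
              Real.rpow_le_rpow_of_exponent_ge (by norm_num) (by norm_num) (by linarith)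
          _ = 2 := by
            rw [Real.rpow_neg_one]
            norm_num
      _ = _ := by ring
  rw [mul_pow]
  have hUe : 0 < U ^ (ε - 1) := by positivity
  calc C ^ (2 * k) * U ^ (2 * k) * ∑ ν ∈ tup k N, ‖c ν‖ ^ 2
      ≤ C ^ (2 * k) * U ^ (2 * k) * (2 * U ^ (ε - 1) * K) := by
        gcongr
        exact h1.trans (mul_le_mul_of_nonneg_right h2 hK0)
    _ ≤ _ := by
        have : 0 ≤ C ^ (2 * k) * U ^ (2 * k) * U ^ (ε - 1) := by positivity
        nlinarith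

/-- the part with a given coordinate above `N` -/
lemma large_part (hMT : S_MT) (k B : ℕ) (ε : ℝ) (hε : 0 < ε) : ∃ C : ℝ, 0 < C ∧
    ∀ (U : ℝ) (N Y : ℕ) (i : Fin k ⊕ Fin k) (A : Finset (Fin k ⊕ Fin k → ℕ))
    (c : (Fin k ⊕ Fin k → ℕ) → ℂ), 3 ≤ U → U ≤ 2 * N → 1 ≤ Y → (Y : ℝ) ≤ U ^ B →
    A ⊆ (dgn k Y).filter (fun ν => pl ν ≤ Y) → (∀ ν ∈ A, N < ν i) →
    (∀ ν ∈ A, ‖c ν‖ ≤ ((pl ν : ℕ) : ℝ)⁻¹) →
    ∫⁻ γ, ENNReal.ofReal (‖∑ ν ∈ A, c ν * ch ν γ‖ ^ 2) ∂(mP (Fin k ⊕ Fin k) U) ≤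
      ENNReal.ofReal (C * U ^ (2 * k) * U ^ (ε - 1)) := by
  obtain ⟨C, hC, h⟩ := one_coord hMT
  set e : ℝ := ε / (6 * (B + 1)) with he
  have he0 : 0 < e := by positivity
  obtain ⟨D, hD0, hD⟩ := coord_bound k e he0
  refine ⟨C * D ^ 2 * (1 + 1 / e) ^ 4 + 1, by positivity,
    fun U N Y i A c hU hUN hY hYU hA hAi hc => ?_⟩
  have hU0 : 0 < U := by linarith
  have hN0 : (0:ℝ) < N := by linarith
  have hN1 : 1 ≤ N := by exact_mod_cast (Nat.cast_pos.1 hN0)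
  have hY1 : (1:ℝ) ≤ Y := by exact_mod_cast hY
  have hY0 : (0:ℝ) < Y := by linarith
  have hlogY : 0 ≤ Real.log Y := Real.log_nonneg hY1
  have hk : 1 ≤ k := by
    rcases i with j | j
    · exact Nat.one_le_iff_ne_zero.2 (by rintro rfl; exact j.elim0)
    · exact Nat.one_le_iff_ne_zero.2 (by rintro rfl; exact j.elim0)
  have hA' : ∀ ν ∈ A, ν ∈ dgn k Y ∧ pl ν ≤ Y := fun ν hν => Finset.mem_filter.1 (hA hν)
  have h1 := h k i N Y U A c hN1 hY hU0.le hUN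
    (fun ν hν j => (mem_tup.1 (mem_dgn.1 (hA' ν hν).1).1 j).1)
    (fun ν hν => ⟨hAi ν hν, (mem_tup.1 (mem_dgn.1 (hA' ν hν).1).1 i).2⟩)
  refine h1.trans (ENNReal.ofReal_le_ofReal ?_)
  have h2 : ∀ m ∈ Finset.Ioc N Y, (m : ℝ) * (∑ ν ∈ A.filter (fun ν => ν i = m), ‖c ν‖) ^ 2 ≤
      (D * (Y : ℝ) ^ e * (1 + Real.log Y)) ^ 2 * (m : ℝ)⁻¹ := by
    intro m hm
    have hm1 : 1 ≤ m := by
      have := (Finset.mem_Ioc.1 hm).1
      omega
    have hm0 : (0:ℝ) < m := by exact_mod_cast hm1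
    have h3 : ∑ ν ∈ A.filter (fun ν => ν i = m), ‖c ν‖ ≤ D * (Y : ℝ) ^ e * (1 + Real.log Y) / m := by
      refine le_trans ?_ (hD Y m hm1 hY)
      calc ∑ ν ∈ A.filter (fun ν => ν i = m), ‖c ν‖
          ≤ ∑ ν ∈ A.filter (fun ν => ν i = m), ((pl ν : ℕ) : ℝ)⁻¹ :=
            Finset.sum_le_sum fun ν hν => hc ν (Finset.mem_filter.1 hν).1
        _ ≤ _ := by
            refine Finset.sum_le_sum_of_subset_of_nonneg ?_ fun ν _ _ => by positivity
            intro ν hν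
            obtain ⟨h4, h5⟩ := Finset.mem_filter.1 hν
            obtain ⟨h6, h7⟩ := hA' ν h4
            rw [Finset.mem_filter]
            refine ⟨h6, h7, ?_⟩
            rw [← h5]
            rcases i with j | j
            · exact Finset.dvd_prod_of_mem (fun j => ν (Sum.inl j)) (Finset.mem_univ j)
            · rw [(mem_dgn.1 h6).2]
              exact Finset.dvd_prod_of_mem (fun j => ν (Sum.inr j)) (Finset.mem_univ j)
    calc (m : ℝ) * (∑ ν ∈ A.filter (fun ν => ν i = m), ‖c ν‖) ^ 2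
        ≤ (m : ℝ) * (D * (Y : ℝ) ^ e * (1 + Real.log Y) / m) ^ 2 := by
          have : 0 ≤ ∑ ν ∈ A.filter (fun ν => ν i = m), ‖c ν‖ := Finset.sum_nonneg fun _ _ => norm_nonneg _
          gcongr
      _ = _ := by
          field_simp
  have h3 : ∑ m ∈ Finset.Ioc N Y, (m : ℝ)⁻¹ ≤ 1 + Real.log Y := by
    refine le_trans (Finset.sum_le_sum_of_subset_of_nonneg ?_ fun q _ _ => by positivity) (harm Y)
    intro m hm
    rw [Finset.mem_Ioc] at hm
    rw [Finset.mem_Icc]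
    omega
  have h4 : ∑ m ∈ Finset.Ioc N Y, (m : ℝ) * (∑ ν ∈ A.filter (fun ν => ν i = m), ‖c ν‖) ^ 2 ≤
      (D * (Y : ℝ) ^ e * (1 + Real.log Y)) ^ 2 * (1 + Real.log Y) := by
    refine (Finset.sum_le_sum h2).trans ?_
    rw [← Finset.mul_sum]
    exact mul_le_mul_of_nonneg_left h3 (by positivity)
  have hYe : 1 ≤ (Y : ℝ) ^ e := Real.one_le_rpow hY1 he0.le
  have h5 : 1 + Real.log Y ≤ (1 + 1 / e) * (Y : ℝ) ^ e := by
    have := Real.log_le_rpow_div hY0.le he0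
    rw [add_mul, one_mul, one_div, inv_mul_eq_div]
    linarith
  have h6 : ((Y : ℝ) ^ e) ^ 6 ≤ U ^ ε := by
    rw [← Real.rpow_natCast, ← Real.rpow_mul hY0.le]
    calc (Y : ℝ) ^ (e * ((6 : ℕ) : ℝ)) ≤ (U ^ B) ^ (e * ((6 : ℕ) : ℝ)) :=
          Real.rpow_le_rpow hY0.le hYU (by positivity)
      _ = U ^ ((B : ℝ) * (e * ((6 : ℕ) : ℝ))) := by
          rw [← Real.rpow_natCast, ← Real.rpow_mul hU0.le]
      _ ≤ U ^ ε := by
          refine Real.rpow_le_rpow_of_exponent_le (by linarith) ?_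
          rw [he]
          push_cast
          have : (B : ℝ) * (ε / (6 * (B + 1)) * 6) = ε * (B / (B + 1)) := by
            field_simp
          rw [this]
          have h7 : (B : ℝ) / (B + 1) ≤ 1 := by
            rw [div_le_one (by positivity)]
            linarith
          nlinarith
  have h7 : U ^ (2 * k - 1) = U ^ (2 * k) * U⁻¹ := by
    have : U ^ (2 * k) = U ^ (2 * k - 1) * U := by
      rw [← pow_succ]
      congr 1
      omega
    rw [this]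
    field_simp
  have h8 : U ^ (ε - 1) = U ^ ε * U⁻¹ := by
    rw [Real.rpow_sub hU0, Real.rpow_one]
    ring
  calc C * (1 + Real.log Y) * (∑ m ∈ Finset.Ioc N Y, (m : ℝ) *
        (∑ ν ∈ A.filter (fun ν => ν i = m), ‖c ν‖) ^ 2) * U ^ (2 * k - 1)
      ≤ C * (1 + Real.log Y) * ((D * (Y : ℝ) ^ e * (1 + Real.log Y)) ^ 2 * (1 + Real.log Y)) *
        U ^ (2 * k - 1) := by gcongr
    _ = C * D ^ 2 * ((1 + Real.log Y) ^ 4 * ((Y : ℝ) ^ e) ^ 2) * U ^ (2 * k - 1) := by ring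
    _ ≤ C * D ^ 2 * (((1 + 1 / e) * (Y : ℝ) ^ e) ^ 4 * ((Y : ℝ) ^ e) ^ 2) * U ^ (2 * k - 1) := by
        gcongr
    _ = C * D ^ 2 * (1 + 1 / e) ^ 4 * ((Y : ℝ) ^ e) ^ 6 * U ^ (2 * k - 1) := by ring
    _ ≤ C * D ^ 2 * (1 + 1 / e) ^ 4 * U ^ ε * U ^ (2 * k - 1) := by gcongr
    _ = C * D ^ 2 * (1 + 1 / e) ^ 4 * U ^ (2 * k) * U ^ (ε - 1) := by
        rw [h7, h8]
        ring
    _ ≤ _ := by
        have : 0 ≤ U ^ (2 * k) * U ^ (ε - 1) := by positivity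
        nlinarith

open Classical in
/-- a coordinate above `N` -/
def sel (N : ℕ) (ν : Fin k ⊕ Fin k → ℕ) : Option (Fin k ⊕ Fin k) :=
  if h : ∃ i, N < ν i then some h.choose else none

lemma sel_some {N : ℕ} {ν : Fin k ⊕ Fin k → ℕ} {i : Fin k ⊕ Fin k} (h : sel N ν = some i) :
    N < ν i := by
  unfold sel at h
  split_ifs at h with h1
  rw [Option.some.injEq] at h
  rw [← h]
  exact h1.choose_spec

lemma sel_none {N : ℕ} {ν : Fin k ⊕ Fin k → ℕ} (h : sel N ν = none) (i : Fin k ⊕ Fin k) :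
    ν i ≤ N := by
  unfold sel at h
  split_ifs at h with h1
  push Not at h1
  exact h1 i

lemma cont_ch {ν : Fin k ⊕ Fin k → ℕ} (hν : ∀ j, 1 ≤ ν j) :
    Continuous fun γ : Fin k ⊕ Fin k → ℝ => ch ν γ := by
  simp_rw [ch_eq]
  exact continuous_finset_prod _ fun j _ => (cont_fch j (hν j)).comp (continuous_apply j)

theorem t_DT (hMM : S_MM) (hMT : S_MT) : S_DT := by
  intro k B ε hε
  set ε₁ : ℝ := min ε 1 with hε₁
  have hε₁0 : 0 < ε₁ := lt_min hε one_pos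
  have hε₁1 : ε₁ ≤ 1 := min_le_right _ _
  have hε₁ε : ε₁ ≤ ε := min_le_left _ _
  obtain ⟨C₁, hC₁, h₁⟩ := small_part hMM k ε₁ hε₁0 hε₁1
  obtain ⟨C₂, hC₂, h₂⟩ := large_part hMT k B ε₁ hε₁0
  set n₀ : ℝ := (Fintype.card (Option (Fin k ⊕ Fin k)) : ℝ) with hn₀
  have hn₀0 : 0 < n₀ := by
    rw [hn₀]
    exact_mod_cast Fintype.card_pos
  refine ⟨n₀ ^ 2 * (C₁ + C₂) + C₁, by positivity, fun U N hU hUN hNU => ?_⟩
  have hU0 : 0 < U := by linarith
  have hUe : U ^ (ε₁ - 1) ≤ U ^ (ε - 1) :=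
    Real.rpow_le_rpow_of_exponent_le (by linarith) (by linarith)
  have hUk : 0 ≤ U ^ (2 * k) * U ^ (ε - 1) := by positivity
  have hUk1 : 0 ≤ U ^ (2 * k) * U ^ (ε₁ - 1) := by positivity
  have hUkk : U ^ (2 * k) * U ^ (ε₁ - 1) ≤ U ^ (2 * k) * U ^ (ε - 1) :=
    mul_le_mul_of_nonneg_left hUe (by positivity)
  constructor
  · intro W hW Y hYU
    rcases Nat.eq_zero_or_pos Y with hY0 | hY
    · subst hY0
      simp
    set D : Finset (Fin k ⊕ Fin k → ℕ) := (dgn k Y).filter (fun ν => pl ν ∈ Finset.Ioc N Y) with hD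
    set c : (Fin k ⊕ Fin k → ℕ) → ℂ := fun ν => ((pl ν : ℕ) : ℂ)⁻¹ * W (pl ν) with hc
    have hcn : ∀ ν, ‖c ν‖ ≤ ((pl ν : ℕ) : ℝ)⁻¹ := by
      intro ν
      simp only [hc]
      rw [norm_mul, norm_inv, Complex.norm_natCast]
      exact mul_le_of_le_one_right (by positivity) (hW _)
    have hF : ∀ γ : Fin k ⊕ Fin k → ℝ, ∑ n ∈ Finset.Ioc N Y, dr γ n * W n =
        ∑ o : Option (Fin k ⊕ Fin k), ∑ ν ∈ D.filter (fun ν => sel N ν = o), c ν * ch ν γ := by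
      intro γ
      rw [dr_sum Y (Finset.Ioc N Y) (fun n hn => by rw [Finset.mem_Ioc] at hn; omega) W γ]
      rw [Finset.sum_fiberwise]
    have hD1 : ∀ ν ∈ D, ∀ j, 1 ≤ ν j := fun ν hν j =>
      (mem_tup.1 (mem_dgn.1 (Finset.mem_filter.1 hν).1).1 j).1
    set G : Option (Fin k ⊕ Fin k) → (Fin k ⊕ Fin k → ℝ) → ℂ :=
      fun o γ => ∑ ν ∈ D.filter (fun ν => sel N ν = o), c ν * ch ν γ with hG
    have hGc : ∀ o, Continuous (G o) := fun o =>
      continuous_finset_sum _ fun ν hν =>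
        continuous_const.mul (cont_ch (hD1 ν (Finset.mem_filter.1 hν).1))
    have hpart : ∀ o, ∫⁻ γ, ENNReal.ofReal (‖G o γ‖ ^ 2) ∂(mP (Fin k ⊕ Fin k) U) ≤
        ENNReal.ofReal ((C₁ + C₂) * U ^ (2 * k) * U ^ (ε₁ - 1)) := by
      intro o
      rcases o with _ | i
      · set c₀ : (Fin k ⊕ Fin k → ℕ) → ℂ :=
          fun ν => if pl ν = pr ν ∧ N < pl ν ∧ pl ν ≤ Y then c ν else 0 with hc₀
        have h3 : ∀ γ, G none γ = ∑ ν ∈ tup k N, c₀ ν * ch ν γ := by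
          intro γ
          simp only [hG, hc₀, ite_mul, zero_mul]
          rw [← Finset.sum_filter]
          refine Finset.sum_congr ?_ fun _ _ => rfl
          ext ν
          simp only [hD, Finset.mem_filter, mem_dgn, Finset.mem_Ioc, mem_tup]
          constructor
          · rintro ⟨⟨⟨h4, h5⟩, h6⟩, h7⟩
            exact ⟨fun i => ⟨(h4 i).1, sel_none h7 i⟩, h5, h6⟩
          · rintro ⟨h4, h5, h6, h7⟩
            have hpl : ∀ i, ν i ≤ pl ν := by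
              have hpp : 1 ≤ pl ν := by omega
              rintro (j | j)
              · exact Nat.le_of_dvd hpp
                  (Finset.dvd_prod_of_mem (fun j => ν (Sum.inl j)) (Finset.mem_univ j))
              · refine Nat.le_of_dvd hpp ?_
                rw [h5]
                exact Finset.dvd_prod_of_mem (fun j => ν (Sum.inr j)) (Finset.mem_univ j)
            refine ⟨⟨⟨fun i => ⟨(h4 i).1, (hpl i).trans h7⟩, h5⟩, h6, h7⟩, ?_⟩
            unfold sel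
            rw [dif_neg]
            push Not
            exact fun i => (h4 i).2
        simp_rw [h3]
        refine (h₁ U N c₀ hU hUN hNU ?_).trans (ENNReal.ofReal_le_ofReal ?_)
        · intro ν _ hne
          simp only [hc₀] at hne ⊢
          split_ifs at hne with h4
          · rw [if_pos h4]
            exact ⟨h4.1, h4.2.1, hcn ν⟩
          · exact absurd rfl hne
        · nlinarith
      · refine (h₂ U N Y i _ c hU hUN hY hYU ?_ ?_ ?_).trans (ENNReal.ofReal_le_ofReal ?_)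
        · intro ν hν
          obtain ⟨h3, _⟩ := Finset.mem_filter.1 hν
          obtain ⟨h4, h5⟩ := Finset.mem_filter.1 h3
          exact Finset.mem_filter.2 ⟨h4, (Finset.mem_Ioc.1 h5).2⟩
        · intro ν hν
          exact sel_some (Finset.mem_filter.1 hν).2
        · intro ν _
          exact hcn ν
        · nlinarith
    calc ∫⁻ γ, ENNReal.ofReal (‖∑ n ∈ Finset.Ioc N Y, dr γ n * W n‖ ^ 2) ∂(mP (Fin k ⊕ Fin k) U)
        ≤ ∫⁻ γ, ENNReal.ofReal n₀ * ∑ o, ENNReal.ofReal (‖G o γ‖ ^ 2) ∂(mP (Fin k ⊕ Fin k) U) := by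
          refine lintegral_mono fun γ => ?_
          rw [hF, ← ENNReal.ofReal_sum_of_nonneg (fun o _ => by positivity),
            ← ENNReal.ofReal_mul hn₀0.le]
          refine ENNReal.ofReal_le_ofReal ?_
          calc ‖∑ o, G o γ‖ ^ 2 ≤ (∑ o, ‖G o γ‖) ^ 2 :=
                pow_le_pow_left₀ (norm_nonneg _) (norm_sum_le _ _) 2
            _ ≤ _ := by
                have := sq_sum_le_card_mul_sum_sq (s := Finset.univ) (f := fun o => ‖G o γ‖)
                rw [Finset.card_univ] at this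
                exact this
      _ = ENNReal.ofReal n₀ * ∑ o, ∫⁻ γ, ENNReal.ofReal (‖G o γ‖ ^ 2) ∂(mP (Fin k ⊕ Fin k) U) := by
          have hm : ∀ o, Measurable fun γ => ENNReal.ofReal (‖G o γ‖ ^ 2) := fun o =>
            (ENNReal.continuous_ofReal.comp ((hGc o).norm.pow 2)).measurable
          rw [lintegral_const_mul _ (Finset.measurable_sum _ fun o _ => hm o),
            lintegral_finset_sum _ fun o _ => hm o]
      _ ≤ ENNReal.ofReal n₀ * ∑ _o : Option (Fin k ⊕ Fin k),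
            ENNReal.ofReal ((C₁ + C₂) * U ^ (2 * k) * U ^ (ε₁ - 1)) := by
          gcongr with o _
          exact hpart o
      _ = ENNReal.ofReal (n₀ * (n₀ * ((C₁ + C₂) * U ^ (2 * k) * U ^ (ε₁ - 1)))) := by
          rw [Finset.sum_const, Finset.card_univ, nsmul_eq_mul, ENNReal.ofReal_mul hn₀0.le,
            ENNReal.ofReal_mul hn₀0.le, hn₀, ENNReal.ofReal_natCast]
      _ ≤ _ := by
          refine ENNReal.ofReal_le_ofReal ?_
          have h3 : n₀ * (n₀ * ((C₁ + C₂) * U ^ (2 * k) * U ^ (ε₁ - 1))) =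
              n₀ ^ 2 * (C₁ + C₂) * (U ^ (2 * k) * U ^ (ε₁ - 1)) := by ring
          rw [h3]
          have h4 : n₀ ^ 2 * (C₁ + C₂) * (U ^ (2 * k) * U ^ (ε₁ - 1)) ≤
              n₀ ^ 2 * (C₁ + C₂) * (U ^ (2 * k) * U ^ (ε - 1)) :=
            mul_le_mul_of_nonneg_left hUkk (by positivity)
          nlinarith
  · set c₀ : (Fin k ⊕ Fin k → ℕ) → ℂ :=
      fun ν => if pl ν = pr ν ∧ N < pl ν then ((pl ν : ℕ) : ℂ)⁻¹ else 0 with hc₀
    have h3 : ∀ γ : Fin k ⊕ Fin k → ℝ, SN N γ - ∑ n ∈ Finset.Icc 1 N, dr γ n =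
        ∑ ν ∈ tup k N, c₀ ν * ch ν γ := by
      intro γ
      have h4 := dr_sum N (Finset.Icc 1 N) (fun n hn => by rw [Finset.mem_Icc] at hn; exact hn)
        (fun _ => 1) γ
      simp only [mul_one] at h4
      rw [h4, SN_eq]
      unfold dgn
      rw [Finset.filter_filter, Finset.sum_filter, ← Finset.sum_sub_distrib]
      refine Finset.sum_congr rfl fun ν hν => ?_
      have hp := pl_pos hν
      simp only [hc₀, Finset.mem_Icc]
      by_cases h5 : pl ν = pr ν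
      · by_cases h6 : N < pl ν
        · rw [if_pos h5, if_neg (by omega), if_pos ⟨h5, h6⟩]
          ring
        · rw [if_pos h5, if_pos ⟨h5, hp, by omega⟩, if_neg (by tauto)]
          ring
      · rw [if_neg h5, if_neg (by tauto), if_neg (by tauto)]
        ring
    simp_rw [h3]
    refine (h₁ U N c₀ hU hUN hNU ?_).trans (ENNReal.ofReal_le_ofReal ?_)
    · intro ν _ hne
      simp only [hc₀] at hne ⊢
      split_ifs at hne with h4
      · rw [if_pos h4, norm_inv, Complex.norm_natCast]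
        exact ⟨h4.1, h4.2, le_rfl⟩
      · exact absurd rfl hne
    · have : 0 ≤ n₀ ^ 2 * (C₁ + C₂) := by positivity
      have h5 : C₁ * (U ^ (2 * k) * U ^ (ε₁ - 1)) ≤ C₁ * (U ^ (2 * k) * U ^ (ε - 1)) :=
        mul_le_mul_of_nonneg_left hUkk hC₁.le
      nlinarith

end

end Pool.Agent.Z72.SQ
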