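import Pool.Agent.Z72.SQ.Stm
import Pool.Agent.Z72.SH.Ex3

set_option autoImplicit false

/-! Project SQ: proof of RP (helper55 for helper72). -/

namespace Pool.Agent.Z72.SQ.RpAux

open MeasureTheory Set Filter Topology

/-- Cauchy–Schwarz -/
theorem cs {a b : ℝ} (hab : a ≤ b) {f g : ℝ → ℝ} (h1 : IntervalIntegrable (fun t => f t ^ 2) volume a b)
    (h2 : IntervalIntegrable (fun t => g t ^ 2) volume a b)
    (h3 : IntervalIntegrable (fun t => f t * g t) volume a b) :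
    (∫ t in a..b, f t * g t) ^ 2 ≤ (∫ t in a..b, f t ^ 2) * ∫ t in a..b, g t ^ 2 := by
  have key : ∀ x : ℝ, 0 ≤ (∫ t in a..b, f t ^ 2) * (x * x) + (-2 * ∫ t in a..b, f t * g t) * x +
      ∫ t in a..b, g t ^ 2 := by
    intro x
    have e : (∫ t in a..b, f t ^ 2) * (x * x) + (-2 * ∫ t in a..b, f t * g t) * x +
        ∫ t in a..b, g t ^ 2 = ∫ t in a..b, (x * f t - g t) ^ 2 := by
      have e1 : ∀ t, (x * f t - g t) ^ 2 = ((x * x) * f t ^ 2 + (-2 * x) * (f t * g t)) + g t ^ 2 := by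
        intro t; ring
      simp only [e1]
      rw [intervalIntegral.integral_add ((h1.const_mul _).add (h3.const_mul _)) h2,
        intervalIntegral.integral_add (h1.const_mul _) (h3.const_mul _),
        intervalIntegral.integral_const_mul, intervalIntegral.integral_const_mul]
      ring
    rw [e]
    exact intervalIntegral.integral_nonneg hab fun t _ => sq_nonneg _
  have := discrim_le_zero key
  unfold discrim at this
  nlinarith

theorem log_pow_bound (A : ℕ) {δ : ℝ} (hδ : 0 < δ) : ∃ C : ℝ, 0 < C ∧ ∀ T : ℝ, 1 ≤ T →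
    (1 + Real.log T) ^ A ≤ C * T ^ δ := by
  set η : ℝ := δ / (A + 1) with hη
  have hη0 : 0 < η := by positivity
  refine ⟨(1 + 1 / η) ^ A, by positivity, fun T hT => ?_⟩
  have hT0 : 0 ≤ T := by linarith
  have h1 : Real.log T ≤ T ^ η / η := Real.log_le_rpow_div hT0 hη0
  have h2 : 1 ≤ T ^ η := Real.one_le_rpow hT hη0.le
  have h3 : 1 + Real.log T ≤ (1 + 1 / η) * T ^ η := by
    have : (1 + 1 / η) * T ^ η = T ^ η + T ^ η / η := by ring
    rw [this]
    linarith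
  have h4 : 0 ≤ 1 + Real.log T := by linarith [Real.log_nonneg hT]
  refine (pow_le_pow_left₀ h4 h3 A).trans ?_
  rw [mul_pow]
  gcongr
  rw [← Real.rpow_natCast, ← Real.rpow_mul hT0]
  refine Real.rpow_le_rpow_of_exponent_le hT ?_
  rw [hη, div_mul_eq_mul_div, div_le_iff₀ (by positivity)]
  nlinarith

theorem op1 {C U : ℝ} {h F : ℝ → ℂ} (hh : Continuous h) (hU : 0 ≤ U)
    (hb : ∀ u, 0 ≤ u → u ≤ 2 * U → ‖h u‖ ≤ C / (1 + u)) (hm : Measurable F) {M : ℝ}
    (hM : ∀ t ∈ Icc 0 U, ‖F t‖ ≤ M) :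
    ∫ c in (0 : ℝ)..U, ‖∫ t in (0 : ℝ)..U, F t * h (t + c)‖ ^ 2 ≤
      (C ^ 2 * Real.log (1 + U)) * ∫ t in (0 : ℝ)..U, ‖F t‖ ^ 2 := by
  have hM' : ∀ t ∈ Icc 0 U, ‖F t‖ ≤ |M| := fun t ht => (hM t ht).trans (le_abs_self _)
  have i1 : IntervalIntegrable (fun t => ‖F t‖ ^ 2) volume 0 U := by
    rw [intervalIntegrable_iff_integrableOn_Ioc_of_le hU]
    refine Measure.integrableOn_of_bounded (M := |M| ^ 2) (by simp)
      (hm.norm.pow_const 2).aestronglyMeasurable ?_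
    refine (ae_restrict_iff' measurableSet_Ioc).2 (Eventually.of_forall fun t ht => ?_)
    rw [Real.norm_of_nonneg (by positivity)]
    exact pow_le_pow_left₀ (norm_nonneg _) (hM' t ⟨ht.1.le, ht.2⟩) 2
  have hI0 : 0 ≤ ∫ t in (0 : ℝ)..U, ‖F t‖ ^ 2 :=
    intervalIntegral.integral_nonneg hU fun t _ => by positivity
  have step : ∀ c ∈ Icc 0 U, ‖∫ t in (0 : ℝ)..U, F t * h (t + c)‖ ^ 2 ≤
      (∫ t in (0 : ℝ)..U, ‖F t‖ ^ 2) * C ^ 2 * (1 + c)⁻¹ := by
    intro c hc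
    have hgc : Continuous fun t : ℝ => ‖h (t + c)‖ := by fun_prop
    have i2 : IntervalIntegrable (fun t => ‖h (t + c)‖ ^ 2) volume 0 U :=
      (hgc.pow 2).intervalIntegrable _ _
    have i3 : IntervalIntegrable (fun t => ‖F t‖ * ‖h (t + c)‖) volume 0 U := by
      rw [intervalIntegrable_iff_integrableOn_Ioc_of_le hU]
      obtain ⟨M₂, hM₂⟩ := (isCompact_Icc (a := (0:ℝ)) (b := U)).exists_bound_of_continuousOn hgc.continuousOn
      refine Measure.integrableOn_of_bounded (M := |M| * |M₂|) (by simp)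
        (hm.norm.mul hgc.measurable).aestronglyMeasurable ?_
      refine (ae_restrict_iff' measurableSet_Ioc).2 (Eventually.of_forall fun t ht => ?_)
      have h1 := hM₂ t ⟨ht.1.le, ht.2⟩
      rw [norm_mul, norm_norm]
      exact mul_le_mul (hM' t ⟨ht.1.le, ht.2⟩) (h1.trans (le_abs_self _)) (norm_nonneg _) (abs_nonneg _)
    have h1 : ‖∫ t in (0 : ℝ)..U, F t * h (t + c)‖ ≤ ∫ t in (0 : ℝ)..U, ‖F t‖ * ‖h (t + c)‖ := by
      refine (intervalIntegral.norm_integral_le_integral_norm hU).trans (le_of_eq ?_)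
      simp only [norm_mul]
    have h2 : ∫ t in (0 : ℝ)..U, ‖h (t + c)‖ ^ 2 ≤ C ^ 2 * (1 + c)⁻¹ := by
      have hder : ∀ t ∈ uIcc 0 U, HasDerivAt (fun t : ℝ => -(C ^ 2 * (1 + t + c)⁻¹))
          (C ^ 2 * ((1 + t + c) ^ 2)⁻¹) t := by
        intro t ht
        rw [uIcc_of_le hU] at ht
        have hne : 1 + t + c ≠ 0 := by linarith [ht.1, hc.1]
        have h3 : HasDerivAt (fun t : ℝ => 1 + t + c) 1 t := by
          simpa using ((hasDerivAt_id t).const_add 1).add_const c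
        have h4 := ((h3.inv hne).const_mul (C ^ 2)).neg
        refine h4.congr_deriv ?_
        field_simp
      have hint : IntervalIntegrable (fun t : ℝ => C ^ 2 * ((1 + t + c) ^ 2)⁻¹) volume 0 U := by
        refine ContinuousOn.intervalIntegrable ?_
        rw [uIcc_of_le hU]
        refine ContinuousOn.mul continuousOn_const (ContinuousOn.inv₀ (by fun_prop) fun t ht => ?_)
        have : 0 < 1 + t + c := by linarith [ht.1, hc.1]
        positivity
      have h5 := intervalIntegral.integral_eq_sub_of_hasDerivAt hder hint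
      have h6 : ∫ t in (0 : ℝ)..U, ‖h (t + c)‖ ^ 2 ≤ ∫ t in (0 : ℝ)..U, C ^ 2 * ((1 + t + c) ^ 2)⁻¹ := by
        refine intervalIntegral.integral_mono_on hU i2 hint fun t ht => ?_
        have h7 := hb (t + c) (by linarith [ht.1, hc.1]) (by linarith [ht.2, hc.2])
        have h8 := pow_le_pow_left₀ (norm_nonneg _) h7 2
        refine h8.trans (le_of_eq ?_)
        rw [div_pow, div_eq_mul_inv, ← add_assoc]
      refine h6.trans ?_
      rw [h5]
      have h9 : 0 ≤ C ^ 2 * (1 + U + c)⁻¹ := by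
        have : 0 < 1 + U + c := by linarith [hc.1]
        positivity
      rw [add_zero]
      linarith
    calc ‖∫ t in (0 : ℝ)..U, F t * h (t + c)‖ ^ 2 ≤ (∫ t in (0 : ℝ)..U, ‖F t‖ * ‖h (t + c)‖) ^ 2 :=
          pow_le_pow_left₀ (norm_nonneg _) h1 2
      _ ≤ (∫ t in (0 : ℝ)..U, ‖F t‖ ^ 2) * ∫ t in (0 : ℝ)..U, ‖h (t + c)‖ ^ 2 := cs hU i1 i2 i3
      _ ≤ (∫ t in (0 : ℝ)..U, ‖F t‖ ^ 2) * (C ^ 2 * (1 + c)⁻¹) := mul_le_mul_of_nonneg_left h2 hI0
      _ = _ := by ring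
  have hder : ∀ c ∈ uIcc 0 U, HasDerivAt (fun c : ℝ => Real.log (1 + c)) ((1 + c)⁻¹) c := by
    intro c hc
    rw [uIcc_of_le hU] at hc
    have hne : 1 + c ≠ 0 := by linarith [hc.1]
    have h3 : HasDerivAt (fun t : ℝ => 1 + t) 1 c := (hasDerivAt_id c).const_add 1
    simpa using h3.log hne
  have hint : IntervalIntegrable (fun c : ℝ => (1 + c)⁻¹) volume 0 U := by
    refine ContinuousOn.intervalIntegrable ?_
    rw [uIcc_of_le hU]
    refine ContinuousOn.inv₀ (by fun_prop) fun t ht => ?_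
    have : 0 < 1 + t := by linarith [ht.1]
    exact this.ne'
  have h5 := intervalIntegral.integral_eq_sub_of_hasDerivAt hder hint
  rw [add_zero, Real.log_one, sub_zero] at h5
  have hcont : IntervalIntegrable (fun c : ℝ => ‖∫ t in (0 : ℝ)..U, F t * h (t + c)‖ ^ 2) volume 0 U := by
    rw [intervalIntegrable_iff_integrableOn_Ioc_of_le hU]
    refine Measure.integrableOn_of_bounded (M := (∫ t in (0 : ℝ)..U, ‖F t‖ ^ 2) * C ^ 2 * 1) (by simp) ?_ ?_
    · exact ((Pool.Agent.Z72.SH.conv_cont hU (F := F) (g := h) ⟨hm, M, hM⟩ hh).norm.pow 2).aestronglyMeasurable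
    · refine (ae_restrict_iff' measurableSet_Ioc).2 (Eventually.of_forall fun c hc => ?_)
      rw [Real.norm_of_nonneg (by positivity)]
      refine (step c ⟨hc.1.le, hc.2⟩).trans ?_
      gcongr
      refine inv_le_one_of_one_le₀ ?_
      linarith [hc.1]
  calc ∫ c in (0 : ℝ)..U, ‖∫ t in (0 : ℝ)..U, F t * h (t + c)‖ ^ 2
      ≤ ∫ c in (0 : ℝ)..U, (∫ t in (0 : ℝ)..U, ‖F t‖ ^ 2) * C ^ 2 * (1 + c)⁻¹ :=
        intervalIntegral.integral_mono_on hU hcont (hint.const_mul _) step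
    _ = _ := by
      rw [intervalIntegral.integral_const_mul, h5]
      ring

theorem fin_bound {k : ℕ} {ε T U P Q K a b : ℝ} (hk : 1 ≤ k) (hε : 0 < ε) (hT : 1 ≤ T) (hU : 0 ≤ U)
    (hP : 0 ≤ P) (hQ : 0 ≤ Q) (hK : K ≤ P * T ^ (1 + ε / 2)) (hab : a ≤ b) :
    4 ^ (2 * k) * K * ((b - a) * (Q * T ^ (ε / (4 * k)) * U) ^ (2 * k - 1)) ≤
      (4 ^ (2 * k) * P * Q ^ (2 * k - 1)) * T ^ (1 + ε) * U ^ (2 * k - 1) * (b - a) := by
  have hT0 : 0 < T := by linarith
  have hk0 : (1 : ℝ) ≤ k := by exact_mod_cast hk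
  have h1 : (T ^ (ε / (4 * k))) ^ (2 * k - 1) ≤ T ^ (ε / 2) := by
    rw [← Real.rpow_natCast, ← Real.rpow_mul hT0.le]
    refine Real.rpow_le_rpow_of_exponent_le hT ?_
    have h2 : ((2 * k - 1 : ℕ) : ℝ) ≤ 2 * k := by
      have : 2 * k - 1 ≤ 2 * k := Nat.sub_le _ _
      exact_mod_cast this
    calc ε / (4 * k) * ((2 * k - 1 : ℕ) : ℝ) ≤ ε / (4 * k) * (2 * k) := by gcongr
      _ = ε / 2 := by field_simp; norm_num
  have h3 : T ^ (1 + ε) = T ^ (1 + ε / 2) * T ^ (ε / 2) := by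
    rw [← Real.rpow_add hT0]
    congr 1
    ring
  have hba : 0 ≤ b - a := by linarith
  rw [mul_pow, mul_pow, h3]
  calc 4 ^ (2 * k) * K * ((b - a) * (Q ^ (2 * k - 1) * (T ^ (ε / (4 * k))) ^ (2 * k - 1) * U ^ (2 * k - 1)))
      ≤ 4 ^ (2 * k) * (P * T ^ (1 + ε / 2)) * ((b - a) * (Q ^ (2 * k - 1) * T ^ (ε / 2) * U ^ (2 * k - 1))) := by
        have : 0 ≤ P * T ^ (1 + ε / 2) := by positivity
        gcongr
    _ = _ := by ring

end Pool.Agent.Z72.SQ.RpAux

namespace Pool.Agent.Z72.SQ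

open Complex Filter Topology MeasureTheory Set
open Pool.Agent.TH612.GS (z zN PN mP SN zr Sep DD tup ch wt dr IG z_cont PN_cont)
open Pool.Agent.N879.PU (fs fs_norm fs_cont fs_prod card_ii)
open Pool.Agent.N879.PZ (Wb)
open Pool.Agent.Z72.SH (gd ker_conj rw_sub)
open RpAux

noncomputable section

/-- the common conclusion -/
theorem rp_core (hRW : Pool.Agent.Z72.SH.S_RW) {k N : ℕ} {ε T U P Q K x y a b : ℝ} (hk : 1 ≤ k) (hε : 0 < ε)
    (hT : 1 ≤ T) (hU : 0 < U) (hP : 0 ≤ P) (hQ : 0 ≤ Q) (hK0 : 0 ≤ K) (hK : K ≤ P * T ^ (1 + ε / 2))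
    (hxy : x ≤ y)
    (h1 : ∀ F : ℝ → ℂ, Wb x y F → ∫ c in (0 : ℝ)..U, ‖∫ t in x..y, F t * (z (t + c) - PN N (t + c))‖ ^ 2 ≤
      K * ∫ t in x..y, ‖F t‖ ^ 2)
    (h2 : ∀ t ∈ Icc x y, ∫ c in (0 : ℝ)..U, ‖z (t + c)‖ ^ 2 ≤ Q * T ^ (ε / (4 * k)) * U)
    (h3 : ∀ t ∈ Icc x y, ∫ c in (0 : ℝ)..U, ‖PN N (t + c)‖ ^ 2 ≤ Q * T ^ (ε / (4 * k)) * U)
    (hxa : x ≤ a) (hab : a ≤ b) (hby : b ≤ y) :
    ∫⁻ γ, ENNReal.ofReal (‖∫ t in a..b, gd N γ t‖ ^ 2) ∂(mP (Fin k ⊕ Fin k) U) ≤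
      ENNReal.ofReal ((4 ^ (2 * k) * P * Q ^ (2 * k - 1)) * T ^ (1 + ε) * U ^ (2 * k - 1) * (b - a)) := by
  have hW0 : 0 ≤ Q * T ^ (ε / (4 * k)) * U := by positivity
  have key := rw_sub hRW (ι := Fin k ⊕ Fin k) (w := fun _ => Q * T ^ (ε / (4 * k)) * U) (f := fun i => fs z i)
    (g := fun i => fs (PN N) i) hxy hU hK0 continuous_const (fun _ => hW0)
    (fun i => fs_cont z_cont i) (fun i => fs_cont (PN_cont N) i)
    (fun i F hF => ker_conj i h1 F hF)
    (fun i t ht => by simp only [fs_norm]; exact h2 t ht)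
    (fun i t ht => by simp only [fs_norm]; exact h3 t ht) hxa hab hby
  rw [card_ii, intervalIntegral.integral_const, smul_eq_mul] at key
  refine le_trans ?_ (key.trans (ENNReal.ofReal_le_ofReal (fin_bound hk hε hT hU.le hP hQ hK hab)))
  exact le_of_eq rfl

/-- **RP** -/
theorem t_RP (hKD : Pool.Agent.Z72.SH.S_KD) (hRW : Pool.Agent.Z72.SH.S_RW) (hWM : Pool.Agent.Z72.SH.S_WM)
    (hWI : Pool.Agent.N879.PU.S_WINU) (hEMN : S_EMN) (hSM : Pool.Agent.TH612.GS.S_SM) : S_RP := by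
  intro k ε hk hε
  have hk0 : (1 : ℝ) ≤ k := by exact_mod_cast hk
  obtain ⟨δ, hδ⟩ : ∃ δ : ℝ, δ = ε / (4 * k) := ⟨_, rfl⟩
  have hδ0 : 0 < δ := by rw [hδ]; positivity
  obtain ⟨C1, A1, hC1, hkd⟩ := hKD
  obtain ⟨Cm, hCm, hwm⟩ := hWM δ hδ0
  obtain ⟨Cw, hCw, hwin⟩ := hWI
  obtain ⟨CE, hCE, hemn⟩ := hEMN
  obtain ⟨Cs, T₀, hCs, hT₀, hsm⟩ := hSM
  obtain ⟨L2, hL2, hl2⟩ := log_pow_bound 2 hδ0
  obtain ⟨L1, hL1, hl1⟩ := log_pow_bound 1 hδ0
  obtain ⟨LA, hLA, hlA⟩ := log_pow_bound A1 (half_pos hε)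
  obtain ⟨LE, hLE, hlE⟩ := log_pow_bound 1 (half_pos hε)
  -- constants
  obtain ⟨Q1, hQ1⟩ : ∃ Q1 : ℝ, Q1 = Cs * T₀ * (L1 * T₀ ^ δ) + Cw * 16 * (L2 * 16 ^ δ) := ⟨_, rfl⟩
  obtain ⟨Q2, hQ2⟩ : ∃ Q2 : ℝ, Q2 = 2 * Cm + Cw * L2 := ⟨_, rfl⟩
  obtain ⟨P1, hP1⟩ : ∃ P1 : ℝ, P1 = CE ^ 2 * 16 * (LE * 2 ^ (ε / 2)) := ⟨_, rfl⟩
  obtain ⟨P2, hP2⟩ : ∃ P2 : ℝ, P2 = C1 * LA * 3 := ⟨_, rfl⟩
  have hT₀0 : 0 < T₀ := by linarith
  have hQ1p : 0 < Q1 := by rw [hQ1]; positivity
  have hQ2p : 0 < Q2 := by rw [hQ2]; positivity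
  have hP1p : 0 < P1 := by rw [hP1]; positivity
  have hP2p : 0 < P2 := by rw [hP2]; positivity
  refine ⟨4 ^ (2 * k) * P1 * Q1 ^ (2 * k - 1) + 4 ^ (2 * k) * P2 * Q2 ^ (2 * k - 1), by positivity,
    fun T U hU hUT hTU => ?_⟩
  have hU0 : 0 < U := by linarith
  have hT0 : 0 < T := by linarith
  have hT1 : 1 ≤ T := by linarith
  have hU1 : 1 ≤ U := by linarith
  have hTδ : 0 < T ^ δ := by positivity
  have hmono : ∀ c ≤ 4 ^ (2 * k) * P1 * Q1 ^ (2 * k - 1) + 4 ^ (2 * k) * P2 * Q2 ^ (2 * k - 1), ∀ a b : ℝ, a ≤ b →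
      ENNReal.ofReal (c * T ^ (1 + ε) * U ^ (2 * k - 1) * (b - a)) ≤
      ENNReal.ofReal ((4 ^ (2 * k) * P1 * Q1 ^ (2 * k - 1) + 4 ^ (2 * k) * P2 * Q2 ^ (2 * k - 1)) *
        T ^ (1 + ε) * U ^ (2 * k - 1) * (b - a)) := by
    intro c hc a b hab
    refine ENNReal.ofReal_le_ofReal ?_
    have : 0 ≤ b - a := by linarith
    gcongr
  constructor
  · intro N hN1 hN2 a b ha hab hb
    have hN0 : 1 ≤ N := by
      have : (0 : ℝ) < N := by linarith
      exact_mod_cast this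
    refine (rp_core hRW (N := N) (x := 0) (y := U) (K := (CE * (N : ℝ) ^ (1 / 2 : ℝ)) ^ 2 * Real.log (1 + U))
      hk hε hT1 hU0 hP1p.le hQ1p.le ?_ ?_ hU0.le ?_ ?_ ?_ ha hab hb).trans (hmono _ ?_ a b hab)
    · have := Real.log_nonneg (by linarith : (1 : ℝ) ≤ 1 + U)
      positivity
    · have e1 : (CE * (N : ℝ) ^ (1 / 2 : ℝ)) ^ 2 = CE ^ 2 * N := by
        rw [mul_pow]
        congr 1
        rw [← Real.rpow_natCast, ← Real.rpow_mul (Nat.cast_nonneg N)]
        norm_num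
      rw [e1]
      have h1 := hlE (2 * U) (by linarith)
      rw [pow_one] at h1
      have h2 : Real.log (1 + U) ≤ 1 + Real.log (2 * U) := by
        have : Real.log (1 + U) ≤ Real.log (2 * U) := Real.log_le_log (by linarith) (by linarith)
        linarith
      have h3 : (2 * U) ^ (ε / 2) ≤ 2 ^ (ε / 2) * T ^ (ε / 2) := by
        rw [← Real.mul_rpow (by norm_num) hT0.le]
        gcongr
      have h4 : 0 ≤ Real.log (1 + U) := Real.log_nonneg (by linarith)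
      have h5 : T ^ (1 + ε / 2) = T * T ^ (ε / 2) := by rw [Real.rpow_add hT0, Real.rpow_one]
      rw [h5, hP1]
      calc CE ^ 2 * N * Real.log (1 + U) ≤ CE ^ 2 * (16 * T) * (LE * (2 ^ (ε / 2) * T ^ (ε / 2))) := by
            have h6 : (N : ℝ) ≤ 16 * T := by linarith
            have h7 : Real.log (1 + U) ≤ LE * (2 ^ (ε / 2) * T ^ (ε / 2)) :=
              h2.trans (h1.trans (by gcongr))
            gcongr
        _ = _ := by ring
    · intro F hF
      obtain ⟨hm, M, hM⟩ := hF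
      have hb' : ∀ u, 0 ≤ u → u ≤ 2 * U → ‖z u - PN N u‖ ≤ CE * (N : ℝ) ^ (1 / 2 : ℝ) / (1 + u) :=
        fun u hu1 hu2 => hemn N u hN0 hu1 (by linarith)
      exact op1 (h := fun u => z u - PN N u) (z_cont.sub (PN_cont N)) hU0.le hb' hm hM
    · intro t ht
      rw [← hδ]
      rw [intervalIntegral.integral_comp_add_left (fun u => ‖z u‖ ^ 2) t, add_zero]
      have hzc : Continuous fun u : ℝ => ‖z u‖ ^ 2 := z_cont.norm.pow 2
      have hpos : ∀ u, 0 ≤ ‖z u‖ ^ 2 := fun u => by positivity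
      obtain ⟨M, hM⟩ : ∃ M, M = max U T₀ := ⟨_, rfl⟩
      have hM1 : T₀ ≤ M := by rw [hM]; exact le_max_right _ _
      have hM2 : U ≤ M := by rw [hM]; exact le_max_left _ _
      have hM3 : M ≤ T₀ * U := by
        rw [hM]
        refine max_le ?_ ?_
        · nlinarith
        · nlinarith
      have hM0 : 0 < M := by linarith
      have h1 : ∫ u in t..(t + U), ‖z u‖ ^ 2 ≤ ∫ u in (0:ℝ)..(2 * M), ‖z u‖ ^ 2 := by
        refine intervalIntegral.integral_mono_interval ht.1 (by linarith) (by linarith [ht.2]) ?_ ?_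
        · exact Eventually.of_forall fun u => hpos u
        · exact hzc.intervalIntegrable _ _
      have h2 := hsm M hM1
      have h3 : Real.log M ≤ L1 * (T₀ ^ δ * T ^ δ) := by
        have h4 := hl1 (T₀ * U) (by nlinarith)
        rw [pow_one] at h4
        have h5 : Real.log M ≤ Real.log (T₀ * U) := Real.log_le_log hM0 hM3
        have h6 : (T₀ * U) ^ δ ≤ T₀ ^ δ * T ^ δ := by
          rw [← Real.mul_rpow hT₀0.le hT0.le]
          gcongr
        have h7 : L1 * (T₀ * U) ^ δ ≤ L1 * (T₀ ^ δ * T ^ δ) := by gcongr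
        linarith
      have h8 : 0 ≤ Real.log M := Real.log_nonneg (by linarith)
      calc ∫ u in t..(t + U), ‖z u‖ ^ 2 ≤ Cs * M * Real.log M := h1.trans h2
        _ ≤ Cs * (T₀ * U) * (L1 * (T₀ ^ δ * T ^ δ)) := by gcongr
        _ = Cs * T₀ * (L1 * T₀ ^ δ) * T ^ δ * U := by ring
        _ ≤ Q1 * T ^ δ * U := by
            have : Cs * T₀ * (L1 * T₀ ^ δ) ≤ Q1 := by
              rw [hQ1]
              have : 0 ≤ Cw * 16 * (L2 * 16 ^ δ) := by positivity
              linarith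
            gcongr
    · intro t ht
      rw [← hδ]
      have hc : Continuous fun c : ℝ => ‖PN N (t + c)‖ ^ 2 := ((PN_cont N).comp (by fun_prop)).norm.pow 2
      have h1 : ∫ c in (0 : ℝ)..U, ‖PN N (t + c)‖ ^ 2 ≤ ∫ c in (0 : ℝ)..(16 * U), ‖PN N (t + c)‖ ^ 2 := by
        refine intervalIntegral.integral_mono_interval le_rfl hU0.le (by linarith) ?_ ?_
        · exact Eventually.of_forall fun u => by positivity
        · exact hc.intervalIntegrable _ _
      have h2 := hwin (16 * U) t N (by linarith) hN0 hN2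
      have h3 := hl2 (16 * U) (by linarith)
      have h4 : (16 * U) ^ δ ≤ 16 ^ δ * T ^ δ := by
        rw [← Real.mul_rpow (by norm_num) hT0.le]
        gcongr
      have h5 : (1 + Real.log N) ^ 2 ≤ (1 + Real.log (16 * U)) ^ 2 := by
        have h6 : Real.log N ≤ Real.log (16 * U) := Real.log_le_log (by exact_mod_cast (by omega : 0 < N)) hN2
        have h7 : 0 ≤ Real.log N := Real.log_nonneg (by exact_mod_cast hN0)
        gcongr
      calc ∫ c in (0 : ℝ)..U, ‖PN N (t + c)‖ ^ 2 ≤ Cw * (16 * U) * (1 + Real.log N) ^ 2 := h1.trans h2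
        _ ≤ Cw * (16 * U) * (L2 * (16 ^ δ * T ^ δ)) := by
            have : (1 + Real.log N) ^ 2 ≤ L2 * (16 ^ δ * T ^ δ) := h5.trans (h3.trans (by gcongr))
            gcongr
        _ = Cw * 16 * (L2 * 16 ^ δ) * T ^ δ * U := by ring
        _ ≤ Q1 * T ^ δ * U := by
            have : Cw * 16 * (L2 * 16 ^ δ) ≤ Q1 := by
              rw [hQ1]
              have : 0 ≤ Cs * T₀ * (L1 * T₀ ^ δ) := by positivity
              linarith
            gcongr
    · have : 0 ≤ 4 ^ (2 * k) * P2 * Q2 ^ (2 * k - 1) := by positivity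
      linarith
  · intro N hN1 hN2 a b ha hab hb
    have hNr : (0 : ℝ) < N := by linarith
    have hN0 : 1 ≤ N := by exact_mod_cast hNr
    refine (rp_core hRW (N := N) (x := U) (y := T) (K := C1 * Real.log T ^ A1 * (T * U / N + T))
      hk hε hT1 hU0 hP2p.le hQ2p.le ?_ ?_ hUT ?_ ?_ ?_ ha hab hb).trans (hmono _ ?_ a b hab)
    · have := Real.log_nonneg hT1
      positivity
    · have h1 := hlA T hT1
      have h0 : 0 ≤ Real.log T := Real.log_nonneg hT1
      have h2 : Real.log T ^ A1 ≤ (1 + Real.log T) ^ A1 := pow_le_pow_left₀ h0 (by linarith) A1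
      have h3 : T * U / N ≤ 2 * T := by
        rw [div_le_iff₀ hNr]
        nlinarith
      have h5 : T ^ (1 + ε / 2) = T * T ^ (ε / 2) := by rw [Real.rpow_add hT0, Real.rpow_one]
      rw [h5, hP2]
      calc C1 * Real.log T ^ A1 * (T * U / N + T) ≤ C1 * (LA * T ^ (ε / 2)) * (2 * T + T) := by
            have h6 : Real.log T ^ A1 ≤ LA * T ^ (ε / 2) := h2.trans h1
            gcongr
        _ = _ := by ring
    · intro F hF
      exact hkd T U N F hU hUT hN0 hN2 hF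
    · intro t ht
      rw [← hδ]
      have h1 := (hwm T U hU hUT).1 t ht
      refine h1.trans ?_
      calc Cm * T ^ δ * (U + T ^ (1 / 3 : ℝ)) ≤ Cm * T ^ δ * (U + U) := by gcongr
        _ = 2 * Cm * T ^ δ * U := by ring
        _ ≤ Q2 * T ^ δ * U := by
            have : 2 * Cm ≤ Q2 := by
              rw [hQ2]
              have : 0 ≤ Cw * L2 := by positivity
              linarith
            gcongr
    · intro t ht
      rw [← hδ]
      have h2 := hwin U t N hU1 hN0 hN2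
      have h3 := hl2 T hT1
      have h5 : (1 + Real.log N) ^ 2 ≤ (1 + Real.log T) ^ 2 := by
        have h6 : Real.log N ≤ Real.log T := Real.log_le_log hNr (by linarith)
        have h7 : 0 ≤ Real.log N := Real.log_nonneg (by exact_mod_cast hN0)
        gcongr
      calc ∫ c in (0 : ℝ)..U, ‖PN N (t + c)‖ ^ 2 ≤ Cw * U * (1 + Real.log N) ^ 2 := h2
        _ ≤ Cw * U * (L2 * T ^ δ) := by
            have : (1 + Real.log N) ^ 2 ≤ L2 * T ^ δ := h5.trans h3
            gcongr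
        _ = Cw * L2 * T ^ δ * U := by ring
        _ ≤ Q2 * T ^ δ * U := by
            have : Cw * L2 ≤ Q2 := by
              rw [hQ2]
              linarith
            gcongr
    · have : 0 ≤ 4 ^ (2 * k) * P1 * Q1 ^ (2 * k - 1) := by positivity
      linarith

end

end Pool.Agent.Z72.SQ
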