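import Mathlib

set_option autoImplicit false

/-! Riesz kernel `(1-y)_+^A` and its Mellin inversion (helper1, task SQ_SA). -/

namespace Pool.Agent.Z72.SQ.SA

open Complex Filter Topology MeasureTheory Set

noncomputable section

/-- the Riesz weight -/
def wA (A : ℕ) (y : ℝ) : ℂ := if 0 < y then (((max 0 (1 - y)) ^ A : ℝ) : ℂ) else 0

lemma wA_norm (A : ℕ) (y : ℝ) : ‖wA A y‖ ≤ 1 := by
  unfold wA
  split_ifs with h
  · rw [Complex.norm_real, Real.norm_eq_abs, abs_of_nonneg (by positivity)]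
    refine pow_le_one₀ (le_max_left _ _) (max_le zero_le_one (by linarith))
  · simp

lemma wA_sub (A : ℕ) {y : ℝ} (h0 : 0 < y) (h1 : y ≤ 1) : ‖wA A y - 1‖ ≤ A * y := by
  unfold wA
  rw [if_pos h0, max_eq_right (by linarith), ← Complex.ofReal_one, ← Complex.ofReal_sub,
    Complex.norm_real, Real.norm_eq_abs]
  have h2 : (1 - y) ^ A ≤ 1 := pow_le_one₀ (by linarith) (by linarith)
  rw [abs_of_nonpos (by linarith)]
  have h3 := one_add_mul_le_pow (a := -y) (by linarith) A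
  rw [← sub_eq_add_neg] at h3
  linarith

lemma wA_zero {A : ℕ} (hA : A ≠ 0) {y : ℝ} (h1 : 1 ≤ y) : wA A y = 0 := by
  unfold wA
  rw [if_pos (by linarith), max_eq_left (by linarith), zero_pow hA]
  simp

lemma wA_cont (A : ℕ) {y : ℝ} (h : 0 < y) : ContinuousAt (wA A) y := by
  have h1 : Continuous (fun y : ℝ => (((max 0 (1 - y)) ^ A : ℝ) : ℂ)) := by fun_prop
  refine h1.continuousAt.congr ?_
  filter_upwards [lt_mem_nhds h] with x hx
  unfold wA
  rw [if_pos hx]

/-- the transform of the weight -/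
def KA (A : ℕ) (s : ℂ) : ℂ := (A.factorial : ℂ) / ∏ j ∈ Finset.range (A + 1), (s + j)

/-- `s` times the transform of the weight -/
def PA (A : ℕ) (s : ℂ) : ℂ := (A.factorial : ℂ) / ∏ j ∈ Finset.range A, (s + (j + 1 : ℕ))

lemma KA_eq (A : ℕ) (s : ℂ) : KA A s = PA A s / s := by
  unfold KA PA
  rw [Finset.prod_range_succ', Nat.cast_zero, add_zero, div_div]

lemma mellin_pt (A : ℕ) (s : ℂ) :
    EqOn (fun t : ℝ => (t : ℂ) ^ (s - 1) • wA A t)
      (fun t : ℝ => (t : ℂ) ^ (s - 1) * (1 - (t : ℂ)) ^ ((A + 1 : ℂ) - 1)) (Ioo 0 1) := by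
  intro t ht
  have h0 : 0 < t := ht.1
  have h1 : t < 1 := ht.2
  simp only [smul_eq_mul]
  congr 1
  unfold wA
  rw [if_pos h0, max_eq_right (by linarith), add_sub_cancel_right, Complex.cpow_natCast]
  push_cast
  rfl

lemma mellin_conv {A : ℕ} (hA : A ≠ 0) {s : ℂ} (hs : 0 < s.re) : MellinConvergent (wA A) s := by
  unfold MellinConvergent
  have h1 := Complex.betaIntegral_convergent (u := s) (v := (A + 1 : ℂ)) hs (by
    simp; positivity)
  rw [intervalIntegrable_iff_integrableOn_Ioo_of_le zero_le_one] at h1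
  have h2 : IntegrableOn (fun t : ℝ => (t : ℂ) ^ (s - 1) • wA A t) (Ioo 0 1) :=
    h1.congr_fun (mellin_pt A s).symm measurableSet_Ioo
  have h3 : IntegrableOn (fun t : ℝ => (t : ℂ) ^ (s - 1) • wA A t) (Ici 1) := by
    have h0 : IntegrableOn (fun _ : ℝ => (0:ℂ)) (Ici 1) := integrableOn_zero
    refine h0.congr_fun ?_ measurableSet_Ici
    intro t ht
    simp only [wA_zero hA ht, smul_zero]
  have h4 : Ioi (0:ℝ) = Ioo 0 1 ∪ Ici 1 := (Ioo_union_Ici_eq_Ioi zero_lt_one).symm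
  rw [h4]
  exact h2.union h3

lemma mellin_wA {A : ℕ} (hA : A ≠ 0) {s : ℂ} (hs : 0 < s.re) : mellin (wA A) s = KA A s := by
  unfold mellin KA
  rw [← Complex.betaIntegral_eval_nat_add_one_right hs A]
  unfold Complex.betaIntegral
  rw [intervalIntegral.integral_of_le zero_le_one, integral_Ioc_eq_integral_Ioo,
    ← setIntegral_congr_fun measurableSet_Ioo (mellin_pt A s)]
  refine setIntegral_eq_of_subset_of_forall_sdiff_eq_zero measurableSet_Ioi
    (fun t ht => ht.1) fun t ht => ?_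
  have h1 : 1 ≤ t := by
    by_contra h
    exact ht.2 ⟨ht.1, not_le.1 h⟩
  rw [wA_zero hA h1, smul_zero]

/-! ### bounds for the kernel -/

lemma abs_im_le_add (s : ℂ) (j : ℕ) : |s.im| ≤ ‖s + j‖ := by
  have := Complex.abs_im_le_norm (s + j)
  simpa using this

lemma re_le_add {s : ℂ} (hs : -(1 / 8) ≤ s.re) (j : ℕ) : 7 / 8 ≤ ‖s + (j + 1 : ℕ)‖ := by
  have h := Complex.re_le_norm (s + (j + 1 : ℕ))
  have e : (s + (j + 1 : ℕ)).re = s.re + (j + 1) := by simp
  rw [e] at h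
  have : (0:ℝ) ≤ j := Nat.cast_nonneg j
  linarith

lemma PA_ne {s : ℂ} (hs : -1 < s.re) (j : ℕ) : s + (j + 1 : ℕ) ≠ 0 := by
  intro h
  have e : (s + (j + 1 : ℕ)).re = s.re + (j + 1) := by simp
  rw [h, Complex.zero_re] at e
  have : (0:ℝ) ≤ j := Nat.cast_nonneg j
  linarith

lemma PA_diff (A : ℕ) : DifferentiableOn ℂ (PA A) {s : ℂ | -1 < s.re} := by
  intro s hs
  unfold PA
  refine DifferentiableWithinAt.div (differentiableWithinAt_const _) ?_ ?_
  · exact DifferentiableWithinAt.fun_finsetProd fun j _ => by fun_prop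
  · exact Finset.prod_ne_zero_iff.2 fun j _ => PA_ne hs j

/-- bound near the real axis -/
lemma PA_le (A : ℕ) {s : ℂ} (hs : -(1 / 8) ≤ s.re) : ‖PA A s‖ ≤ A.factorial * 2 ^ A := by
  unfold PA
  rw [norm_div, norm_prod, Complex.norm_natCast, div_eq_mul_inv]
  refine mul_le_mul_of_nonneg_left ?_ (by positivity)
  have h1 : (1 / 2 : ℝ) ^ A ≤ ∏ j ∈ Finset.range A, ‖s + (j + 1 : ℕ)‖ := by
    have h2 := Finset.prod_le_prod (s := Finset.range A) (f := fun _ => (1 / 2 : ℝ))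
      (g := fun j : ℕ => ‖s + (j + 1 : ℕ)‖) (fun _ _ => by norm_num)
      (fun j _ => by have := re_le_add hs j; linarith)
    rwa [Finset.prod_const, Finset.card_range] at h2
  have h3 : (0:ℝ) < (1 / 2 : ℝ) ^ A := by positivity
  calc _ ≤ ((1 / 2 : ℝ) ^ A)⁻¹ := inv_anti₀ h3 h1
    _ = _ := by rw [one_div, inv_pow, inv_inv]

/-- bound far from the real axis -/
lemma KA_le (A : ℕ) {s : ℂ} {Y : ℝ} (hY : 0 < Y) (hs : Y ≤ |s.im|) :
    ‖KA A s‖ ≤ A.factorial / Y ^ (A + 1) := by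
  unfold KA
  rw [norm_div, norm_prod, Complex.norm_natCast]
  have h1 : Y ^ (A + 1) ≤ ∏ j ∈ Finset.range (A + 1), ‖s + (j : ℕ)‖ := by
    have h2 := Finset.prod_le_prod (s := Finset.range (A + 1)) (f := fun _ => Y)
      (g := fun j : ℕ => ‖s + (j : ℕ)‖) (fun _ _ => hY.le)
      (fun j _ => hs.trans (abs_im_le_add s j))
    rwa [Finset.prod_const, Finset.card_range] at h2
  have h3 : (0:ℝ) < Y ^ (A + 1) := by positivity
  gcongr

/-- the point on the line -/
def cs (t : ℝ) : ℂ := ((1 / 8 : ℝ) : ℂ) + t * I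

lemma cs_re (t : ℝ) : (cs t).re = 1 / 8 := by
  unfold cs
  simp only [Complex.add_re, Complex.ofReal_re, Complex.mul_re, Complex.I_re, mul_zero,
    Complex.ofReal_im, Complex.I_im, mul_one, sub_self, add_zero]

lemma cs_im (t : ℝ) : (cs t).im = t := by
  unfold cs
  simp only [Complex.add_im, Complex.ofReal_im, Complex.mul_im, Complex.ofReal_re, Complex.I_im,
    mul_one, Complex.I_re, mul_zero, add_zero, zero_add]

lemma cs_ne (t : ℝ) : cs t ≠ 0 := by
  intro h
  have := cs_re t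
  rw [h, Complex.zero_re] at this
  norm_num at this

lemma cs_sq (t : ℝ) : ‖cs t‖ ^ 2 = 1 / 64 + t ^ 2 := by
  rw [← Complex.normSq_eq_norm_sq, Complex.normSq_apply, cs_re, cs_im]
  ring

/-- the majorant -/
def gm (t : ℝ) : ℝ := (1 / 64 + t ^ 2)⁻¹

lemma gm_int : Integrable gm := by
  have h : Integrable (fun t : ℝ => 64 * (1 + t ^ 2)⁻¹) := integrable_inv_one_add_sq.const_mul 64
  refine h.mono' ?_ ?_
  · unfold gm
    refine Measurable.aestronglyMeasurable ?_
    fun_prop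
  · refine Eventually.of_forall fun t => ?_
    unfold gm
    rw [Real.norm_eq_abs, abs_of_nonneg (by positivity)]
    rw [← div_eq_mul_inv, inv_eq_one_div, div_le_div_iff₀ (by positivity) (by positivity)]
    nlinarith [sq_nonneg t]

/-- the constant -/
def G0 : ℝ := ∫ t, gm t

lemma G0_nonneg : 0 ≤ G0 := integral_nonneg fun t => by unfold gm; positivity

lemma norm_cs_add {t : ℝ} (j : ℕ) : ‖cs t‖ ≤ ‖cs t + j‖ := by
  have h1 : ‖cs t‖ ^ 2 ≤ ‖cs t + j‖ ^ 2 := by
    rw [cs_sq, ← Complex.normSq_eq_norm_sq, Complex.normSq_apply]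
    have e1 : (cs t + j).re = 1 / 8 + j := by rw [Complex.add_re, cs_re, Complex.natCast_re]
    have e2 : (cs t + j).im = t := by rw [Complex.add_im, cs_im, Complex.natCast_im, add_zero]
    rw [e1, e2]
    have : (0:ℝ) ≤ j := Nat.cast_nonneg j
    nlinarith
  exact (pow_le_pow_iff_left₀ (norm_nonneg _) (norm_nonneg _) (by norm_num)).1 h1

/-- bound on the line -/
lemma KA_line {A : ℕ} {t : ℝ} {Y : ℝ} (hY : 0 < Y) (hY1 : Y ≤ 1 / 8 ∨ Y ≤ |t|) :
    ‖KA (A + 1) (cs t)‖ ≤ (A + 1).factorial / Y ^ A * gm t := by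
  unfold KA
  rw [norm_div, norm_prod, Complex.norm_natCast]
  have hYc : Y ≤ ‖cs t‖ := by
    rcases hY1 with h | h
    · refine h.trans ?_
      have := Complex.re_le_norm (cs t)
      rwa [cs_re] at this
    · refine h.trans ?_
      have := Complex.abs_im_le_norm (cs t)
      rwa [cs_im] at this
  have h1 : Y ^ A * ‖cs t‖ ^ 2 ≤ ∏ j ∈ Finset.range (A + 1 + 1), ‖cs t + (j : ℕ)‖ := by
    have h2 := Finset.prod_le_prod (s := Finset.range (A + 1 + 1)) (f := fun _ => ‖cs t‖)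
      (g := fun j : ℕ => ‖cs t + (j : ℕ)‖) (fun _ _ => norm_nonneg _)
      (fun j _ => norm_cs_add j)
    rw [Finset.prod_const, Finset.card_range] at h2
    refine le_trans ?_ h2
    rw [show A + 1 + 1 = A + 2 from rfl, pow_add]
    gcongr
  have h4 : (0:ℝ) < ‖cs t‖ := norm_pos_iff.2 (cs_ne t)
  have h3 : (0:ℝ) < Y ^ A * ‖cs t‖ ^ 2 := by positivity
  calc _ ≤ ((A + 1).factorial : ℝ) / (Y ^ A * ‖cs t‖ ^ 2) := by gcongr
    _ = _ := by
      unfold gm
      rw [cs_sq, ← div_div, div_eq_mul_inv _ (1 / 64 + t ^ 2)]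

lemma cs_cont : Continuous cs := by unfold cs; fun_prop

lemma KA_cont (A : ℕ) : Continuous (fun t : ℝ => KA A (cs t)) := by
  unfold KA
  refine Continuous.div continuous_const ?_ ?_
  · refine continuous_finsetProd _ fun j _ => ?_
    exact cs_cont.add continuous_const
  · intro t
    refine Finset.prod_ne_zero_iff.2 fun j _ => ?_
    intro h
    have := norm_cs_add (t := t) j
    rw [h, norm_zero] at this
    have h4 : (0:ℝ) < ‖cs t‖ := norm_pos_iff.2 (cs_ne t)
    linarith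

lemma KA_int (A : ℕ) : Integrable (fun t : ℝ => KA (A + 1) (cs t)) := by
  refine (gm_int.const_mul (((A + 1).factorial : ℝ) / (1 / 8) ^ A)).mono'
    (KA_cont _).aestronglyMeasurable ?_
  exact Eventually.of_forall fun t => KA_line (by norm_num) (Or.inl le_rfl)

/-- Mellin inversion -/
lemma inv_wA (A : ℕ) {x : ℝ} (hx : 0 < x) :
    ∫ t : ℝ, (x : ℂ) ^ (-(cs t)) * KA (A + 1) (cs t) = 2 * Real.pi * wA (A + 1) x := by
  have h1 : MellinConvergent (wA (A + 1)) ((1 / 8 : ℝ) : ℂ) :=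
    mellin_conv (by omega) (by rw [Complex.ofReal_re]; norm_num)
  have h2 : ∀ t : ℝ, mellin (wA (A + 1)) (((1 / 8 : ℝ) : ℂ) + t * I) = KA (A + 1) (cs t) := by
    intro t
    exact mellin_wA (by omega) (s := cs t) (by rw [cs_re]; norm_num)
  have h3 : VerticalIntegrable (mellin (wA (A + 1))) (1 / 8 : ℝ) := by
    unfold VerticalIntegrable
    simp only [h2]
    exact KA_int A
  have h4 := mellinInv_mellin_eq (1 / 8 : ℝ) (wA (A + 1)) hx h1 h3 (wA_cont _ hx)
  unfold mellinInv at h4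
  simp only [h2, smul_eq_mul] at h4
  have e2 : ∫ (y : ℝ), (x : ℂ) ^ (-(((1 / 8 : ℝ) : ℂ) + y * I)) * KA (A + 1) (cs y) =
    ∫ t : ℝ, (x : ℂ) ^ (-(cs t)) * KA (A + 1) (cs t) := rfl
  rw [← h4, e2]
  have hpi : (Real.pi : ℂ) ≠ 0 := by exact_mod_cast Real.pi_ne_zero
  rw [Complex.real_smul]
  push_cast
  rw [← mul_assoc]
  have e : (2 * (Real.pi : ℂ)) * (1 / (2 * (Real.pi : ℂ))) = 1 := by field_simp
  rw [e, one_mul]

end

end Pool.Agent.Z72.SQ.SA
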