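import Pool.Agent.Z72.SQ.Stm
import Pool.Agent.TH321.GF.AQ
import Pool.Agent.TH612.GS.Z
import Pool.Agent.N879.PU.Mv

/-!
# Task SQ_EMN (helper25): zeta by a long partial sum
-/

set_option autoImplicit false

namespace Pool.Agent.Z72.SQ

open Complex Filter Topology MeasureTheory Set
open Pool.Agent.TH612.GS (z zN PN)

noncomputable section

namespace EmnA

theorem pn_cont (N : ℕ) : Continuous fun u : ℝ => PN N u := by
  unfold Pool.Agent.TH612.GS.PN Pool.Agent.TH612.GS.zN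
  refine continuous_finset_sum _ fun n hn => ?_
  have hn1 : 1 ≤ n := (Finset.mem_Icc.1 hn).1
  have hn0 : (n : ℂ) ≠ 0 := by exact_mod_cast (by omega : n ≠ 0)
  refine Continuous.const_cpow ?_ (Or.inl hn0)
  fun_prop

theorem pos_case {N : ℕ} {u : ℝ} (hN : 1 ≤ N) (hu : 0 < u) (huN : 4 * u ≤ N) :
    ‖z u - PN N u‖ ≤ 5 * (N : ℝ) ^ (1 / 2 : ℝ) / (1 + u) := by
  have hN1 : (1 : ℝ) ≤ N := by exact_mod_cast hN
  refine (Pool.Agent.TH321.GF.AQ_pw u N hN hu (by linarith)).trans ?_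
  rw [← Real.sqrt_eq_rpow]
  have hq : 0 < Real.sqrt N := Real.sqrt_pos.2 (by linarith)
  have hq2 : Real.sqrt N ^ 2 = N := Real.sq_sqrt (by linarith)
  have h1 : 3 / (2 * Real.sqrt N) ≤ 2 * Real.sqrt N / (1 + u) := by
    rw [div_le_div_iff₀ (by positivity) (by linarith)]
    nlinarith
  have h2 : 5 * Real.sqrt N / (1 + u) = 3 * Real.sqrt N / (1 + u) + 2 * Real.sqrt N / (1 + u) := by ring
  rw [h2]
  linarith

end EmnA

open EmnA

theorem t_EMN : S_EMN := by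
  refine ⟨5, by norm_num, fun N u hN hu huN => ?_⟩
  rcases hu.eq_or_lt with h | h
  · subst h
    have hN1 : (1 : ℝ) ≤ N := by exact_mod_cast hN
    -- the limit `u → 0`
    have hev : ∀ᶠ u : ℝ in 𝓝[>] (0 : ℝ), ‖z u - PN N u‖ ≤ 5 * (N : ℝ) ^ (1 / 2 : ℝ) / (1 + u) := by
      have h1 : Ioo (0 : ℝ) (1 / 4) ∈ 𝓝[>] (0 : ℝ) := Ioo_mem_nhdsGT (by norm_num)
      filter_upwards [h1] with u hu
      exact pos_case hN hu.1 (by linarith [hu.2])
    have hl : Tendsto (fun u : ℝ => ‖z u - PN N u‖) (𝓝[>] (0 : ℝ)) (𝓝 ‖z 0 - PN N 0‖) :=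
      ((Pool.Agent.TH612.GS.z_cont.sub (pn_cont N)).norm.tendsto 0).mono_left nhdsWithin_le_nhds
    have hr : Tendsto (fun u : ℝ => 5 * (N : ℝ) ^ (1 / 2 : ℝ) / (1 + u)) (𝓝[>] (0 : ℝ))
        (𝓝 (5 * (N : ℝ) ^ (1 / 2 : ℝ) / (1 + 0))) := by
      have : ContinuousAt (fun u : ℝ => 5 * (N : ℝ) ^ (1 / 2 : ℝ) / (1 + u)) 0 := by
        refine continuousAt_const.div (by fun_prop) (by norm_num)
      exact this.tendsto.mono_left nhdsWithin_le_nhds
    exact le_of_tendsto_of_tendsto hl hr hev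
  · exact pos_case hN h huN

end

end Pool.Agent.Z72.SQ
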