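import Mathlib

/-!
Mean squares of sums of products of functions of one variable: from one variable to several.
-/

set_option autoImplicit false
set_option linter.all false

namespace Pool.Agent.Z72.SQ

open MeasureTheory Set
open scoped ENNReal

noncomputable section

/-- the sum over tuples, first coordinate separated -/
theorem sum_cons {n N : ℕ} {M : Type} [AddCommMonoid M] (f : (Fin (n + 1) → ℕ) → M) :
    ∑ ν ∈ Fintype.piFinset (fun _ : Fin (n + 1) => Finset.Icc 1 N), f ν =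
      ∑ m ∈ Finset.Icc 1 N, ∑ ν ∈ Fintype.piFinset (fun _ : Fin n => Finset.Icc 1 N),
        f (Fin.cons m ν : Fin (n + 1) → ℕ) := by
  rw [← Finset.sum_product']
  refine Finset.sum_nbij' (fun ν => (ν 0, fun i => ν i.succ))
    (fun p => (Fin.cons p.1 p.2 : Fin (n + 1) → ℕ)) ?_ ?_ ?_ ?_ ?_
  · intro ν hν
    rw [Fintype.mem_piFinset] at hν
    rw [Finset.mem_product, Fintype.mem_piFinset]
    exact ⟨hν 0, fun i => hν i.succ⟩
  · intro p hp
    rw [Finset.mem_product, Fintype.mem_piFinset] at hp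
    rw [Fintype.mem_piFinset]
    intro i
    refine Fin.cases ?_ (fun i => ?_) i
    · exact hp.1
    · exact hp.2 i
  · intro ν _
    funext i
    refine Fin.cases ?_ (fun i => ?_) i <;> rfl
  · intro p _
    rfl
  · intro ν _
    congr 1
    funext i
    refine Fin.cases ?_ (fun i => ?_) i <;> rfl

theorem term_meas {n N : ℕ} {e : Fin n → ℕ → ℝ → ℂ} (he : ∀ i m, Measurable (e i m))
    (c : (Fin n → ℕ) → ℂ) : Measurable fun γ : Fin n → ℝ =>
      ∑ ν ∈ Fintype.piFinset (fun _ : Fin n => Finset.Icc 1 N), c ν * ∏ i, e i (ν i) (γ i) := by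
  refine Finset.measurable_sum _ fun ν _ => Measurable.const_mul ?_ _
  exact Finset.measurable_prod _ fun i _ => (he i (ν i)).comp (measurable_pi_apply i)

theorem mm_fin (μ : Measure ℝ) [SigmaFinite μ] (A : ℝ≥0∞) (N : ℕ) :
    ∀ (n : ℕ) (e : Fin n → ℕ → ℝ → ℂ), (∀ i m, Measurable (e i m)) →
    (∀ i (a : ℕ → ℂ), ∫⁻ u, ENNReal.ofReal (‖∑ m ∈ Finset.Icc 1 N, a m * e i m u‖ ^ 2) ∂μ ≤
      A * ∑ m ∈ Finset.Icc 1 N, ENNReal.ofReal (‖a m‖ ^ 2)) → ∀ c : (Fin n → ℕ) → ℂ,
    ∫⁻ γ, ENNReal.ofReal (‖∑ ν ∈ Fintype.piFinset (fun _ : Fin n => Finset.Icc 1 N),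
        c ν * ∏ i, e i (ν i) (γ i)‖ ^ 2) ∂(Measure.pi fun _ : Fin n => μ) ≤
      A ^ n * ∑ ν ∈ Fintype.piFinset (fun _ : Fin n => Finset.Icc 1 N),
        ENNReal.ofReal (‖c ν‖ ^ 2) := by
  intro n
  induction n with
  | zero =>
    intro e he hA c
    have h1 : Fintype.piFinset (fun _ : Fin 0 => Finset.Icc 1 N) = {Fin.elim0} := by
      ext ν
      rw [Fintype.mem_piFinset, Finset.mem_singleton]
      exact ⟨fun _ => funext fun i => i.elim0, fun _ i => i.elim0⟩
    rw [h1]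
    simp only [Finset.sum_singleton, Finset.univ_eq_empty, Finset.prod_empty, mul_one, pow_zero,
      one_mul]
    rw [lintegral_const, Measure.pi_of_empty]
    simp
  | succ n ih =>
    intro e he hA c
    have hm := term_meas (N := N) he c
    have hmf : Measurable fun γ : Fin (n + 1) → ℝ => ENNReal.ofReal
        (‖∑ ν ∈ Fintype.piFinset (fun _ : Fin (n + 1) => Finset.Icc 1 N),
          c ν * ∏ i, e i (ν i) (γ i)‖ ^ 2) := (hm.norm.pow_const 2).ennreal_ofReal
    have hmp := (measurePreserving_piFinSuccAbove (fun _ : Fin (n + 1) => μ) 0).symm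
    rw [← hmp.lintegral_comp hmf]
    have hmp2 := hmf.comp (MeasurableEquiv.piFinSuccAbove (fun _ : Fin (n + 1) => ℝ) 0).symm.measurable
    refine (le_of_eq (lintegral_prod_symm _ hmp2.aemeasurable)).trans ?_
    simp only [Function.comp_apply]
    have key : ∀ (x : ℝ) (y : Fin n → ℝ),
        ∑ ν ∈ Fintype.piFinset (fun _ : Fin (n + 1) => Finset.Icc 1 N),
          c ν * ∏ i, e i (ν i)
            ((MeasurableEquiv.piFinSuccAbove (fun _ : Fin (n + 1) => ℝ) 0).symm (x, y) i) =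
        ∑ m ∈ Finset.Icc 1 N, (∑ ν ∈ Fintype.piFinset (fun _ : Fin n => Finset.Icc 1 N),
          c (Fin.cons m ν : Fin (n + 1) → ℕ) * ∏ i : Fin n, e i.succ (ν i) (y i)) * e 0 m x := by
      intro x y
      rw [sum_cons]
      refine Finset.sum_congr rfl fun m _ => ?_
      rw [Finset.sum_mul]
      refine Finset.sum_congr rfl fun ν _ => ?_
      rw [Fin.prod_univ_succ]
      have e1 : (MeasurableEquiv.piFinSuccAbove (fun _ : Fin (n + 1) => ℝ) 0).symm (x, y) 0 = x :=
        rfl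
      have e2 : ∀ i : Fin n,
          (MeasurableEquiv.piFinSuccAbove (fun _ : Fin (n + 1) => ℝ) 0).symm (x, y) i.succ = y i :=
        fun i => rfl
      simp only [e1, e2, Fin.cons_zero, Fin.cons_succ]
      ring
    have hA0 := hA 0
    have ih' := fun m : ℕ => ih (fun i => e i.succ) (fun i m => he i.succ m)
      (fun i a => hA i.succ a) fun ν => c (Fin.cons m ν : Fin (n + 1) → ℕ)
    have hmeas : ∀ m : ℕ, Measurable fun y : Fin n → ℝ => ENNReal.ofReal
        (‖∑ ν ∈ Fintype.piFinset (fun _ : Fin n => Finset.Icc 1 N),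
          c (Fin.cons m ν : Fin (n + 1) → ℕ) * ∏ i : Fin n, e i.succ (ν i) (y i)‖ ^ 2) := fun m =>
      ((term_meas (fun i m => he i.succ m) _).norm.pow_const 2).ennreal_ofReal
    calc ∫⁻ y : Fin n → ℝ, ∫⁻ x : ℝ, ENNReal.ofReal
          (‖∑ ν ∈ Fintype.piFinset (fun _ : Fin (n + 1) => Finset.Icc 1 N),
          c ν * ∏ i, e i (ν i)
            ((MeasurableEquiv.piFinSuccAbove (fun _ : Fin (n + 1) => ℝ) 0).symm (x, y) i)‖ ^ 2) ∂μ
            ∂(Measure.pi fun _ : Fin n => μ)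
        ≤ ∫⁻ y : Fin n → ℝ, A * ∑ m ∈ Finset.Icc 1 N, ENNReal.ofReal
            (‖∑ ν ∈ Fintype.piFinset (fun _ : Fin n => Finset.Icc 1 N),
          c (Fin.cons m ν : Fin (n + 1) → ℕ) * ∏ i : Fin n, e i.succ (ν i) (y i)‖ ^ 2)
            ∂(Measure.pi fun _ : Fin n => μ) := by
          refine lintegral_mono fun y => ?_
          simp only [key]
          exact hA0 _
      _ = A * ∑ m ∈ Finset.Icc 1 N, ∫⁻ y : Fin n → ℝ, ENNReal.ofReal
            (‖∑ ν ∈ Fintype.piFinset (fun _ : Fin n => Finset.Icc 1 N),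
          c (Fin.cons m ν : Fin (n + 1) → ℕ) * ∏ i : Fin n, e i.succ (ν i) (y i)‖ ^ 2)
            ∂(Measure.pi fun _ : Fin n => μ) := by
          rw [lintegral_const_mul _ (Finset.measurable_sum _ fun m _ => hmeas m),
            lintegral_finsetSum _ fun m _ => hmeas m]
      _ ≤ A * ∑ m ∈ Finset.Icc 1 N, A ^ n *
            ∑ ν ∈ Fintype.piFinset (fun _ : Fin n => Finset.Icc 1 N),
            ENNReal.ofReal (‖c (Fin.cons m ν : Fin (n + 1) → ℕ)‖ ^ 2) := by
          gcongr with m _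
          exact ih' m
      _ = _ := by
          rw [sum_cons, ← Finset.mul_sum, ← mul_assoc, pow_succ']

/-- mean squares over a product space -/
theorem mm_gen {ι : Type} [Fintype ι] [DecidableEq ι] (μ : Measure ℝ) [SigmaFinite μ]
    (A : ℝ≥0∞) (N : ℕ) (e : ι → ℕ → ℝ → ℂ) (he : ∀ i m, Measurable (e i m))
    (hA : ∀ i (a : ℕ → ℂ), ∫⁻ u, ENNReal.ofReal (‖∑ m ∈ Finset.Icc 1 N, a m * e i m u‖ ^ 2) ∂μ ≤
      A * ∑ m ∈ Finset.Icc 1 N, ENNReal.ofReal (‖a m‖ ^ 2)) (c : (ι → ℕ) → ℂ) :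
    ∫⁻ γ, ENNReal.ofReal (‖∑ ν ∈ Fintype.piFinset (fun _ : ι => Finset.Icc 1 N),
        c ν * ∏ i, e i (ν i) (γ i)‖ ^ 2) ∂(Measure.pi fun _ : ι => μ) ≤
      A ^ (Fintype.card ι) * ∑ ν ∈ Fintype.piFinset (fun _ : ι => Finset.Icc 1 N),
        ENNReal.ofReal (‖c ν‖ ^ 2) := by
  obtain ⟨f⟩ : Nonempty (Fin (Fintype.card ι) ≃ ι) := ⟨(Fintype.equivFin ι).symm⟩
  have hmf : Measurable fun γ : ι → ℝ => ENNReal.ofReal
      (‖∑ ν ∈ Fintype.piFinset (fun _ : ι => Finset.Icc 1 N),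
        c ν * ∏ i, e i (ν i) (γ i)‖ ^ 2) := by
    refine Measurable.ennreal_ofReal (Measurable.pow_const (Measurable.norm ?_) 2)
    refine Finset.measurable_sum _ fun ν _ => Measurable.const_mul ?_ _
    exact Finset.measurable_prod _ fun i _ => (he i (ν i)).comp (measurable_pi_apply i)
  have hmp := measurePreserving_piCongrLeft (fun _ : ι => μ) f
  rw [← hmp.lintegral_comp hmf]
  have hsum : ∀ {M : Type} [AddCommMonoid M] (g : (ι → ℕ) → M),
      ∑ ν ∈ Fintype.piFinset (fun _ : ι => Finset.Icc 1 N), g ν =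
        ∑ ν ∈ Fintype.piFinset (fun _ : Fin (Fintype.card ι) => Finset.Icc 1 N),
          g (fun i => ν (f.symm i)) := by
    intro M _ g
    refine Finset.sum_nbij' (fun ν i => ν (f i)) (fun ν i => ν (f.symm i)) ?_ ?_ ?_ ?_ ?_
    · intro ν hν
      rw [Fintype.mem_piFinset] at hν ⊢
      exact fun i => hν (f i)
    · intro ν hν
      rw [Fintype.mem_piFinset] at hν ⊢
      exact fun i => hν (f.symm i)
    · intro ν _
      funext i
      simp
    · intro ν _
      funext i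
      simp
    · intro ν _
      congr 1
      funext i
      simp
  have h1 := mm_fin μ A N (Fintype.card ι) (fun i => e (f i)) (fun i m => he (f i) m)
    (fun i a => hA (f i) a) fun ν => c fun i => ν (f.symm i)
  rw [hsum]
  refine le_trans (le_of_eq ?_) h1
  refine lintegral_congr fun γ => ?_
  congr 3
  rw [hsum]
  refine Finset.sum_congr rfl fun ν _ => ?_
  congr 1
  rw [← Equiv.prod_comp f]
  refine Finset.prod_congr rfl fun i _ => ?_
  have e1 : (MeasurableEquiv.piCongrLeft (fun _ : ι => ℝ) f) γ (f i) = γ i :=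
    Equiv.piCongrLeft_apply_apply (fun _ : ι => ℝ) f γ i
  rw [e1]
  show e (f i) (ν (f.symm (f i))) (γ i) = _
  rw [Equiv.symm_apply_apply]

end

end Pool.Agent.Z72.SQ
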