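import Pool.Agent.Z72.SQ.Stm
import Pool.Agent.Z72.SQ.Mm0
import Pool.Agent.TH928.GS.MV

/-!
MM: mean squares of sums of characters over the cube.
-/

set_option autoImplicit false
set_option linter.all false

namespace Pool.Agent.Z72.SQ

open Complex Filter Topology MeasureTheory Set
open Pool.Agent.TH612.GS (z zN PN mP SN zr Sep DD tup ch wt dr IG)
open scoped ENNReal

noncomputable section

theorem cpow_cont {n : ℕ} (hn : n ≠ 0) : Continuous fun u : ℝ => (n : ℂ) ^ (-(I * u)) := by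
  refine Continuous.const_cpow (by fun_prop) (Or.inl (by exact_mod_cast hn))

theorem cpow_meas (n : ℕ) : Measurable fun u : ℝ => (n : ℂ) ^ (-(I * u)) := by
  apply Measurable.pow measurable_const
  fun_prop

theorem cpow_meas' (n : ℕ) : Measurable fun u : ℝ => (n : ℂ) ^ (I * u) := by
  apply Measurable.pow measurable_const
  fun_prop

/-- one variable -/
theorem mm_one : ∃ C : ℝ, 0 < C ∧ ∀ (N : ℕ) (U : ℝ), 1 ≤ U → (N : ℝ) ≤ 16 * U → ∀ a : ℕ → ℂ,
    ∫⁻ u in Icc 0 U, ENNReal.ofReal (‖∑ m ∈ Finset.Icc 1 N, a m * (m : ℂ) ^ (-(I * u))‖ ^ 2) ≤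
      ENNReal.ofReal (C * U) * ∑ m ∈ Finset.Icc 1 N, ENNReal.ofReal (‖a m‖ ^ 2) := by
  obtain ⟨C, hC, h⟩ := Pool.Agent.TH928.GS.t_MV
  refine ⟨C * 32, by positivity, fun N U hU hN a => ?_⟩
  have h1 := h (16 * U) N a (by linarith) (by nlinarith)
  have hc : Continuous fun u : ℝ => ‖∑ m ∈ Finset.Icc 1 N, a m * (m : ℂ) ^ (-(I * u))‖ ^ 2 := by
    refine (Continuous.norm (continuous_finsetSum _ fun m hm => ?_)).pow 2
    exact continuous_const.mul (cpow_cont (by have := (Finset.mem_Icc.1 hm).1; omega))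
  have hi : IntegrableOn (fun u : ℝ => ‖∑ m ∈ Finset.Icc 1 N, a m * (m : ℂ) ^ (-(I * u))‖ ^ 2)
      (Icc 0 U) := hc.continuousOn.integrableOn_compact isCompact_Icc
  rw [← ofReal_integral_eq_lintegral_ofReal hi (Eventually.of_forall fun u => by positivity)]
  rw [← ENNReal.ofReal_sum_of_nonneg fun m _ => by positivity, ← ENNReal.ofReal_mul (by positivity)]
  apply ENNReal.ofReal_le_ofReal
  rw [integral_Icc_eq_integral_Ioc, ← intervalIntegral.integral_of_le (by linarith)]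
  calc ∫ u in (0:ℝ)..U, ‖∑ m ∈ Finset.Icc 1 N, a m * (m : ℂ) ^ (-(I * u))‖ ^ 2
      ≤ ∫ u in (0:ℝ)..(2 * (16 * U)), ‖∑ m ∈ Finset.Icc 1 N, a m * (m : ℂ) ^ (-(I * u))‖ ^ 2 :=
        intervalIntegral.integral_mono_interval le_rfl (by linarith) (by linarith)
          (Eventually.of_forall fun u => by positivity) (hc.intervalIntegrable _ _)
    _ ≤ C * ∑ n ∈ Finset.Icc 1 N, (16 * U + n) * ‖a n‖ ^ 2 := h1
    _ ≤ C * ∑ n ∈ Finset.Icc 1 N, (32 * U) * ‖a n‖ ^ 2 := by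
        refine mul_le_mul_of_nonneg_left (Finset.sum_le_sum fun n hn => ?_) hC.le
        refine mul_le_mul_of_nonneg_right ?_ (by positivity)
        have h2 : (n : ℝ) ≤ N := by exact_mod_cast (Finset.mem_Icc.1 hn).2
        linarith
    _ = C * 32 * U * ∑ m ∈ Finset.Icc 1 N, ‖a m‖ ^ 2 := by
        rw [← Finset.mul_sum]
        ring

theorem conj_cpow {m : ℕ} (hm : m ≠ 0) (u : ℝ) :
    (starRingEnd ℂ) ((m : ℂ) ^ (-(I * u))) = (m : ℂ) ^ (I * u) := by
  have h := Complex.cpow_conj (m : ℂ) (-(I * u)) (by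
    rw [Complex.natCast_arg]
    exact Real.pi_pos.ne)
  rw [Complex.conj_natCast] at h
  rw [← h, map_neg, map_mul, Complex.conj_I, Complex.conj_ofReal]
  congr 1
  ring

theorem mm_one' {N : ℕ} {μ : Measure ℝ} {A : ℝ≥0∞}
    (h : ∀ a : ℕ → ℂ,
      ∫⁻ u, ENNReal.ofReal (‖∑ m ∈ Finset.Icc 1 N, a m * (m : ℂ) ^ (-(I * u))‖ ^ 2) ∂μ ≤
      A * ∑ m ∈ Finset.Icc 1 N, ENNReal.ofReal (‖a m‖ ^ 2)) (a : ℕ → ℂ) :
    ∫⁻ u, ENNReal.ofReal (‖∑ m ∈ Finset.Icc 1 N, a m * (m : ℂ) ^ (I * u)‖ ^ 2) ∂μ ≤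
      A * ∑ m ∈ Finset.Icc 1 N, ENNReal.ofReal (‖a m‖ ^ 2) := by
  have h1 := h fun m => (starRingEnd ℂ) (a m)
  simp only [RCLike.norm_conj] at h1
  refine le_trans (le_of_eq ?_) h1
  refine lintegral_congr fun u => ?_
  congr 2
  rw [← RCLike.norm_conj, map_sum]
  congr 1
  refine Finset.sum_congr rfl fun m hm => ?_
  have hm0 : m ≠ 0 := by
    have := (Finset.mem_Icc.1 hm).1
    omega
  rw [map_mul, ← conj_cpow hm0, Complex.conj_conj]

theorem t_MM : S_MM := by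
  obtain ⟨C, hC, h⟩ := mm_one
  refine ⟨C, hC, fun k N U c hN hU hNU => ?_⟩
  have hCU : 0 ≤ C * U := by positivity
  have h1 := mm_gen (ι := Fin k ⊕ Fin k) (volume.restrict (Icc (0 : ℝ) U)) (ENNReal.ofReal (C * U)) N
    (fun i m u => Sum.elim (fun _ => (m : ℂ) ^ (-(I * u))) (fun _ => (m : ℂ) ^ (I * u)) i)
    (by
      rintro (i | i) m
      · exact cpow_meas m
      · exact cpow_meas' m)
    (by
      rintro (i | i) a
      · exact h N U hU hNU a
      · exact mm_one' (fun a => h N U hU hNU a) a) c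
  rw [← ENNReal.ofReal_sum_of_nonneg fun m _ => by positivity, ← ENNReal.ofReal_pow hCU,
    ← ENNReal.ofReal_mul (by positivity)] at h1
  have h2 : Fintype.card (Fin k ⊕ Fin k) = 2 * k := by
    rw [Fintype.card_sum, Fintype.card_fin]
    ring
  rw [h2] at h1
  refine le_trans (le_of_eq ?_) h1
  unfold mP tup ch
  refine lintegral_congr fun γ => ?_
  congr 3
  refine Finset.sum_congr rfl fun ν _ => ?_
  rw [Fintype.prod_sum_type]
  rfl

end

end Pool.Agent.Z72.SQ
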