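import Pool.Agent.Z72.SQ.Stm
import Pool.Agent.Z72.SH.As3

set_option autoImplicit false

/-! Project SQ: assembly, general lemmas. -/

namespace Pool.Agent.Z72.SQ

open Complex Filter Topology MeasureTheory Set
open Pool.Agent.TH612.GS (z zN PN mP SN zr Sep DD z_cont PN_cont zp IG Pk ZB zp_bd inv_le_one DD_eq Zg_fz
  Zg_cont IG_cont GG_cont_t GG_cont_2 norm_GG S_INV SN_cont tup ch wt)
open Pool.Agent.TH612.CF (Zg GG Qs)
open Pool.Agent.N879.PU (fs fs_norm fs_cont fs_prod)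
open Pool.Agent.Z72.SH (gd gd_cont BadU S_CH)

noncomputable section

/-- from the grid to all points -/
lemma chsup (hCH : S_CH) {ι : Type} [Fintype ι] {μ : Measure (ι → ℝ)} {g : (ι → ℝ) → ℝ → ℂ} {a b lam K G : ℝ} {J : ℕ}
    (Q : Set (ι → ℝ)) (hab : a ≤ b) (hlam : 0 < lam) (hK : 0 ≤ K) (hG : 0 ≤ G)
    (hg : Continuous fun p : (ι → ℝ) × ℝ => g p.1 p.2)
    (h2 : ∀ x y, a ≤ x → x ≤ y → y ≤ b →
      ∫⁻ γ, ENNReal.ofReal (‖∫ t in x..y, g γ t‖ ^ 2) ∂μ ≤ ENNReal.ofReal (K * (y - x)))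
    (h3 : ∀ γ ∈ Q, ∀ t, a ≤ t → t ≤ b → ‖g γ t‖ ≤ G) (h4 : (b - a) / 2 ^ J * G ≤ lam) :
    μ {γ | γ ∈ Q ∧ ∃ S, a ≤ S ∧ S ≤ b ∧ (J + 2) * lam < ‖∫ t in a..S, g γ t‖} ≤
      ENNReal.ofReal ((J + 1) * (K * (b - a)) / lam ^ 2) := by
  refine le_trans (measure_mono ?_) (hCH ι μ g a b lam J (fun x y => K * (y - x)) hab hlam hg
    (fun x y h h' h'' => ⟨mul_nonneg hK (by linarith), h2 x y h h' h''⟩) (fun x y w _ _ _ _ => ?_))
  · rintro γ ⟨hγ, S, haS, hSb, hS⟩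
    rcases eq_or_lt_of_le hab with hab' | hab'
    · exfalso
      have e : S = a := le_antisymm (hSb.trans hab'.symm.le) haS
      rw [e, intervalIntegral.integral_same, norm_zero] at hS
      have : 0 < (J + 2 : ℝ) * lam := by positivity
      linarith
    obtain ⟨s, hs⟩ : ∃ s : ℝ, s = (b - a) / 2 ^ J := ⟨_, rfl⟩
    have hs0 : 0 < s := by
      rw [hs]
      have : 0 < b - a := by linarith
      positivity
    obtain ⟨i, hi⟩ : ∃ i : ℕ, i = ⌊(S - a) / s⌋₊ := ⟨_, rfl⟩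
    have hiS : (i:ℝ) * s ≤ S - a := by
      have := Nat.floor_le (a := (S - a) / s) (div_nonneg (by linarith) hs0.le)
      rwa [← hi, le_div_iff₀ hs0] at this
    have hiS2 : S - a < ((i:ℝ) + 1) * s := by
      have := Nat.lt_floor_add_one ((S - a) / s)
      rwa [← hi, div_lt_iff₀ hs0] at this
    have hiJ : i ≤ 2 ^ J := by
      have h2 : (i:ℝ) * s ≤ 2 ^ J * s := by
        refine (hiS.trans (by linarith : S - a ≤ b - a)).trans (le_of_eq ?_)
        rw [hs]; field_simp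
      have h3 := le_of_mul_le_mul_right h2 hs0
      exact_mod_cast h3
    refine ⟨i, hiJ, ?_⟩
    have hcg : Continuous fun t : ℝ => g γ t := by
      have := hg.comp (g := fun p : (ι → ℝ) × ℝ => g p.1 p.2) (f := fun t : ℝ => (γ, t)) (by fun_prop)
      exact this
    have e3 : ∫ t in a..S, g γ t = (∫ t in a..(a + i * s), g γ t) + ∫ t in (a + i * s)..S, g γ t := by
      rw [intervalIntegral.integral_add_adjacent_intervals (hcg.intervalIntegrable _ _)
        (hcg.intervalIntegrable _ _)]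
    have hi0 : 0 ≤ (i:ℝ) * s := by positivity
    have h5 : ‖∫ t in (a + i * s)..S, g γ t‖ ≤ lam := by
      have h6 := intervalIntegral.norm_integral_le_of_norm_le_const (a := a + i * s) (b := S) (C := G)
        (f := fun t => g γ t) (fun t ht => by
          rw [uIoc_of_le (by linarith)] at ht
          exact h3 γ hγ t (by linarith [ht.1]) (ht.2.trans hSb))
      refine h6.trans ?_
      rw [abs_of_nonneg (by linarith)]
      have h7 : S - (a + i * s) ≤ s := by linarith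
      calc G * (S - (a + i * s)) ≤ G * s := by gcongr
        _ = (b - a) / 2 ^ J * G := by rw [hs]; ring
        _ ≤ lam := h4
    have h8 := norm_add_le (∫ t in a..(a + i * s), g γ t) (∫ t in (a + i * s)..S, g γ t)
    rw [← e3] at h8
    rw [← hs]
    linarith
  · show K * (y - x) + K * (w - y) ≤ K * (w - x)
    linarith [mul_sub K y x, mul_sub K w y, mul_sub K w x]

variable {k : ℕ}

lemma prodz_cont (γ : Fin k ⊕ Fin k → ℝ) : Continuous fun t : ℝ => ∏ i, fs z i (t + γ i) :=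
  continuous_finsetProd _ fun i _ => (fs_cont z_cont i).comp (by fun_prop)

lemma prodp_cont (N : ℕ) : Continuous fun p : (Fin k ⊕ Fin k → ℝ) × ℝ => ∏ i, fs (PN N) i (p.2 + p.1 i) :=
  continuous_finsetProd _ fun i _ => (fs_cont (PN_cont N) i).comp (by fun_prop)

lemma prodp_cont_t (N : ℕ) (γ : Fin k ⊕ Fin k → ℝ) : Continuous fun t : ℝ => ∏ i, fs (PN N) i (t + γ i) :=
  continuous_finsetProd _ fun i _ => (fs_cont (PN_cont N) i).comp (by fun_prop)

/-- the model minus its mean -/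
def od (N : ℕ) (γ : Fin k ⊕ Fin k → ℝ) (t : ℝ) : ℂ := ∏ i, fs (PN N) i (t + γ i) - SN N γ

lemma od_cont (N : ℕ) : Continuous fun p : (Fin k ⊕ Fin k → ℝ) × ℝ => od N p.1 p.2 :=
  (prodp_cont N).sub ((SN_cont N).comp continuous_fst)

lemma od_int (N : ℕ) (γ : Fin k ⊕ Fin k → ℝ) (a b : ℝ) : ∫ t in a..b, od N γ t =
    (∫ t in a..b, ∏ i, fs (PN N) i (t + γ i)) - ((b - a : ℝ) : ℂ) * SN N γ := by
  unfold od
  rw [intervalIntegral.integral_sub ((prodp_cont_t N γ).intervalIntegrable _ _)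
    (continuous_const.intervalIntegrable _ _), intervalIntegral.integral_const, Complex.real_smul]

lemma piece_bd (N : ℕ) {A S : ℝ} (hAS : A ≤ S) (γ : Fin k ⊕ Fin k → ℝ) :
    ‖(∫ t in A..S, ∏ i, fs z i (t + γ i)) - ((S - A : ℝ) : ℂ) * zr γ‖ ≤
      ‖∫ t in A..S, gd N γ t‖ + ‖∫ t in A..S, od N γ t‖ + (S - A) * ‖SN N γ - zr γ‖ := by
  have e1 : ∫ t in A..S, gd N γ t = (∫ t in A..S, ∏ i, fs z i (t + γ i)) -
      ∫ t in A..S, ∏ i, fs (PN N) i (t + γ i) := by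
    unfold gd
    exact intervalIntegral.integral_sub ((prodz_cont γ).intervalIntegrable _ _)
      ((prodp_cont_t N γ).intervalIntegrable _ _)
  have e2 : (∫ t in A..S, ∏ i, fs z i (t + γ i)) - ((S - A : ℝ) : ℂ) * zr γ =
      (∫ t in A..S, gd N γ t) + (∫ t in A..S, od N γ t) + ((S - A : ℝ) : ℂ) * (SN N γ - zr γ) := by
    rw [e1, od_int]; ring
  rw [e2]
  have h1 : ‖((S - A : ℝ) : ℂ) * (SN N γ - zr γ)‖ = (S - A) * ‖SN N γ - zr γ‖ := by
    rw [norm_mul, Complex.norm_real, Real.norm_of_nonneg (by linarith)]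
  rw [← h1]
  exact (norm_add_le _ _).trans (add_le_add (norm_add_le _ _) le_rfl)

lemma DD_bd (hINV : S_INV) {U C S : ℝ} (hU : 3 ≤ U) (hC : 0 < C)
    (h1 : ∀ v : ℝ, 1 ≤ |v| → |v| ≤ U → ‖riemannZeta (1 + I * v)‖ ≤ C * Real.log U)
    {γ : Fin k ⊕ Fin k → ℝ} (hγ : γ ∈ Sep k U) :
    ‖DD S γ‖ ≤ ‖(∫ t in (0:ℝ)..S, ∏ i, fs z i (t + γ i)) - S * zr γ‖ +
      ZB k C U * ∑ π ∈ (Pk k)ᶜ, ‖IG S γ π‖ := by
  rw [DD_eq hINV]
  have e1 : (∫ t in (0:ℝ)..S, ∏ i, fs z i (t + γ i)) = ∫ t in (0:ℝ)..S, Zg γ t := by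
    refine intervalIntegral.integral_congr fun t _ => ?_
    rw [fs_prod, Zg_fz]
  rw [e1]
  refine (norm_sub_le _ _).trans (add_le_add le_rfl ?_)
  rw [norm_mul]
  calc _ ≤ 1 * ‖∑ π ∈ (Pk k)ᶜ, IG S γ π * zp γ π‖ := by
        gcongr
        exact inv_le_one
    _ ≤ 1 * ∑ π ∈ (Pk k)ᶜ, ‖IG S γ π * zp γ π‖ := by
        gcongr
        exact norm_sum_le _ _
    _ ≤ 1 * ∑ π ∈ (Pk k)ᶜ, ‖IG S γ π‖ * ZB k C U := by
        gcongr with π hπ
        rw [norm_mul]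
        gcongr
        exact zp_bd hU hC h1 hγ π
    _ = _ := by rw [one_mul, ← Finset.sum_mul, mul_comm]

/-- trivial bounds -/
lemma PN_le (N : ℕ) (u : ℝ) : ‖PN N u‖ ≤ N := by
  unfold PN zN
  refine (norm_sum_le _ _).trans ?_
  calc ∑ n ∈ Finset.Icc 1 N, ‖(n : ℂ) ^ (-(1 / 2 + I * (u : ℂ)))‖ ≤ ∑ _n ∈ Finset.Icc 1 N, (1:ℝ) := by
        refine Finset.sum_le_sum fun n hn => ?_
        have hn1 : 1 ≤ n := (Finset.mem_Icc.1 hn).1
        rw [Complex.norm_natCast_cpow_of_pos (by omega)]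
        refine Real.rpow_le_one_of_one_le_of_nonpos (by exact_mod_cast hn1) ?_
        simp
    _ = N := by simp

lemma prod_le {f : ℝ → ℂ} {γ : Fin k ⊕ Fin k → ℝ} {t X : ℝ} (h : ∀ i, ‖f (t + γ i)‖ ≤ X) :
    ‖∏ i, fs f i (t + γ i)‖ ≤ X ^ (2 * k) := by
  rw [norm_prod]
  calc ∏ i, ‖fs f i (t + γ i)‖ ≤ ∏ _i : Fin k ⊕ Fin k, X := by
        refine Finset.prod_le_prod (fun _ _ => norm_nonneg _) fun i _ => ?_
        rw [fs_norm]
        exact h i
    _ = X ^ (2 * k) := by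
        rw [Finset.prod_const, Finset.card_univ, Pool.Agent.N879.PU.card_ii]

lemma SN_le (N : ℕ) (hN : 1 ≤ N) (γ : Fin k ⊕ Fin k → ℝ) : ‖SN N γ‖ ≤ (N : ℝ) ^ (2 * k) := by
  classical
  unfold SN
  refine (norm_sum_le _ _).trans ?_
  have h1 : ∀ ν ∈ tup k N, ‖(if ∏ j, ν (Sum.inl j) = ∏ j, ν (Sum.inr j) then (wt ν : ℂ) * ch ν γ else 0)‖ ≤ 1 := by
    intro ν hν
    have hν1 : ∀ i, 1 ≤ ν i := fun i => (Finset.mem_Icc.1 (Fintype.mem_piFinset.1 hν i)).1
    split_ifs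
    · rw [norm_mul]
      have a1 : ‖(wt ν : ℂ)‖ ≤ 1 := by
        rw [Complex.norm_real]
        unfold wt
        have hp : (1:ℝ) ≤ ∏ i, (ν i : ℝ) := by
          have : 1 ≤ ∏ i, ν i := Nat.one_le_iff_ne_zero.2 (Finset.prod_ne_zero_iff.2 fun i _ => by
            have := hν1 i; omega)
          exact_mod_cast this
        rw [Real.norm_of_nonneg (by positivity)]
        exact Real.rpow_le_one_of_one_le_of_nonpos hp (by norm_num)
      have a2 : ‖ch ν γ‖ = 1 := by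
        unfold ch
        rw [norm_mul, norm_prod, norm_prod]
        have b1 : ∀ j : Fin k, ‖(ν (Sum.inl j) : ℂ) ^ (-(I * (γ (Sum.inl j) : ℂ)))‖ = 1 := by
          intro j
          rw [Complex.norm_natCast_cpow_of_pos (by have := hν1 (Sum.inl j); omega)]
          simp
        have b2 : ∀ j : Fin k, ‖(ν (Sum.inr j) : ℂ) ^ (I * (γ (Sum.inr j) : ℂ))‖ = 1 := by
          intro j
          rw [Complex.norm_natCast_cpow_of_pos (by have := hν1 (Sum.inr j); omega)]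
          simp
        simp [b1, b2]
      rw [a2, mul_one]
      exact a1
    · simp
  calc ∑ ν ∈ tup k N, ‖(if ∏ j, ν (Sum.inl j) = ∏ j, ν (Sum.inr j) then (wt ν : ℂ) * ch ν γ else 0)‖
      ≤ ∑ _ν ∈ tup k N, (1:ℝ) := Finset.sum_le_sum h1
    _ = (N : ℝ) ^ (2 * k) := by
        rw [Finset.sum_const, nsmul_eq_mul, mul_one]
        unfold tup
        rw [Fintype.card_piFinset]
        simp only [Nat.card_Icc, Nat.add_sub_cancel, Finset.prod_const, Finset.card_univ,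
          Pool.Agent.N879.PU.card_ii, Nat.cast_pow]

end

end Pool.Agent.Z72.SQ
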