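import Mathlib

/-!
# Task SQ_NTOD (helper25), part 1: the sum over pairs
-/

set_option autoImplicit false

namespace Pool.Agent.Z72.SQ.NtA

open Finset

/-- the weight of a pair -/
noncomputable def gp (A B : ℕ) : ℝ := ((A : ℝ) * B)⁻¹ * |Real.log ((B : ℝ) / A)|⁻¹

theorem gp_symm (A B : ℕ) : gp A B = gp B A := by
  unfold gp
  rw [mul_comm (A : ℝ) B]
  congr 2
  rw [← abs_neg, ← Real.log_inv, inv_div]

theorem gp_nonneg (A B : ℕ) : 0 ≤ gp A B := by unfold gp; positivity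

theorem gp_le {A B : ℕ} (hA : 1 ≤ A) (h : A < B) : gp A B ≤ (A : ℝ)⁻¹ * ((B - A : ℕ) : ℝ)⁻¹ := by
  have hA0 : (0 : ℝ) < A := by exact_mod_cast hA
  have hAB : (A : ℝ) < B := by exact_mod_cast h
  have hB0 : (0 : ℝ) < B := hA0.trans hAB
  have h1 : ((B : ℝ) - A) / B ≤ Real.log ((B : ℝ) / A) := by
    refine le_trans (le_of_eq ?_) (Real.one_sub_inv_le_log_of_pos (div_pos hB0 hA0))
    rw [inv_div]
    field_simp
  have h2 : (0 : ℝ) < ((B : ℝ) - A) / B := div_pos (by linarith) hB0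
  unfold gp
  rw [abs_of_pos (lt_of_lt_of_le h2 h1), Nat.cast_sub h.le]
  calc ((A : ℝ) * B)⁻¹ * (Real.log ((B : ℝ) / A))⁻¹ ≤ ((A : ℝ) * B)⁻¹ * (((B : ℝ) - A) / B)⁻¹ := by
        refine mul_le_mul_of_nonneg_left ?_ (by positivity)
        exact inv_anti₀ h2 h1
    _ = (A : ℝ)⁻¹ * ((B : ℝ) - A)⁻¹ := by
        have : (B : ℝ) - A ≠ 0 := by linarith
        field_simp

theorem sum_lt (X : ℕ) : ∑ p ∈ ((Icc 1 X) ×ˢ (Icc 1 X)).filter (fun p => p.1 < p.2), gp p.1 p.2 ≤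
    (∑ n ∈ Icc 1 X, (n : ℝ)⁻¹) ^ 2 := by
  rw [sq, Finset.sum_mul_sum, ← Finset.sum_product']
  calc ∑ p ∈ ((Icc 1 X) ×ˢ (Icc 1 X)).filter (fun p => p.1 < p.2), gp p.1 p.2 ≤
        ∑ p ∈ ((Icc 1 X) ×ˢ (Icc 1 X)).filter (fun p => p.1 < p.2), (p.1 : ℝ)⁻¹ * ((p.2 - p.1 : ℕ) : ℝ)⁻¹ := by
        refine Finset.sum_le_sum fun p hp => ?_
        rw [mem_filter, mem_product, mem_Icc, mem_Icc] at hp
        exact gp_le hp.1.1.1 hp.2
    _ = ∑ q ∈ (((Icc 1 X) ×ˢ (Icc 1 X)).filter (fun p => p.1 < p.2)).image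
          (fun p : ℕ × ℕ => ((p.1, p.2 - p.1) : ℕ × ℕ)),
          ((q.1 : ℕ) : ℝ)⁻¹ * ((q.2 : ℕ) : ℝ)⁻¹ := by
        symm
        refine Finset.sum_image (g := fun p : ℕ × ℕ => ((p.1, p.2 - p.1) : ℕ × ℕ))
          (f := fun q : ℕ × ℕ => ((q.1 : ℕ) : ℝ)⁻¹ * ((q.2 : ℕ) : ℝ)⁻¹) ?_
        intro p hp q hq hpq
        rw [mem_coe, mem_filter] at hp hq
        simp only [Prod.mk.injEq] at hpq
        refine Prod.ext hpq.1 ?_
        have := hpq.2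
        have h3 := hp.2
        have h4 := hq.2
        omega
    _ ≤ ∑ q ∈ (Icc 1 X) ×ˢ (Icc 1 X), ((q.1 : ℕ) : ℝ)⁻¹ * ((q.2 : ℕ) : ℝ)⁻¹ := by
        refine Finset.sum_le_sum_of_subset_of_nonneg ?_ fun _ _ _ => by positivity
        intro q hq
        obtain ⟨p, hp, rfl⟩ := mem_image.1 hq
        rw [mem_filter, mem_product, mem_Icc, mem_Icc] at hp
        rw [mem_product, mem_Icc, mem_Icc]
        simp only
        omega

theorem harm (X : ℕ) : ∑ n ∈ Icc 1 X, (n : ℝ)⁻¹ ≤ 1 + Real.log X := by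
  have h := harmonic_le_one_add_log X
  refine le_trans (le_of_eq ?_) h
  rw [harmonic_eq_sum_Icc]
  push_cast
  rfl

/-- the sum over all pairs of different integers -/
theorem sum_ne (X : ℕ) :
    ∑ p ∈ ((Icc 1 X) ×ˢ (Icc 1 X)).filter (fun p => p.1 ≠ p.2), gp p.1 p.2 ≤ 2 * (1 + Real.log X) ^ 2 := by
  have hsplit : ((Icc 1 X) ×ˢ (Icc 1 X)).filter (fun p => p.1 ≠ p.2) =
      ((Icc 1 X) ×ˢ (Icc 1 X)).filter (fun p => p.1 < p.2) ∪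
      ((Icc 1 X) ×ˢ (Icc 1 X)).filter (fun p => p.2 < p.1) := by
    ext p
    simp only [mem_filter, mem_union]
    constructor
    · rintro ⟨h1, h2⟩
      rcases lt_or_gt_of_ne h2 with h | h
      · exact Or.inl ⟨h1, h⟩
      · exact Or.inr ⟨h1, h⟩
    · rintro (⟨h1, h2⟩ | ⟨h1, h2⟩)
      · exact ⟨h1, h2.ne⟩
      · exact ⟨h1, h2.ne'⟩
  have hdis : Disjoint (((Icc 1 X) ×ˢ (Icc 1 X)).filter (fun p => p.1 < p.2))
      (((Icc 1 X) ×ˢ (Icc 1 X)).filter (fun p => p.2 < p.1)) := by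
    rw [Finset.disjoint_filter]
    intro p _ h1 h2
    omega
  have hswap : ∑ p ∈ ((Icc 1 X) ×ˢ (Icc 1 X)).filter (fun p => p.2 < p.1), gp p.1 p.2 =
      ∑ p ∈ ((Icc 1 X) ×ˢ (Icc 1 X)).filter (fun p => p.1 < p.2), gp p.1 p.2 := by
    refine Finset.sum_bij' (fun p _ => (p.2, p.1)) (fun p _ => (p.2, p.1)) ?_ ?_ ?_ ?_ ?_
    · intro p hp
      simp only [mem_filter, mem_product] at hp ⊢
      exact ⟨⟨hp.1.2, hp.1.1⟩, hp.2⟩
    · intro p hp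
      simp only [mem_filter, mem_product] at hp ⊢
      exact ⟨⟨hp.1.2, hp.1.1⟩, hp.2⟩
    · intro p _; rfl
    · intro p _; rfl
    · intro p _
      exact gp_symm _ _
  have h1 := sum_lt X
  have h2 := harm X
  have h3 : 0 ≤ ∑ n ∈ Icc 1 X, (n : ℝ)⁻¹ := Finset.sum_nonneg fun _ _ => by positivity
  have h4 : (∑ n ∈ Icc 1 X, (n : ℝ)⁻¹) ^ 2 ≤ (1 + Real.log X) ^ 2 := pow_le_pow_left₀ h3 h2 2
  rw [hsplit, Finset.sum_union hdis, hswap]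
  linarith

/-- the logarithm of a power -/
theorem log_bound (k : ℕ) (ε : ℝ) (hε : 0 < ε) (N : ℕ) (hN : 1 ≤ N) :
    (1 + Real.log ((N ^ k : ℕ) : ℝ)) ^ 2 ≤ (1 + 4 * k / ε) ^ 2 * (N : ℝ) ^ (ε / 2) := by
  have hN1 : (1 : ℝ) ≤ N := by exact_mod_cast hN
  have h1 : Real.log N ≤ (N : ℝ) ^ (ε / 4) / (ε / 4) := Real.log_le_rpow_div (by linarith) (by linarith)
  have h2 : (1 : ℝ) ≤ (N : ℝ) ^ (ε / 4) := Real.one_le_rpow hN1 (by linarith)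
  have h0 : 0 ≤ Real.log N := Real.log_nonneg hN1
  have h3 : 1 + Real.log ((N ^ k : ℕ) : ℝ) ≤ (1 + 4 * k / ε) * (N : ℝ) ^ (ε / 4) := by
    push_cast
    rw [Real.log_pow]
    have h4 : (k : ℝ) * Real.log N ≤ k * ((N : ℝ) ^ (ε / 4) / (ε / 4)) :=
      mul_le_mul_of_nonneg_left h1 (Nat.cast_nonneg k)
    have h5 : (k : ℝ) * ((N : ℝ) ^ (ε / 4) / (ε / 4)) = 4 * k / ε * (N : ℝ) ^ (ε / 4) := by
      field_simp
    rw [h5] at h4
    linarith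
  have h6 : 0 ≤ 1 + Real.log ((N ^ k : ℕ) : ℝ) := by
    push_cast
    rw [Real.log_pow]
    positivity
  calc (1 + Real.log ((N ^ k : ℕ) : ℝ)) ^ 2 ≤ ((1 + 4 * k / ε) * (N : ℝ) ^ (ε / 4)) ^ 2 :=
        pow_le_pow_left₀ h6 h3 2
    _ = (1 + 4 * k / ε) ^ 2 * (N : ℝ) ^ (ε / 2) := by
        rw [mul_pow, ← Real.rpow_natCast ((N : ℝ) ^ (ε / 4)) 2, ← Real.rpow_mul (by linarith)]
        congr 2
        push_cast
        ring

end Pool.Agent.Z72.SQ.NtA
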