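import Pool.Agent.Z72.SQ.Stm
import Pool.Agent.Z72.SQ.NtAbs
import Pool.Agent.TH367.GS.SS

/-!
# Task SQ_NTOD (helper25), part 2: the sum over the off-diagonal tuples
-/

set_option autoImplicit false

namespace Pool.Agent.Z72.SQ

open Complex Filter Topology MeasureTheory Set
open Pool.Agent.TH612.GS (tup wt)
open Pool.Agent.TH367.GS (pl pr mem_tup fma_card)

noncomputable section

namespace NtA

variable {k : ℕ}

theorem one_le_prod (f : Fin k → ℕ) (h : ∀ i, 1 ≤ f i) : 1 ≤ ∏ i, f i :=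
  Nat.one_le_iff_ne_zero.2 (Finset.prod_ne_zero_iff.2 fun i _ => by have := h i; omega)

theorem prod_le (N : ℕ) (f : Fin k → ℕ) (h : ∀ i, f i ≤ N) : ∏ i, f i ≤ N ^ k := by
  calc ∏ i, f i ≤ ∏ _i : Fin k, N := Finset.prod_le_prod' fun i _ => h i
    _ = N ^ k := by simp

/-- the number of tuples with given products -/
theorem fiber2 (N A B : ℕ) (hA : 1 ≤ A) (hB : 1 ≤ B) :
    ((tup k N).filter (fun ν => (pl ν, pr ν) = (A, B))).card ≤ A.divisors.card ^ k * B.divisors.card ^ k := by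
  refine le_trans ?_ (Nat.mul_le_mul (fma_card (k := k) A hA) (fma_card (k := k) B hB))
  rw [← Finset.card_product]
  refine Finset.card_le_card_of_injOn
    (fun ν => (fun j => ν (Sum.inl j), fun j => ν (Sum.inr j))) ?_ ?_
  · intro ν hν
    rw [Finset.mem_coe, Finset.mem_filter, Prod.mk.injEq] at hν
    rw [Finset.mem_coe, Finset.mem_product, Nat.mem_finMulAntidiag, Nat.mem_finMulAntidiag]
    exact ⟨⟨hν.2.1, by omega⟩, ⟨hν.2.2, by omega⟩⟩
  · intro ν _ μ _ h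
    simp only [Prod.mk.injEq] at h
    funext i
    rcases i with j | j
    · exact congrFun h.1 j
    · exact congrFun h.2 j

theorem wt_sq (N : ℕ) (ν : Fin k ⊕ Fin k → ℕ) (hν : ν ∈ tup k N) :
    wt ν ^ 2 = ((pl ν : ℝ) * pr ν)⁻¹ := by
  unfold Pool.Agent.TH612.GS.wt pl pr
  have h0 : (0 : ℝ) ≤ ∏ i, (ν i : ℝ) := Finset.prod_nonneg fun i _ => Nat.cast_nonneg _
  rw [← Real.rpow_natCast, ← Real.rpow_mul h0]
  have h1 : (-(1 / 2) : ℝ) * ((2 : ℕ) : ℝ) = -1 := by norm_num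
  rw [h1, Real.rpow_neg_one, Fintype.prod_sum_type]
  push_cast
  rfl

end NtA

open NtA

theorem t_NT : S_NT := by
  intro k ε hε
  obtain ⟨C1, hC1, hdiv⟩ := Pool.Agent.H510R2.divisor_bound (ε / (4 * (k + 1) ^ 2)) (by positivity)
  refine ⟨C1 ^ (2 * k) * (2 * (1 + 4 * k / ε) ^ 2), by positivity, fun N hN => ?_⟩
  have hN1 : (1 : ℝ) ≤ N := by exact_mod_cast hN
  obtain ⟨X, hX⟩ : ∃ X, X = N ^ k := ⟨_, rfl⟩
  have hX1 : 1 ≤ X := by rw [hX]; exact Nat.one_le_pow _ _ hN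
  -- the terms
  have hterm : ∀ ν ∈ (tup k N).filter (fun ν => ∏ j, ν (Sum.inl j) ≠ ∏ j, ν (Sum.inr j)),
      wt ν ^ 2 * |Real.log ((∏ j, (ν (Sum.inr j) : ℝ)) / ∏ j, (ν (Sum.inl j) : ℝ))|⁻¹ =
        (fun p : ℕ × ℕ => gp p.1 p.2) (pl ν, pr ν) := by
    intro ν hν
    rw [Finset.mem_filter] at hν
    rw [wt_sq N ν hν.1]
    show _ = gp (pl ν) (pr ν)
    unfold gp pl pr
    push_cast
    rfl
  rw [Finset.sum_congr rfl hterm]
  have hmaps : ∀ ν ∈ (tup k N).filter (fun ν => ∏ j, ν (Sum.inl j) ≠ ∏ j, ν (Sum.inr j)),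
      (pl ν, pr ν) ∈ ((Finset.Icc 1 X) ×ˢ (Finset.Icc 1 X)).filter (fun p : ℕ × ℕ => p.1 ≠ p.2) := by
    intro ν hν
    rw [Finset.mem_filter] at hν
    rw [Finset.mem_filter, Finset.mem_product, Finset.mem_Icc, Finset.mem_Icc, hX]
    have hm := mem_tup.1 hν.1
    exact ⟨⟨⟨one_le_prod _ fun j => (hm _).1, prod_le N _ fun j => (hm _).2⟩,
      ⟨one_le_prod _ fun j => (hm _).1, prod_le N _ fun j => (hm _).2⟩⟩, hν.2⟩
  rw [← Finset.sum_fiberwise_of_maps_to' hmaps (fun p : ℕ × ℕ => gp p.1 p.2)]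
  -- the fibers
  have hfib : ∀ p ∈ ((Finset.Icc 1 X) ×ˢ (Finset.Icc 1 X)).filter (fun p : ℕ × ℕ => p.1 ≠ p.2),
      ∑ ν ∈ ((tup k N).filter (fun ν => ∏ j, ν (Sum.inl j) ≠ ∏ j, ν (Sum.inr j))).filter
        (fun ν => (pl ν, pr ν) = p), gp p.1 p.2 ≤ C1 ^ (2 * k) * (N : ℝ) ^ (ε / 2) * gp p.1 p.2 := by
    intro p hp
    rw [Finset.mem_filter, Finset.mem_product, Finset.mem_Icc, Finset.mem_Icc] at hp
    rw [Finset.sum_const, nsmul_eq_mul]
    refine mul_le_mul_of_nonneg_right ?_ (gp_nonneg _ _)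
    have h1 : ((((tup k N).filter (fun ν => ∏ j, ν (Sum.inl j) ≠ ∏ j, ν (Sum.inr j))).filter
        (fun ν => (pl ν, pr ν) = p)).card : ℝ) ≤
        ((p.1.divisors.card : ℝ)) ^ k * ((p.2.divisors.card : ℝ)) ^ k := by
      have h2 : (((tup k N).filter (fun ν => ∏ j, ν (Sum.inl j) ≠ ∏ j, ν (Sum.inr j))).filter
        (fun ν => (pl ν, pr ν) = p)).card ≤ ((tup k N).filter (fun ν => (pl ν, pr ν) = (p.1, p.2))).card :=
        Finset.card_le_card fun ν hν => by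
          rw [Finset.mem_filter, Finset.mem_filter] at hν
          rw [Finset.mem_filter]
          exact ⟨hν.1.1, hν.2⟩
      have h3 := h2.trans (fiber2 (k := k) N p.1 p.2 hp.1.1.1 hp.1.2.1)
      exact_mod_cast h3
    have hb : ∀ A : ℕ, 1 ≤ A → A ≤ X → (A.divisors.card : ℝ) ^ k ≤ C1 ^ k * (N : ℝ) ^ (ε / 4) := by
      intro A hA hAX
      have h4 := hdiv A hA
      have h5 : (A : ℝ) ^ (ε / (4 * (k + 1) ^ 2)) ≤ ((N : ℝ) ^ k) ^ (ε / (4 * (k + 1) ^ 2)) := by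
        refine Real.rpow_le_rpow (Nat.cast_nonneg _) ?_ (by positivity)
        rw [hX] at hAX
        exact_mod_cast hAX
      have h6 : (A.divisors.card : ℝ) ≤ C1 * ((N : ℝ) ^ k) ^ (ε / (4 * (k + 1) ^ 2)) :=
        h4.trans (mul_le_mul_of_nonneg_left h5 hC1.le)
      refine (pow_le_pow_left₀ (Nat.cast_nonneg _) h6 k).trans ?_
      rw [mul_pow]
      refine mul_le_mul_of_nonneg_left ?_ (by positivity)
      rw [← Real.rpow_natCast (N : ℝ) k, ← Real.rpow_mul (by linarith), ← Real.rpow_natCast _ k,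
        ← Real.rpow_mul (by linarith)]
      refine Real.rpow_le_rpow_of_exponent_le hN1 ?_
      have hk : (0 : ℝ) ≤ k := Nat.cast_nonneg k
      have e1 : (k : ℝ) * (ε / (4 * (k + 1) ^ 2)) * k = ε / 4 * (k / (k + 1)) ^ 2 := by
        field_simp
      rw [e1]
      have e2 : ((k : ℝ) / (k + 1)) ≤ 1 := by
        rw [div_le_one (by positivity)]
        linarith
      have e3 : ((k : ℝ) / (k + 1)) ^ 2 ≤ 1 := pow_le_one₀ (by positivity) e2
      nlinarith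
    calc _ ≤ _ := h1
      _ ≤ (C1 ^ k * (N : ℝ) ^ (ε / 4)) * (C1 ^ k * (N : ℝ) ^ (ε / 4)) :=
          mul_le_mul (hb _ hp.1.1.1 hp.1.1.2) (hb _ hp.1.2.1 hp.1.2.2) (by positivity) (by positivity)
      _ = C1 ^ (2 * k) * (N : ℝ) ^ (ε / 2) := by
          have e1 : (N : ℝ) ^ (ε / 2) = (N : ℝ) ^ (ε / 4) * (N : ℝ) ^ (ε / 4) := by
            rw [← Real.rpow_add (by linarith)]
            congr 1
            ring
          rw [e1]
          ring
  refine (Finset.sum_le_sum hfib).trans ?_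
  rw [← Finset.mul_sum]
  have h7 := sum_ne X
  have h8 := log_bound k ε hε N hN
  rw [← hX] at h8
  calc C1 ^ (2 * k) * (N : ℝ) ^ (ε / 2) *
        ∑ p ∈ ((Finset.Icc 1 X) ×ˢ (Finset.Icc 1 X)).filter (fun p : ℕ × ℕ => p.1 ≠ p.2), gp p.1 p.2 ≤
        C1 ^ (2 * k) * (N : ℝ) ^ (ε / 2) * (2 * ((1 + 4 * k / ε) ^ 2 * (N : ℝ) ^ (ε / 2))) := by
        refine mul_le_mul_of_nonneg_left ?_ (by positivity)
        linarith
    _ = C1 ^ (2 * k) * (2 * (1 + 4 * k / ε) ^ 2) * (N : ℝ) ^ ε := by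
        have e1 : (N : ℝ) ^ ε = (N : ℝ) ^ (ε / 2) * (N : ℝ) ^ (ε / 2) := by
          rw [← Real.rpow_add (by linarith)]
          congr 1
          ring
        rw [e1]
        ring

end

end Pool.Agent.Z72.SQ
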