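import Pool.Agent.Z72.SQ.Stm
import Pool.Agent.N879.PU.Mv

/-!
# Task SQ_MT (helper25): mean value theorem for frequencies above the length of the interval
-/

set_option autoImplicit false

namespace Pool.Agent.Z72.SQ

open Complex Filter Topology MeasureTheory Set

noncomputable section

namespace MtA

/-- decomposition into dyadic blocks -/
theorem dyad {E : Type*} [AddCommMonoid E] (N J : ℕ) (g : ℕ → E) :
    ∑ m ∈ Finset.Ioc N (2 ^ J * N), g m =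
      ∑ j ∈ Finset.range J, ∑ m ∈ Finset.Ioc (2 ^ j * N) (2 * (2 ^ j * N)), g m := by
  induction J with
  | zero => simp
  | succ J ih =>
    rw [Finset.sum_range_succ, ← ih]
    have h1 : 2 ^ (J + 1) * N = 2 * (2 ^ J * N) := by ring
    rw [h1]
    refine (Finset.sum_Ioc_consecutive g ?_ ?_).symm
    · exact Nat.le_mul_of_pos_left _ (by positivity)
    · omega

theorem ioc_icc {E : Type*} [AddCommMonoid E] (M : ℕ) (g : ℕ → E) :
    ∑ m ∈ Finset.Ioc M (2 * M), g m = ∑ m ∈ Finset.Icc M (2 * M), if M < m then g m else 0 := by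
  rw [← Finset.sum_filter]
  refine Finset.sum_congr ?_ fun _ _ => rfl
  ext x
  simp only [Finset.mem_Ioc, Finset.mem_filter, Finset.mem_Icc]
  omega

/-- the sum over `(N, Y]` as a sum over dyadic blocks -/
theorem blocks {E : Type*} [AddCommMonoid E] (N Y J : ℕ) (hJ : Y ≤ 2 ^ J * N) (g : ℕ → E) :
    ∑ m ∈ Finset.Ioc N Y, g m =
      ∑ j ∈ Finset.range J, ∑ m ∈ Finset.Icc (2 ^ j * N) (2 * (2 ^ j * N)),
        if 2 ^ j * N < m ∧ m ≤ Y then g m else 0 := by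
  have h1 : ∑ m ∈ Finset.Ioc N Y, g m = ∑ m ∈ Finset.Ioc N (2 ^ J * N), if m ≤ Y then g m else 0 := by
    rw [← Finset.sum_filter]
    refine Finset.sum_congr ?_ fun _ _ => rfl
    ext x
    simp only [Finset.mem_Ioc, Finset.mem_filter]
    omega
  rw [h1, dyad]
  refine Finset.sum_congr rfl fun j _ => ?_
  rw [ioc_icc]
  refine Finset.sum_congr rfl fun m _ => ?_
  by_cases h2 : 2 ^ j * N < m <;> by_cases h3 : m ≤ Y <;> simp [h2, h3]

end MtA

open MtA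

theorem t_MT : S_MT := by
  obtain ⟨C, hC, hMV⟩ := Pool.Agent.N879.PU.t_MVS
  refine ⟨9 * C, by positivity, fun N Y U b hN hU hUN => ?_⟩
  obtain ⟨J, hJ⟩ : ∃ J, J = Nat.log 2 Y + 1 := ⟨_, rfl⟩
  have hYJ : Y ≤ 2 ^ J * N := by
    have h1 : Y < 2 ^ J := by
      rw [hJ]
      exact Nat.lt_pow_succ_log_self one_lt_two Y
    exact h1.le.trans (Nat.le_mul_of_pos_right _ hN)
  have hJr : (J : ℝ) ≤ 3 * (1 + Real.log Y) := by
    have h1 : ((Nat.log 2 Y : ℕ) : ℝ) ≤ Real.logb 2 Y := Real.natLog_le_logb Y 2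
    have h2 : Real.logb 2 Y ≤ 2 * Real.log Y := by
      rw [Real.logb]
      have h3 : (0 : ℝ) ≤ Real.log Y := Real.log_natCast_nonneg Y
      have h4 : (1 / 2 : ℝ) ≤ Real.log 2 := by linarith [Real.log_two_gt_d9]
      rw [div_le_iff₀ (by linarith)]
      nlinarith
    have h5 : (0 : ℝ) ≤ Real.log Y := Real.log_natCast_nonneg Y
    rw [hJ]
    push_cast
    linarith
  -- the blocks
  obtain ⟨c, hc⟩ : ∃ c : ℕ → ℕ → ℂ, ∀ j m, c j m = if 2 ^ j * N < m ∧ m ≤ Y then b m else 0 :=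
    ⟨_, fun _ _ => rfl⟩
  obtain ⟨S, hS⟩ : ∃ S : ℕ → ℝ → ℂ, ∀ j u, S j u =
      ∑ m ∈ Finset.Icc (2 ^ j * N) (2 * (2 ^ j * N)), c j m * (m : ℂ) ^ (-(I * u)) := ⟨_, fun _ _ => rfl⟩
  have hSc : ∀ j, Continuous (S j) := by
    intro j
    have e : S j = fun u : ℝ => ∑ m ∈ Finset.Icc (2 ^ j * N) (2 * (2 ^ j * N)), c j m * (m : ℂ) ^ (-(I * (u : ℂ))) :=
      funext fun u => hS j u
    rw [e]
    refine continuous_finset_sum _ fun m hm => ?_
    refine continuous_const.mul (Pool.Agent.N879.PU.Mvaux.cpow_cont ?_)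
    have h1 : 2 ^ j * N ≤ m := (Finset.mem_Icc.1 hm).1
    have h2 : 1 ≤ 2 ^ j * N := Nat.mul_pos (by positivity) hN
    omega
  have hsum : ∀ u : ℝ, ∑ m ∈ Finset.Ioc N Y, b m * (m : ℂ) ^ (-(I * u)) = ∑ j ∈ Finset.range J, S j u := by
    intro u
    rw [blocks N Y J hYJ]
    refine Finset.sum_congr rfl fun j _ => ?_
    rw [hS]
    refine Finset.sum_congr rfl fun m _ => ?_
    rw [hc]
    split_ifs <;> simp
  -- Cauchy–Schwarz
  have hcs : ∀ u : ℝ, ‖∑ m ∈ Finset.Ioc N Y, b m * (m : ℂ) ^ (-(I * u))‖ ^ 2 ≤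
      J * ∑ j ∈ Finset.range J, ‖S j u‖ ^ 2 := by
    intro u
    rw [hsum]
    calc ‖∑ j ∈ Finset.range J, S j u‖ ^ 2 ≤ (∑ j ∈ Finset.range J, ‖S j u‖) ^ 2 :=
          pow_le_pow_left₀ (norm_nonneg _) (norm_sum_le _ _) 2
      _ ≤ (Finset.range J).card * ∑ j ∈ Finset.range J, ‖S j u‖ ^ 2 := sq_sum_le_card_mul_sum_sq
      _ = J * ∑ j ∈ Finset.range J, ‖S j u‖ ^ 2 := by rw [Finset.card_range]
  have hint : ∀ j, IntervalIntegrable (fun u => ‖S j u‖ ^ 2) volume 0 U := fun j =>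
    ((hSc j).norm.pow 2).intervalIntegrable _ _
  have hblock : ∀ j, ∫ u in (0:ℝ)..U, ‖S j u‖ ^ 2 ≤
      3 * C * ∑ m ∈ Finset.Icc (2 ^ j * N) (2 * (2 ^ j * N)),
        if 2 ^ j * N < m ∧ m ≤ Y then (m : ℝ) * ‖b m‖ ^ 2 else 0 := by
    intro j
    have h2 : 1 ≤ 2 ^ j * N := Nat.mul_pos (by positivity) hN
    have h1 := hMV (2 ^ j * N) 0 U (c j) h2 hU
    simp only [hS]
    refine h1.trans ?_
    rw [sub_zero, mul_assoc, mul_assoc, mul_comm 3, mul_assoc]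
    refine mul_le_mul_of_nonneg_left ?_ hC.le
    rw [mul_comm _ (3 : ℝ), Finset.mul_sum, Finset.mul_sum]
    refine Finset.sum_le_sum fun m hm => ?_
    rw [hc]
    split_ifs with h3
    · have h4 : ((2 ^ j * N : ℕ) : ℝ) ≤ m := by exact_mod_cast h3.1.le
      have h5 : (N : ℝ) ≤ ((2 ^ j * N : ℕ) : ℝ) := by
        exact_mod_cast Nat.le_mul_of_pos_left N (by positivity)
      have h6 : (0 : ℝ) ≤ ‖b m‖ ^ 2 := by positivity
      nlinarith
    · simp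
  have htot : ∫ u in (0:ℝ)..U, ‖∑ m ∈ Finset.Ioc N Y, b m * (m : ℂ) ^ (-(I * u))‖ ^ 2 ≤
      ∫ u in (0:ℝ)..U, (J : ℝ) * ∑ j ∈ Finset.range J, ‖S j u‖ ^ 2 := by
    refine intervalIntegral.integral_mono_on hU ?_ ?_ fun u _ => hcs u
    · have : Continuous fun u : ℝ => ‖∑ m ∈ Finset.Ioc N Y, b m * (m : ℂ) ^ (-(I * u))‖ ^ 2 := by
        simp only [hsum]
        exact (continuous_finset_sum _ fun j _ => hSc j).norm.pow 2
      exact this.intervalIntegrable _ _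
    · have : Continuous fun u : ℝ => (J : ℝ) * ∑ j ∈ Finset.range J, ‖S j u‖ ^ 2 :=
        continuous_const.mul (continuous_finset_sum _ fun j _ => (hSc j).norm.pow 2)
      exact this.intervalIntegrable _ _
  refine htot.trans ?_
  rw [intervalIntegral.integral_const_mul, intervalIntegral.integral_finset_sum fun j _ => hint j]
  have hD : ∑ j ∈ Finset.range J, ∫ u in (0:ℝ)..U, ‖S j u‖ ^ 2 ≤
      3 * C * ∑ m ∈ Finset.Ioc N Y, (m : ℝ) * ‖b m‖ ^ 2 := by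
    rw [blocks N Y J hYJ, Finset.mul_sum]
    exact Finset.sum_le_sum fun j _ => hblock j
  have hD0 : 0 ≤ ∑ m ∈ Finset.Ioc N Y, (m : ℝ) * ‖b m‖ ^ 2 := Finset.sum_nonneg fun _ _ => by positivity
  calc (J : ℝ) * ∑ j ∈ Finset.range J, ∫ u in (0:ℝ)..U, ‖S j u‖ ^ 2 ≤
        J * (3 * C * ∑ m ∈ Finset.Ioc N Y, (m : ℝ) * ‖b m‖ ^ 2) :=
        mul_le_mul_of_nonneg_left hD (Nat.cast_nonneg _)
    _ ≤ (3 * (1 + Real.log Y)) * (3 * C * ∑ m ∈ Finset.Ioc N Y, (m : ℝ) * ‖b m‖ ^ 2) :=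
        mul_le_mul_of_nonneg_right hJr (by positivity)
    _ = 9 * C * (1 + Real.log Y) * ∑ m ∈ Finset.Ioc N Y, (m : ℝ) * ‖b m‖ ^ 2 := by ring

end

end Pool.Agent.Z72.SQ
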