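import Pool.Agent.Z72.SQ.Nt
import Pool.Agent.TH509.GS.DIAG

/-!
# Task SQ_NTOD (helper25), part 3: the off-diagonal terms are small on average
-/

set_option autoImplicit false

namespace Pool.Agent.Z72.SQ

open Complex Filter Topology MeasureTheory Set
open Pool.Agent.TH612.GS (z zN PN mP SN tup ch wt)
open Pool.Agent.TH509.GS (integrand_eq th th_eq)
open Pool.Agent.TH367.GS (pl pr mem_tup)
open Pool.Agent.N879.PU (fs)

noncomputable section

namespace OdA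

variable {k : ℕ}

/-- the integral of an exponential -/
def jn (a b θ : ℝ) : ℂ := ∫ t in a..b, Complex.exp (I * t * (θ : ℝ))

theorem jn_zero (a b : ℝ) : jn a b 0 = ((b - a : ℝ) : ℂ) := by
  unfold jn
  simp

theorem jn_le_len {a b : ℝ} (hab : a ≤ b) (θ : ℝ) : ‖jn a b θ‖ ≤ b - a := by
  unfold jn
  have h := intervalIntegral.norm_integral_le_of_norm_le_const (a := a) (b := b)
    (f := fun t : ℝ => Complex.exp (I * t * (θ : ℝ))) (C := 1) (fun t _ => by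
      have : I * (t : ℂ) * (θ : ℝ) = ((t * θ : ℝ) : ℂ) * I := by push_cast; ring
      rw [this, Complex.norm_exp_ofReal_mul_I])
  rwa [one_mul, abs_of_nonneg (by linarith)] at h

theorem jn_le_inv (a b : ℝ) {θ : ℝ} (hθ : θ ≠ 0) : ‖jn a b θ‖ ≤ 2 * |θ|⁻¹ := by
  unfold jn
  have hc : (I * (θ : ℂ)) ≠ 0 := mul_ne_zero I_ne_zero (by exact_mod_cast hθ)
  have h1 : (fun t : ℝ => Complex.exp (I * t * (θ : ℝ))) = fun t : ℝ => Complex.exp ((I * (θ : ℂ)) * t) := by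
    funext t
    congr 1
    ring
  rw [h1, integral_exp_mul_complex hc, norm_div, norm_mul, Complex.norm_I, one_mul, Complex.norm_real,
    Real.norm_eq_abs, div_eq_mul_inv]
  refine mul_le_mul_of_nonneg_right ?_ (by positivity)
  refine (norm_sub_le _ _).trans ?_
  have h2 : ∀ t : ℝ, ‖Complex.exp ((I * (θ : ℂ)) * t)‖ = 1 := by
    intro t
    have : I * (θ : ℂ) * t = ((θ * t : ℝ) : ℂ) * I := by push_cast; ring
    rw [this, Complex.norm_exp_ofReal_mul_I]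
  rw [h2, h2]
  norm_num

theorem jn_sq {a b : ℝ} (hab : a ≤ b) {θ : ℝ} (hθ : θ ≠ 0) : ‖jn a b θ‖ ^ 2 ≤ (b - a) * (2 * |θ|⁻¹) := by
  rw [sq]
  exact mul_le_mul (jn_le_len hab θ) (jn_le_inv a b hθ) (norm_nonneg _) (by linarith)

theorem prod_fs (N : ℕ) (γ : Fin k ⊕ Fin k → ℝ) (t : ℝ) :
    ∏ i, fs (PN N) i (t + γ i) = ∏ j : Fin k, PN N (t + γ (Sum.inl j)) *
      (starRingEnd ℂ) (PN N (t + γ (Sum.inr j))) := by
  rw [Fintype.prod_sum_type, Finset.prod_mul_distrib]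
  rfl

theorem int_eq (N : ℕ) (a b : ℝ) (γ : Fin k ⊕ Fin k → ℝ) :
    ∫ t in a..b, ∏ i, fs (PN N) i (t + γ i) =
      ∑ ν ∈ tup k N, (wt ν : ℂ) * ch ν γ * jn a b (th ν) := by
  have h1 : (fun t : ℝ => ∏ i, fs (PN N) i (t + γ i)) = fun t : ℝ =>
      ∑ ν ∈ tup k N, (wt ν : ℂ) * ch ν γ * Complex.exp (I * t * (th ν : ℝ)) := by
    funext t
    rw [prod_fs, integrand_eq]
  rw [h1, intervalIntegral.integral_finsetSum]
  · refine Finset.sum_congr rfl fun ν _ => ?_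
    rw [intervalIntegral.integral_const_mul]
    rfl
  · intro ν _
    refine Continuous.intervalIntegrable ?_ _ _
    fun_prop

end OdA

open OdA

theorem t_OD (hMM : S_MM) (hNT : S_NT) : S_OD := by
  intro k ε hε
  obtain ⟨C1, hC1, h1⟩ := hMM
  obtain ⟨C2, hC2, h2⟩ := hNT k ε hε
  refine ⟨C1 ^ (2 * k) * (2 * C2), by positivity, fun U a b N hU hN hNU hab => ?_⟩
  -- the coefficients
  obtain ⟨c, hc⟩ : ∃ c : (Fin k ⊕ Fin k → ℕ) → ℂ, ∀ ν, c ν =
      if ∏ j, ν (Sum.inl j) = ∏ j, ν (Sum.inr j) then 0 else (wt ν : ℂ) * jn a b (th ν) := ⟨_, fun _ => rfl⟩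
  have hdiff : ∀ γ : Fin k ⊕ Fin k → ℝ, (∫ t in a..b, ∏ i, fs (PN N) i (t + γ i)) -
      ((b - a : ℝ) : ℂ) * SN N γ = ∑ ν ∈ tup k N, c ν * ch ν γ := by
    intro γ
    rw [int_eq]
    unfold Pool.Agent.TH612.GS.SN
    rw [Finset.mul_sum, ← Finset.sum_sub_distrib]
    refine Finset.sum_congr rfl fun ν hν => ?_
    rw [hc]
    have hm := mem_tup.1 hν
    by_cases h : ∏ j, ν (Sum.inl j) = ∏ j, ν (Sum.inr j)
    · have hth : th ν = 0 := by
        rw [th_eq ν (fun i => (hm i).1), h, sub_self]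
      rw [if_pos h, if_pos h, hth, jn_zero]
      ring
    · rw [if_neg h, if_neg h]
      ring
  simp only [hdiff]
  refine (h1 k N U c hN hU hNU).trans ?_
  refine ENNReal.ofReal_le_ofReal ?_
  -- the sum of the squares of the coefficients
  have hsq : ∑ ν ∈ tup k N, ‖c ν‖ ^ 2 ≤ (b - a) * 2 * (C2 * (N : ℝ) ^ ε) := by
    have h3 := h2 N hN
    have h4 : ∑ ν ∈ tup k N, ‖c ν‖ ^ 2 ≤ ∑ ν ∈ tup k N,
        if ∏ j, ν (Sum.inl j) ≠ ∏ j, ν (Sum.inr j) then (b - a) * 2 * (wt ν ^ 2 *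
          |Real.log ((∏ j, (ν (Sum.inr j) : ℝ)) / ∏ j, (ν (Sum.inl j) : ℝ))|⁻¹) else 0 := by
      refine Finset.sum_le_sum fun ν hν => ?_
      rw [hc]
      have hm := mem_tup.1 hν
      by_cases h : ∏ j, ν (Sum.inl j) = ∏ j, ν (Sum.inr j)
      · rw [if_pos h, if_neg (not_not.2 h)]
        simp
      · rw [if_neg h, if_pos h]
        have hl : 1 ≤ ∏ j, ν (Sum.inl j) := NtA.one_le_prod _ fun j => (hm _).1
        have hr : 1 ≤ ∏ j, ν (Sum.inr j) := NtA.one_le_prod _ fun j => (hm _).1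
        have hl0 : (0 : ℝ) < ((∏ j, ν (Sum.inl j) : ℕ) : ℝ) := by exact_mod_cast hl
        have hr0 : (0 : ℝ) < ((∏ j, ν (Sum.inr j) : ℕ) : ℝ) := by exact_mod_cast hr
        have hth : th ν = Real.log ((∏ j, (ν (Sum.inr j) : ℝ)) / ∏ j, (ν (Sum.inl j) : ℝ)) := by
          rw [th_eq ν (fun i => (hm i).1), ← Real.log_div hr0.ne' hl0.ne']
          push_cast
          rfl
        have hth0 : th ν ≠ 0 := by
          rw [th_eq ν (fun i => (hm i).1), sub_ne_zero]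
          intro he
          have := Real.log_injOn_pos (Set.mem_Ioi.2 hr0) (Set.mem_Ioi.2 hl0) he
          exact h (by exact_mod_cast this.symm)
        rw [norm_mul, mul_pow, Complex.norm_real, Real.norm_eq_abs, sq_abs, ← hth]
        have h5 := jn_sq hab hth0
        calc wt ν ^ 2 * ‖jn a b (th ν)‖ ^ 2 ≤ wt ν ^ 2 * ((b - a) * (2 * |th ν|⁻¹)) :=
              mul_le_mul_of_nonneg_left h5 (sq_nonneg _)
          _ = (b - a) * 2 * (wt ν ^ 2 * |th ν|⁻¹) := by ring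
    refine h4.trans ?_
    rw [← Finset.sum_filter, ← Finset.mul_sum]
    exact mul_le_mul_of_nonneg_left h3 (by linarith)
  calc (C1 * U) ^ (2 * k) * ∑ ν ∈ tup k N, ‖c ν‖ ^ 2 ≤
        (C1 * U) ^ (2 * k) * ((b - a) * 2 * (C2 * (N : ℝ) ^ ε)) := by
        refine mul_le_mul_of_nonneg_left hsq (by positivity)
    _ = C1 ^ (2 * k) * (2 * C2) * U ^ (2 * k) * (N : ℝ) ^ ε * (b - a) := by
        rw [mul_pow]
        ring

end

end Pool.Agent.Z72.SQ
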