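import Pool.Agent.Z72.SQ.As4
import Pool.Agent.Z72.SQ.Dg
import Pool.Agent.Z72.SQ.Dt
import Pool.Agent.Z72.SQ.Emn
import Pool.Agent.Z72.SQ.Mm
import Pool.Agent.Z72.SQ.Mt
import Pool.Agent.Z72.SQ.Nt
import Pool.Agent.Z72.SQ.Od
import Pool.Agent.Z72.SQ.Rp
import Pool.Agent.Z72.SQ.Sa
import Pool.Agent.Z72.SQ.Swi
import Pool.Agent.Z72.SH.All

set_option autoImplicit false

/-!
Project SQ: all parts together.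
-/

namespace Pool.Agent.Z72.SQ

theorem t_RP' : S_RP := t_RP Pool.Agent.Z72.SH.t_KD Pool.Agent.Z72.SH.t_RW
  (Pool.Agent.Z72.SH.t_WM (Pool.Agent.Z72.SH.t_VS Pool.Agent.Z72.SH.Gm.t_GM Pool.Agent.Z72.SH.t_ES))
  (Pool.Agent.N879.PU.t_WINU Pool.Agent.N879.PU.t_MVS) t_EMN Pool.Agent.TH570.GS.t_SM

theorem t_MU2' : S_MU2 := t_MU2 t_RP' (t_OD t_MM t_NT) (t_DG t_SA (t_DT t_MM t_MT)) t_SWI
  Pool.Agent.Z72.SH.t_CH Pool.Agent.Z72.SH.t_ZG (Pool.Agent.TH811.GS.t_ONE Pool.Agent.TH928.GS.t_MV)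
  Pool.Agent.TH767.GS.t_NS Pool.Agent.TH612.GS.t_INV

theorem final : S_FI := t_FI t_MU2' (Pool.Agent.Z72.SH.t_R2 Pool.Agent.Z72.SH.t_R1)
  (Pool.Agent.Z72.SH.t_R3 (Pool.Agent.Z72.SH.t_ZB Pool.Agent.Z72.SH.t_GR)
    (Pool.Agent.Z72.SH.t_QB Pool.Agent.Z72.SH.t_GR))

end Pool.Agent.Z72.SQ
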