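import Pool.Agent.Z72.SQ.As1

set_option autoImplicit false

/-! Project SQ: assembly, the pieces of the exceptional set. -/

namespace Pool.Agent.Z72.SQ

open Complex Filter Topology MeasureTheory Set
open Pool.Agent.TH612.GS (z zN PN mP SN zr Sep DD z_cont PN_cont zp IG Pk ZB zp_bd inv_le_one DD_eq Zg_fz
  Zg_cont IG_cont GG_cont_t GG_cont_2 norm_GG S_INV SN_cont tup ch wt)
open Pool.Agent.TH612.CF (Zg GG Qs)
open Pool.Agent.N879.PU (fs fs_norm fs_cont fs_prod)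
open Pool.Agent.Z72.SH (gd gd_cont BadU S_CH)

noncomputable section

variable {k : ℕ}

/-- the cube -/
def Cu (k : ℕ) (U : ℝ) : Set (Fin k ⊕ Fin k → ℝ) := {γ | ∀ i, 0 ≤ γ i ∧ γ i ≤ U}

/-- sup-events -/
def Ev (k : ℕ) (U a b lam : ℝ) (g : (Fin k ⊕ Fin k → ℝ) → ℝ → ℂ) : Set (Fin k ⊕ Fin k → ℝ) :=
  {γ | γ ∈ Cu k U ∧ ∃ S, a ≤ S ∧ S ≤ b ∧ lam < ‖∫ t in a..S, g γ t‖}

/-- the diagonal events -/
def Dv (k : ℕ) (U lam : ℝ) (N : ℕ) : Set (Fin k ⊕ Fin k → ℝ) := Sep k U ∩ {γ | lam < ‖SN N γ - zr γ‖}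

/-- the pieces of the exceptional set -/
lemma Bad_sub2 (hINV : S_INV) {T U lam m C Λ : ℝ} {N₁ N₂ : ℕ} (hU : 3 ≤ U) (hUT : U ≤ T) (hm : 0 ≤ m)
    (hC : 0 < C) (h1 : ∀ v : ℝ, 1 ≤ |v| → |v| ≤ U → ‖riemannZeta (1 + I * v)‖ ≤ C * Real.log U)
    (hΛ : 4 * m + 2 * T * lam + ZB k C U * ((Fintype.card (Equiv.Perm (Fin k ⊕ Fin k)) : ℝ) * m) ≤ Λ)
    (hZ0 : 0 ≤ ZB k C U) (hlam : 0 ≤ lam) :
    BadU k T U Λ ⊆ (Sep k U)ᶜ ∪ Ev k U 0 U m (gd N₁) ∪ Ev k U U T m (gd N₂) ∪ Ev k U 0 U m (od N₁) ∪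
      Ev k U U T m (od N₂) ∪ Dv k U lam N₁ ∪ Dv k U lam N₂ ∪
      ⋃ π ∈ (Pk k)ᶜ, Ev k U 0 T m (fun γ t => GG t (fun i => (γ i : ℂ)) π) := by
  classical
  intro γ hγ
  by_contra hcon
  simp only [mem_union, not_or, mem_iUnion, not_exists, mem_compl_iff, not_not] at hcon
  obtain ⟨⟨⟨⟨⟨⟨⟨g1, g2⟩, g3⟩, g4⟩, g5⟩, g6⟩, g7⟩, g8⟩ := hcon
  obtain ⟨hcube, S, hS0, hST, hS⟩ := hγ
  have ev : ∀ {a b : ℝ} {g : (Fin k ⊕ Fin k → ℝ) → ℝ → ℂ}, γ ∉ Ev k U a b m g → ∀ S, a ≤ S → S ≤ b →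
      ‖∫ t in a..S, g γ t‖ ≤ m := by
    intro a b g h S h1 h2
    by_contra hc
    push Not at hc
    exact h ⟨hcube, S, h1, h2, hc⟩
  have dv : ∀ {N : ℕ}, γ ∉ Dv k U lam N → ‖SN N γ - zr γ‖ ≤ lam := by
    intro N h
    by_contra hc
    push Not at hc
    exact h ⟨g1, hc⟩
  have hU0 : 0 < U := by linarith
  have hT0 : 0 < T := by linarith
  -- the interval up to `U`
  have p1 : ∀ S, 0 ≤ S → S ≤ U → ‖(∫ t in (0:ℝ)..S, ∏ i, fs z i (t + γ i)) - ((S - 0 : ℝ) : ℂ) * zr γ‖ ≤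
      2 * m + T * lam := by
    intro S h1 h2
    refine (piece_bd N₁ h1 γ).trans ?_
    have a1 := ev g2 S h1 h2
    have a2 := ev g4 S h1 h2
    have a3 : (S - 0) * ‖SN N₁ γ - zr γ‖ ≤ T * lam := by
      rw [sub_zero]
      exact mul_le_mul (by linarith) (dv g6) (norm_nonneg _) hT0.le
    linarith
  have p2 : ∀ S, U ≤ S → S ≤ T → ‖(∫ t in U..S, ∏ i, fs z i (t + γ i)) - ((S - U : ℝ) : ℂ) * zr γ‖ ≤
      2 * m + T * lam := by
    intro S h1 h2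
    refine (piece_bd N₂ h1 γ).trans ?_
    have a1 := ev g3 S h1 h2
    have a2 := ev g5 S h1 h2
    have a3 : (S - U) * ‖SN N₂ γ - zr γ‖ ≤ T * lam :=
      mul_le_mul (by linarith) (dv g7) (norm_nonneg _) hT0.le
    linarith
  have p3 : ‖(∫ t in (0:ℝ)..S, ∏ i, fs z i (t + γ i)) - S * zr γ‖ ≤ 4 * m + 2 * T * lam := by
    have hTl : 0 ≤ T * lam := by positivity
    rcases le_or_gt S U with hSU | hUS
    · have := p1 S hS0 hSU
      rw [sub_zero] at this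
      linarith
    · have b1 := p1 U hU0.le le_rfl
      have b2 := p2 S hUS.le hST
      have e : (∫ t in (0:ℝ)..S, ∏ i, fs z i (t + γ i)) - S * zr γ =
          ((∫ t in (0:ℝ)..U, ∏ i, fs z i (t + γ i)) - ((U - 0 : ℝ) : ℂ) * zr γ) +
          ((∫ t in U..S, ∏ i, fs z i (t + γ i)) - ((S - U : ℝ) : ℂ) * zr γ) := by
        rw [← intervalIntegral.integral_add_adjacent_intervals
          ((prodz_cont γ).intervalIntegrable 0 U) ((prodz_cont γ).intervalIntegrable U S)]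
        push_cast
        ring
      rw [e]
      refine (norm_add_le _ _).trans ?_
      linarith
  have p4 : ∑ π ∈ (Pk k)ᶜ, ‖IG S γ π‖ ≤ (Fintype.card (Equiv.Perm (Fin k ⊕ Fin k)) : ℝ) * m := by
    calc _ ≤ ∑ _π ∈ (Pk k)ᶜ, m := by
          refine Finset.sum_le_sum fun π hπ => ?_
          have := ev (g8 π hπ) S hS0 hST
          exact this
      _ = ((Pk k)ᶜ.card : ℝ) * m := by rw [Finset.sum_const, nsmul_eq_mul]
      _ ≤ _ := by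
          gcongr
          exact_mod_cast Finset.card_le_univ _
  have p5 := DD_bd hINV (S := S) hU hC h1 g1
  have p6 : ZB k C U * ∑ π ∈ (Pk k)ᶜ, ‖IG S γ π‖ ≤
      ZB k C U * ((Fintype.card (Equiv.Perm (Fin k ⊕ Fin k)) : ℝ) * m) := by gcongr
  linarith

end

end Pool.Agent.Z72.SQ
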