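import Pool.Agent.Z72.SQ.As2

set_option autoImplicit false

/-! Project SQ: assembly, the measure of the exceptional set. -/

namespace Pool.Agent.Z72.SQ

open Complex Filter Topology MeasureTheory Set
open Pool.Agent.TH612.GS (z zN PN mP SN zr Sep DD z_cont PN_cont zp IG Pk ZB zp_bd inv_le_one DD_eq Zg_fz
  Zg_cont IG_cont GG_cont_t GG_cont_2 norm_GG S_INV SN_cont tup ch wt S_ONE S_NS log_ev BF_nonneg cheb Sep_meas
  zr_cont)
open Pool.Agent.TH612.CF (Zg GG Qs BF)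
open Pool.Agent.N879.PU (fs fs_norm fs_cont fs_prod)
open Pool.Agent.Z72.SH (gd gd_cont BadU S_CH S_ZG exists_Jc)

noncomputable section

variable {k : ℕ}

/-- measure of the sup-events -/
lemma ev_meas (hCH : S_CH) {T U a b lam C ε G : ℝ} {J : ℕ} {g : (Fin k ⊕ Fin k → ℝ) → ℝ → ℂ} (hk : 1 ≤ k)
    (hT : 1 ≤ T) (hU : 0 < U) (ha : 0 ≤ a) (hab : a ≤ b) (hb : b ≤ T)
    (hlam : lam = T ^ (1 + 3 * ε / 4) * U ^ (-(1 / 2) : ℝ)) (hC : 0 ≤ C) (hG : 0 ≤ G)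
    (hg : Continuous fun p : (Fin k ⊕ Fin k → ℝ) × ℝ => g p.1 p.2)
    (h2 : ∀ x y, a ≤ x → x ≤ y → y ≤ b → ∫⁻ γ, ENNReal.ofReal (‖∫ t in x..y, g γ t‖ ^ 2) ∂(mP (Fin k ⊕ Fin k) U) ≤
      ENNReal.ofReal (C * T ^ (1 + ε / 2) * U ^ (2 * k - 1) * (y - x)))
    (h3 : ∀ γ ∈ Cu k U, ∀ t, a ≤ t → t ≤ b → ‖g γ t‖ ≤ G) (h4 : (b - a) / 2 ^ J * G ≤ lam) :
    mP (Fin k ⊕ Fin k) U (Ev k U a b ((J + 2) * lam) g) ≤
      ENNReal.ofReal ((J + 1) * C * (U ^ (2 * k) * T ^ (-ε))) := by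
  have hT0 : 0 < T := by linarith
  have hlam0 : 0 < lam := by rw [hlam]; positivity
  have h := chsup hCH (μ := mP (Fin k ⊕ Fin k) U) (Cu k U) hab hlam0 (K := C * T ^ (1 + ε / 2) * U ^ (2 * k - 1))
    (by positivity) hG hg h2 h3 h4
  refine h.trans (ENNReal.ofReal_le_ofReal ?_)
  have e1 : lam ^ 2 = T ^ (2 + 3 * ε / 2) * U⁻¹ := by
    rw [hlam, mul_pow, ← Real.rpow_natCast, ← Real.rpow_natCast, ← Real.rpow_mul hT0.le, ← Real.rpow_mul hU.le]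
    congr 1
    · congr 1; push_cast; ring
    · rw [← Real.rpow_neg_one]; congr 1; norm_num
  have e2 : U ^ (2 * k) = U ^ (2 * k - 1) * U := by rw [← pow_succ]; congr 1; omega
  have e3 : T ^ (1 + ε / 2) * T = T ^ (2 + 3 * ε / 2) * T ^ (-ε) := by
    rw [← Real.rpow_add hT0]
    nth_rewrite 2 [← Real.rpow_one T]
    rw [← Real.rpow_add hT0]
    congr 1; ring
  rw [div_le_iff₀ (by positivity), e1]
  have e4 : (J + 1 : ℝ) * C * (U ^ (2 * k) * T ^ (-ε)) * (T ^ (2 + 3 * ε / 2) * U⁻¹) =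
      (J + 1) * (C * (T ^ (2 + 3 * ε / 2) * T ^ (-ε)) * U ^ (2 * k - 1)) := by
    rw [e2]; field_simp
  rw [e4, ← e3]
  have hba : b - a ≤ T := by linarith
  have hJ : (0:ℝ) ≤ (J:ℝ) + 1 := by positivity
  calc (J + 1 : ℝ) * (C * T ^ (1 + ε / 2) * U ^ (2 * k - 1) * (b - a))
      ≤ (J + 1) * (C * T ^ (1 + ε / 2) * U ^ (2 * k - 1) * T) := by gcongr
    _ = _ := by ring

/-- measure of the diagonal events -/
lemma dv_meas {T U lam C ε : ℝ} {N : ℕ} (hT : 1 ≤ T) (hU : 1 ≤ U) (hUT : U ≤ T) (hε : 0 < ε)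
    (hlam : lam = T ^ (1 + 3 * ε / 4) * U ^ (-(1 / 2) : ℝ)) (hC : 0 ≤ C)
    (h : ∫⁻ γ in Sep k U, ENNReal.ofReal (‖SN N γ - zr γ‖ ^ 2) ∂(mP (Fin k ⊕ Fin k) U) ≤
      ENNReal.ofReal (C * U ^ (2 * k) * U ^ (ε / 2 - 1))) :
    mP (Fin k ⊕ Fin k) U (Dv k U (lam / T) N) ≤ ENNReal.ofReal (C * (U ^ (2 * k) * T ^ (-ε))) := by
  have hT0 : 0 < T := by linarith
  have hU0 : 0 < U := by linarith
  have hlam0 : 0 < lam := by rw [hlam]; positivity
  have hm : AEMeasurable (fun γ : Fin k ⊕ Fin k → ℝ => ‖SN N γ - zr γ‖)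
      ((mP (Fin k ⊕ Fin k) U).restrict (Sep k U)) :=
    (((SN_cont N).continuousOn.sub (zr_cont hU)).norm).aemeasurable (Sep_meas k U)
  have hcb := cheb hm (lam := lam / T) (by positivity) h
  have e0 : mP (Fin k ⊕ Fin k) U (Sep k U ∩ {γ | lam / T < ‖SN N γ - zr γ‖}) ≤
      ((mP (Fin k ⊕ Fin k) U).restrict (Sep k U)) {γ | lam / T < ‖SN N γ - zr γ‖} := by
    rw [inter_comm]
    exact Measure.le_restrict_apply _ _
  refine e0.trans (hcb.trans (ENNReal.ofReal_le_ofReal ?_))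
  have e1 : lam ^ 2 = T ^ (2 + 3 * ε / 2) * U⁻¹ := by
    rw [hlam, mul_pow, ← Real.rpow_natCast, ← Real.rpow_natCast, ← Real.rpow_mul hT0.le, ← Real.rpow_mul hU0.le]
    congr 1
    · congr 1; push_cast; ring
    · rw [← Real.rpow_neg_one]; congr 1; norm_num
  have e2 : (lam / T) ^ 2 = T ^ (3 * ε / 2) * U⁻¹ := by
    rw [div_pow, e1, Real.rpow_add hT0]
    have : T ^ (2:ℝ) = T ^ 2 := by exact_mod_cast Real.rpow_natCast T 2
    rw [this]; field_simp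
  rw [e2, div_le_iff₀ (by positivity)]
  have e3 : U ^ (ε / 2 - 1) = U ^ (ε / 2) * U⁻¹ := by
    rw [Real.rpow_sub hU0, Real.rpow_one, div_eq_mul_inv]
  have e4 : U ^ (ε / 2) ≤ T ^ (ε / 2) := Real.rpow_le_rpow hU0.le hUT (by positivity)
  have e5 : T ^ (ε / 2) = T ^ (-ε) * T ^ (3 * ε / 2) := by
    rw [← Real.rpow_add hT0]; congr 1; ring
  rw [e3]
  calc C * U ^ (2 * k) * (U ^ (ε / 2) * U⁻¹) ≤ C * U ^ (2 * k) * (T ^ (ε / 2) * U⁻¹) := by gcongr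
    _ = _ := by rw [e5]; ring

theorem t_MU2 (hRP : S_RP) (hOD : S_OD) (hDG : S_DG) (hSWI : S_SWI) (hCH : S_CH) (hZG : S_ZG) (hONE : S_ONE)
    (hNS : S_NS) (hINV : S_INV) : S_MU2 := by
  intro k ε hk hε
  classical
  obtain ⟨C1, hC1, h1⟩ := hRP k (ε / 2) hk (by positivity)
  obtain ⟨C2, hC2, h2⟩ := hOD k (ε / 2) (by positivity)
  obtain ⟨C3, U3, hC3, hU3, h3⟩ := hDG k (ε / 2) (by positivity)
  obtain ⟨C4, T4, hC4, hT4, h4⟩ := hSWI k
  obtain ⟨C5, T5, hC5, hT5, h5⟩ := hONE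
  obtain ⟨C6, hC6, h6⟩ := hZG
  obtain ⟨P0, hP0⟩ : ∃ P0 : ℝ, P0 = (Fintype.card (Equiv.Perm (Fin k ⊕ Fin k)) : ℝ) := ⟨_, rfl⟩
  have hP0' : 0 ≤ P0 := by rw [hP0]; exact Nat.cast_nonneg _
  have hk0 : (0:ℝ) ≤ k := Nat.cast_nonneg k
  have hBF : 0 ≤ BF k (1 / 8) := BF_nonneg _ _
  -- a constant for the chaining bounds
  obtain ⟨C', hC'⟩ : ∃ C' : ℝ, C' = C1 + 16 ^ (ε / 2) * C2 + C4 := ⟨_, rfl⟩
  have hC'0 : 0 < C' := by rw [hC']; positivity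
  -- a constant for the trivial bounds
  obtain ⟨G0, hG0⟩ : ∃ G0 : ℝ, G0 = 3 * (16 * C6) ^ (2 * k) + 1 := ⟨_, rfl⟩
  have hG00 : 0 ≤ G0 := by rw [hG0]; positivity
  -- large `T`
  have ev1 := log_ev ((4 * k + 7) * (4 + P0 * (BF k (1 / 8) * C5 ^ (k ^ 2))) + 2) (k ^ 2 + 1) (θ := ε / 4) (by positivity)
  have ev2 := log_ev (2 * ((4 + P0) * (4 * k + 7) * C' + 2 * C3)) 1 (θ := ε / 2) (by positivity)
  have ev3 := log_ev (16 * (k:ℝ) ^ 2) 0 (θ := 1 / 12) (by norm_num)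
  have ev4 := log_ev 1 2 (θ := ε / 2) (by positivity)
  have ev5 := (tendsto_rpow_atTop (y := 1 / 3) (by norm_num)).eventually_ge_atTop (max (max 3 U3) T5)
  obtain ⟨T0, hT0⟩ := eventually_atTop.1 ((ev1.and ev2).and ((ev3.and ev4).and ev5))
  refine ⟨min (ε / 2) (1 / 12), max (max T0 T4) (max G0 3), lt_min (by positivity) (by norm_num),
    fun T U hT hTU hUT => ?_⟩
  have hTT0 : T0 ≤ T := ((le_max_left _ _).trans (le_max_left _ _)).trans hT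
  have hTT4 : T4 ≤ T := ((le_max_right _ _).trans (le_max_left _ _)).trans hT
  have hTG0 : G0 ≤ T := ((le_max_left _ _).trans (le_max_right _ _)).trans hT
  have hT3 : 3 ≤ T := ((le_max_right _ _).trans (le_max_right _ _)).trans hT
  obtain ⟨⟨k1, k2⟩, ⟨k3, k4⟩, k5⟩ := hT0 T hTT0
  have hTp : 0 < T := by linarith
  have hT1 : 1 ≤ T := by linarith
  have hU3' : 3 ≤ U := ((le_max_left _ _).trans ((le_max_left _ _).trans k5)).trans hTU
  have hUU3 : U3 ≤ U := ((le_max_right _ _).trans ((le_max_left _ _).trans k5)).trans hTU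
  have hUT5 : T5 ≤ U := ((le_max_right _ _).trans k5).trans hTU
  have hU0 : 0 < U := by linarith
  have hU1 : 1 ≤ U := by linarith
  have hL : 1 ≤ Real.log T := by
    rw [Real.le_log_iff_exp_le hTp]
    have := Real.exp_one_lt_d9
    linarith
  have hLU : Real.log U ≤ Real.log T := Real.log_le_log hU0 hUT
  have hLU0 : 0 ≤ Real.log U := Real.log_nonneg hU1
  have hone := (h5 U 1 hUT5 le_rfl (by
    have := Real.one_le_rpow hU1 (by norm_num : (0:ℝ) ≤ 1 / 2)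
    simpa using this)).1
  obtain ⟨J, hJ1, hJ2⟩ := exists_Jc k hL hTp
  -- the lengths
  obtain ⟨N₁, hN₁⟩ : ∃ N₁ : ℕ, N₁ = ⌈8 * U⌉₊ := ⟨_, rfl⟩
  have hN1a : 8 * U ≤ N₁ := by rw [hN₁]; exact Nat.le_ceil _
  have hN1b : (N₁ : ℝ) ≤ 16 * U := by
    have := (Nat.ceil_lt_add_one (by positivity : 0 ≤ 8 * U)).le
    rw [← hN₁] at this
    linarith
  obtain ⟨N₂, hN₂⟩ : ∃ N₂ : ℕ, N₂ = ⌊U⌋₊ := ⟨_, rfl⟩
  have hN2a : (N₂ : ℝ) ≤ U := by rw [hN₂]; exact Nat.floor_le hU0.le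
  have hN2b : U ≤ 2 * N₂ := by
    have := Nat.lt_floor_add_one U
    rw [← hN₂] at this
    linarith
  have hN11 : 1 ≤ N₁ := by
    have : (1:ℝ) ≤ N₁ := by linarith
    exact_mod_cast this
  have hN21 : 1 ≤ N₂ := by
    have : (1:ℝ) ≤ N₂ := by linarith
    exact_mod_cast this
  -- the thresholds
  obtain ⟨lam, hlam⟩ : ∃ lam : ℝ, lam = T ^ (1 + 3 * ε / 4) * U ^ (-(1 / 2) : ℝ) := ⟨_, rfl⟩
  have hlam0 : 0 < lam := by rw [hlam]; positivity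
  have hlam1 : 1 ≤ lam := by
    have a1 : T ^ (-(1 / 2) : ℝ) ≤ U ^ (-(1 / 2) : ℝ) := by
      rw [Real.rpow_neg hTp.le, Real.rpow_neg hU0.le]
      gcongr
    rw [hlam]
    calc (1:ℝ) ≤ T ^ (1 / 2 + 3 * ε / 4) := Real.one_le_rpow hT1 (by positivity)
      _ = T ^ (1 + 3 * ε / 4) * T ^ (-(1 / 2) : ℝ) := by
          rw [← Real.rpow_add hTp]; congr 1; ring
      _ ≤ _ := by gcongr
  -- the two families
  have hch : ∀ {a b : ℝ} {g : (Fin k ⊕ Fin k → ℝ) → ℝ → ℂ}, 0 ≤ a → a ≤ b → b ≤ T →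
      (Continuous fun p : (Fin k ⊕ Fin k → ℝ) × ℝ => g p.1 p.2) →
      (∀ x y, a ≤ x → x ≤ y → y ≤ b → ∫⁻ γ, ENNReal.ofReal (‖∫ t in x..y, g γ t‖ ^ 2) ∂(mP (Fin k ⊕ Fin k) U) ≤
        ENNReal.ofReal (C' * T ^ (1 + ε / 2) * U ^ (2 * k - 1) * (y - x))) →
      (∀ γ ∈ Cu k U, ∀ t, a ≤ t → t ≤ b → ‖g γ t‖ ≤ G0 * T ^ (2 * k)) →
      mP (Fin k ⊕ Fin k) U (Ev k U a b ((J + 2) * lam) g) ≤
        ENNReal.ofReal ((J + 1) * C' * (U ^ (2 * k) * T ^ (-ε))) := by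
    intro a b g ha hab hb hg q1 q2
    refine ev_meas hCH hk hT1 hU0 ha hab hb hlam hC'0.le (G := G0 * T ^ (2 * k)) (by positivity) hg q1 q2 ?_
    have r1 : (b - a) / 2 ^ J ≤ T / T ^ (2 * k + 2) := by
      have : b - a ≤ T := by linarith
      gcongr
    calc (b - a) / 2 ^ J * (G0 * T ^ (2 * k)) ≤ T / T ^ (2 * k + 2) * (G0 * T ^ (2 * k)) := by gcongr
      _ = G0 / T := by rw [pow_add]; field_simp
      _ ≤ 1 := by rw [div_le_one hTp]; exact hTG0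
      _ ≤ lam := hlam1
  have hPNb : ∀ (N : ℕ), (N : ℝ) ≤ 16 * U → ∀ u, ‖PN N u‖ ≤ 16 * C6 * T := by
    intro N hN u
    refine (PN_le N u).trans (hN.trans ?_)
    have : U ≤ C6 * T := by nlinarith
    linarith
  have hzb : ∀ γ ∈ Cu k U, ∀ t, 0 ≤ t → t ≤ T → ∀ i, ‖z (t + γ i)‖ ≤ 16 * C6 * T := by
    intro γ hγ t ht0 htT i
    refine (h6 _).trans ?_
    have h7 : |t + γ i| ≤ 2 * T := by
      rw [abs_of_nonneg (by linarith [(hγ i).1])]
      linarith [(hγ i).2]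
    calc C6 * (1 + |t + γ i|) ≤ C6 * (16 * T) := by gcongr; linarith
      _ = 16 * C6 * T := by ring
  have e16 : (16 * C6 * T) ^ (2 * k) = (16 * C6) ^ (2 * k) * T ^ (2 * k) := by rw [mul_pow]
  -- gd
  have hgdb : ∀ (N : ℕ), (N : ℝ) ≤ 16 * U → ∀ γ ∈ Cu k U, ∀ t, 0 ≤ t → t ≤ T → ‖gd N γ t‖ ≤ G0 * T ^ (2 * k) := by
    intro N hN γ hγ t ht0 htT
    have a1 := prod_le (f := z) (γ := γ) (t := t) (X := 16 * C6 * T) (hzb γ hγ t ht0 htT)
    have a2 := prod_le (f := PN N) (γ := γ) (t := t) (X := 16 * C6 * T) (fun i => hPNb N hN _)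
    unfold gd
    refine (norm_sub_le _ _).trans ((add_le_add a1 a2).trans ?_)
    rw [e16, hG0]
    have : 0 ≤ (16 * C6) ^ (2 * k) * T ^ (2 * k) := by positivity
    have : 0 ≤ T ^ (2 * k) := by positivity
    linarith [add_mul (3 * (16 * C6) ^ (2 * k)) 1 (T ^ (2 * k))]
  have hodb : ∀ (N : ℕ), 1 ≤ N → (N : ℝ) ≤ 16 * U → ∀ γ ∈ Cu k U, ∀ t, 0 ≤ t → t ≤ T →
      ‖od N γ t‖ ≤ G0 * T ^ (2 * k) := by
    intro N hN1 hN γ hγ t ht0 htT
    have a2 := prod_le (f := PN N) (γ := γ) (t := t) (X := 16 * C6 * T) (fun i => hPNb N hN _)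
    have a3 := SN_le N hN1 γ
    have a4 : (N : ℝ) ^ (2 * k) ≤ (16 * C6 * T) ^ (2 * k) := by
      refine pow_le_pow_left₀ (Nat.cast_nonneg N) (hN.trans ?_) _
      have : U ≤ C6 * T := by nlinarith
      linarith
    unfold od
    refine (norm_sub_le _ _).trans ((add_le_add a2 (a3.trans a4)).trans ?_)
    rw [e16, hG0]
    have : 0 ≤ (16 * C6) ^ (2 * k) * T ^ (2 * k) := by positivity
    have : 0 ≤ T ^ (2 * k) := by positivity
    linarith [add_mul (3 * (16 * C6) ^ (2 * k)) 1 (T ^ (2 * k))]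
  have hC1C' : C1 ≤ C' := by
    rw [hC']
    have : 0 ≤ 16 ^ (ε / 2) * C2 := by positivity
    linarith
  have hC2C' : 16 ^ (ε / 2) * C2 ≤ C' := by rw [hC']; linarith
  have hC4C' : C4 ≤ C' := by
    rw [hC']
    have : 0 ≤ 16 ^ (ε / 2) * C2 := by positivity
    linarith
  obtain ⟨r1, r2⟩ := h1 T U hU3' hUT hTU
  have m1 : mP (Fin k ⊕ Fin k) U (Ev k U 0 U ((J + 2) * lam) (gd N₁)) ≤
      ENNReal.ofReal ((J + 1) * C' * (U ^ (2 * k) * T ^ (-ε))) := by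
    refine hch le_rfl hU0.le hUT (gd_cont N₁) (fun x y hx hxy hy => ?_)
      (fun γ hγ t h h' => hgdb N₁ hN1b γ hγ t h (h'.trans hUT))
    refine (r1 N₁ hN1a hN1b x y hx hxy hy).trans (ENNReal.ofReal_le_ofReal ?_)
    have : 0 ≤ y - x := by linarith
    gcongr
  have m2 : mP (Fin k ⊕ Fin k) U (Ev k U U T ((J + 2) * lam) (gd N₂)) ≤
      ENNReal.ofReal ((J + 1) * C' * (U ^ (2 * k) * T ^ (-ε))) := by
    refine hch hU0.le hUT le_rfl (gd_cont N₂) (fun x y hx hxy hy => ?_)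
      (fun γ hγ t h h' => hgdb N₂ (by linarith) γ hγ t (hU0.le.trans h) h')
    refine (r2 N₂ hN2b hN2a x y hx hxy hy).trans (ENNReal.ofReal_le_ofReal ?_)
    have : 0 ≤ y - x := by linarith
    gcongr
  have hUk1 : U ^ (2 * k) = U ^ (2 * k - 1) * U := by rw [← pow_succ]; congr 1; omega
  have hodm : ∀ N : ℕ, 1 ≤ N → (N : ℝ) ≤ 16 * U → ∀ x y : ℝ, x ≤ y →
      ∫⁻ γ, ENNReal.ofReal (‖∫ t in x..y, od N γ t‖ ^ 2) ∂(mP (Fin k ⊕ Fin k) U) ≤
        ENNReal.ofReal (C' * T ^ (1 + ε / 2) * U ^ (2 * k - 1) * (y - x)) := by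
    intro N hN1 hN x y hxy
    have a1 := h2 U x y N hU1 hN1 hN hxy
    have e : ∀ γ : Fin k ⊕ Fin k → ℝ, ∫ t in x..y, od N γ t =
        (∫ t in x..y, ∏ i, fs (PN N) i (t + γ i)) - ((y - x : ℝ) : ℂ) * SN N γ := fun γ => od_int N γ x y
    simp only [e]
    refine a1.trans (ENNReal.ofReal_le_ofReal ?_)
    have a2 : (N : ℝ) ^ (ε / 2) ≤ 16 ^ (ε / 2) * T ^ (ε / 2) := by
      rw [← Real.mul_rpow (by norm_num) hTp.le]
      refine Real.rpow_le_rpow (Nat.cast_nonneg N) (hN.trans ?_) (by positivity)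
      linarith
    have a3 : T ^ (1 + ε / 2) = T * T ^ (ε / 2) := by rw [Real.rpow_add hTp, Real.rpow_one]
    have hxy' : 0 ≤ y - x := by linarith
    calc C2 * U ^ (2 * k) * (N : ℝ) ^ (ε / 2) * (y - x)
        ≤ C2 * (U ^ (2 * k - 1) * T) * (16 ^ (ε / 2) * T ^ (ε / 2)) * (y - x) := by
          rw [hUk1]; gcongr
      _ = 16 ^ (ε / 2) * C2 * T ^ (1 + ε / 2) * U ^ (2 * k - 1) * (y - x) := by rw [a3]; ring
      _ ≤ _ := by gcongr
  have m3 : mP (Fin k ⊕ Fin k) U (Ev k U 0 U ((J + 2) * lam) (od N₁)) ≤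
      ENNReal.ofReal ((J + 1) * C' * (U ^ (2 * k) * T ^ (-ε))) :=
    hch le_rfl hU0.le hUT (od_cont N₁) (fun x y _ hxy _ => hodm N₁ hN11 hN1b x y hxy)
      (fun γ hγ t h h' => hodb N₁ hN11 hN1b γ hγ t h (h'.trans hUT))
  have m4 : mP (Fin k ⊕ Fin k) U (Ev k U U T ((J + 2) * lam) (od N₂)) ≤
      ENNReal.ofReal ((J + 1) * C' * (U ^ (2 * k) * T ^ (-ε))) :=
    hch hU0.le hUT le_rfl (od_cont N₂) (fun x y _ hxy _ => hodm N₂ hN21 (by linarith) x y hxy)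
      (fun γ hγ t h h' => hodb N₂ hN21 (by linarith) γ hγ t (hU0.le.trans h) h')
  have m5 := dv_meas (k := k) hT1 hU1 hUT hε hlam hC3.le (h3 U N₁ hUU3 (by linarith) hN1b)
  have m6 := dv_meas (k := k) hT1 hU1 hUT hε hlam hC3.le (h3 U N₂ hUU3 hN2b (by linarith))
  have m7 : mP (Fin k ⊕ Fin k) U (⋃ π ∈ (Pk k)ᶜ, Ev k U 0 T ((J + 2) * lam) (fun γ t => GG t (fun i => (γ i : ℂ)) π)) ≤
      ENNReal.ofReal (P0 * ((J + 1) * C' * (U ^ (2 * k) * T ^ (-ε)))) := by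
    refine (measure_biUnion_finset_le _ _).trans ?_
    calc ∑ π ∈ (Pk k)ᶜ, mP (Fin k ⊕ Fin k) U (Ev k U 0 T ((J + 2) * lam) (fun γ t => GG t (fun i => (γ i : ℂ)) π))
        ≤ ∑ _π ∈ (Pk k)ᶜ, ENNReal.ofReal ((J + 1) * C' * (U ^ (2 * k) * T ^ (-ε))) := by
          refine Finset.sum_le_sum fun π hπ => ?_
          have hπ' : ∃ j, (π (Sum.inr j)).isLeft = true := by
            rw [Finset.mem_compl, Pk, Finset.mem_filter, not_and] at hπ
            have := hπ (Finset.mem_univ _)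
            push Not at this
            obtain ⟨j, hj⟩ := this
            exact ⟨j, by simpa using hj⟩
          refine hch le_rfl hTp.le le_rfl (GG_cont_2 π) (fun x y hx hxy hy => ?_) (fun γ hγ t h h' => ?_)
          · refine (h4 T U x y π hTT4 hU0 hUT hx hxy hy hπ').trans (ENNReal.ofReal_le_ofReal ?_)
            have a3 : T ^ (1 + ε / 2) = T * T ^ (ε / 2) := by rw [Real.rpow_add hTp, Real.rpow_one]
            have hxy' : 0 ≤ y - x := by linarith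
            have a5 : Real.log T ^ 2 ≤ T ^ (ε / 2) := by simpa using k4
            calc C4 * U ^ (2 * k - 1) * T * (y - x) * Real.log T ^ 2
                ≤ C' * U ^ (2 * k - 1) * T * (y - x) * T ^ (ε / 2) := by gcongr
              _ = _ := by rw [a3]; ring
          · rw [norm_GG]
            have b1 : 1 ≤ T ^ (2 * k) := one_le_pow₀ hT1
            have b2 : 1 ≤ G0 := by
              rw [hG0]
              have : 0 ≤ 3 * (16 * C6) ^ (2 * k) := by positivity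
              linarith
            nlinarith
      _ = ENNReal.ofReal (((Pk k)ᶜ.card : ℝ) * ((J + 1) * C' * (U ^ (2 * k) * T ^ (-ε)))) := by
          rw [Finset.sum_const, nsmul_eq_mul,
            ENNReal.ofReal_mul (p := (((Pk k)ᶜ.card : ℕ) : ℝ)) (Nat.cast_nonneg _), ENNReal.ofReal_natCast]
      _ ≤ _ := by
          refine ENNReal.ofReal_le_ofReal ?_
          gcongr
          rw [hP0]
          exact_mod_cast Finset.card_le_univ _
  have m8 := hNS k U hU1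
  -- the threshold
  have hZ0 : 0 ≤ ZB k C5 U := by
    unfold ZB
    exact mul_nonneg hBF (by positivity)
  have hJ0 : (0:ℝ) ≤ J := Nat.cast_nonneg J
  have hJ3 : (J : ℝ) + 2 ≤ (4 * k + 7) * Real.log T := by
    have : (4 * (k:ℝ) + 7) * Real.log T = (4 * k + 6) * Real.log T + Real.log T := by ring
    linarith
  have hΛ : 4 * ((J + 2) * lam) + 2 * T * (lam / T) +
      ZB k C5 U * ((Fintype.card (Equiv.Perm (Fin k ⊕ Fin k)) : ℝ) * ((J + 2) * lam)) ≤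
      T ^ (1 + ε) * U ^ (-(1 / 2) : ℝ) := by
    rw [← hP0]
    have a1 : ZB k C5 U ≤ BF k (1 / 8) * C5 ^ (k ^ 2) * Real.log T ^ (k ^ 2) := by
      unfold ZB
      rw [mul_pow, ← mul_assoc]
      have : Real.log U ^ (k ^ 2) ≤ Real.log T ^ (k ^ 2) := pow_le_pow_left₀ hLU0 hLU _
      gcongr
    have a2 : T ^ (1 + ε) * U ^ (-(1 / 2) : ℝ) = T ^ (ε / 4) * lam := by
      rw [hlam, ← mul_assoc, ← Real.rpow_add hTp]
      congr 2; ring
    have a3 : 2 * T * (lam / T) = 2 * lam := by field_simp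
    rw [a2, a3]
    have a4 : 4 * ((J + 2) * lam) + 2 * lam + ZB k C5 U * (P0 * ((J + 2) * lam)) =
        ((J + 2) * (4 + P0 * ZB k C5 U) + 2) * lam := by ring
    rw [a4]
    refine mul_le_mul_of_nonneg_right (le_trans ?_ k1) hlam0.le
    have hLk : 1 ≤ Real.log T ^ (k ^ 2) := one_le_pow₀ hL
    have hLk1 : 1 ≤ Real.log T ^ (k ^ 2 + 1) := one_le_pow₀ hL
    have hB0 : 0 ≤ BF k (1 / 8) * C5 ^ (k ^ 2) := by positivity
    calc ((J + 2 : ℝ) * (4 + P0 * ZB k C5 U) + 2)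
        ≤ ((4 * k + 7) * Real.log T * (4 * Real.log T ^ (k ^ 2) +
            P0 * (BF k (1 / 8) * C5 ^ (k ^ 2) * Real.log T ^ (k ^ 2))) + 2 * Real.log T ^ (k ^ 2 + 1)) := by
          have b1 : (4:ℝ) ≤ 4 * Real.log T ^ (k ^ 2) := by linarith
          have b2 : (2:ℝ) ≤ 2 * Real.log T ^ (k ^ 2 + 1) := by linarith
          gcongr
      _ = _ := by ring
  -- conclusion
  refine (measure_mono (Bad_sub2 hINV (N₁ := N₁) (N₂ := N₂) hU3' hUT (by positivity) hC5 hone hΛ hZ0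
    (by positivity))).trans ?_
  have step : ∀ {A B : Set (Fin k ⊕ Fin k → ℝ)} {x z : ℝ}, 0 ≤ x → 0 ≤ z →
      mP (Fin k ⊕ Fin k) U A ≤ ENNReal.ofReal x → mP (Fin k ⊕ Fin k) U B ≤ ENNReal.ofReal z →
      mP (Fin k ⊕ Fin k) U (A ∪ B) ≤ ENNReal.ofReal (x + z) := by
    intro A B x z hx hz hA hB
    rw [ENNReal.ofReal_add hx hz]
    exact (measure_union_le _ _).trans (add_le_add hA hB)
  have tot := step (by positivity) (by positivity) (step (by positivity) (by positivity)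
    (step (by positivity) (by positivity) (step (by positivity) (by positivity)
    (step (by positivity) (by positivity) (step (by positivity) (by positivity)
    (step (by positivity) (by positivity) m8 m1) m2) m3) m4) m5) m6) m7
  refine tot.trans (ENNReal.ofReal_le_ofReal ?_)
  obtain ⟨V, hV⟩ : ∃ V : ℝ, V = U ^ (2 * k) := ⟨_, rfl⟩
  have hV0 : 0 < V := by rw [hV]; positivity
  have e8 : U ^ (2 * k - 1 / 2 : ℝ) = V * U ^ (-(1 / 2) : ℝ) := by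
    rw [hV, ← Real.rpow_natCast, ← Real.rpow_add hU0]
    congr 1; push_cast; ring
  have e9 : U ^ (-(1 / 2) : ℝ) ≤ T ^ (-(1 / 6) : ℝ) := by
    have : (T ^ (1 / 3 : ℝ)) ^ (1 / 2 : ℝ) ≤ U ^ (1 / 2 : ℝ) := Real.rpow_le_rpow (by positivity) hTU (by norm_num)
    rw [← Real.rpow_mul hTp.le] at this
    rw [Real.rpow_neg hU0.le, Real.rpow_neg hTp.le]
    have e10 : (1 / 3 : ℝ) * (1 / 2) = 1 / 6 := by norm_num
    rw [e10] at this
    exact inv_anti₀ (by positivity) this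
  rw [← hV, e8]
  obtain ⟨δ, hδ⟩ : ∃ δ : ℝ, δ = min (ε / 2) (1 / 12) := ⟨_, rfl⟩
  rw [← hδ]
  have hδ1 : δ ≤ ε / 2 := by rw [hδ]; exact min_le_left _ _
  have hδ2 : δ ≤ 1 / 12 := by rw [hδ]; exact min_le_right _ _
  have f1 : T ^ (-(1 / 6) : ℝ) = T ^ (-(1 / 12) : ℝ) * T ^ (-(1 / 12) : ℝ) := by
    rw [← Real.rpow_add hTp]; norm_num
  have f2 : 16 * (k:ℝ) ^ 2 * T ^ (-(1 / 12) : ℝ) ≤ 1 := by
    rw [Real.rpow_neg hTp.le, ← div_eq_mul_inv, div_le_one (by positivity)]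
    simpa using k3
  have f3 : T ^ (-(1 / 12) : ℝ) ≤ T ^ (-δ) := Real.rpow_le_rpow_of_exponent_le hT1 (by linarith)
  have f4 : 8 * (k:ℝ) ^ 2 * (V * U ^ (-(1 / 2) : ℝ)) ≤ V * T ^ (-δ) / 2 := by
    calc 8 * (k:ℝ) ^ 2 * (V * U ^ (-(1 / 2) : ℝ)) ≤ 8 * (k:ℝ) ^ 2 * (V * T ^ (-(1 / 6) : ℝ)) := by gcongr
      _ = (16 * (k:ℝ) ^ 2 * T ^ (-(1 / 12) : ℝ)) * (V * T ^ (-(1 / 12) : ℝ)) / 2 := by rw [f1]; ring
      _ ≤ 1 * (V * T ^ (-δ)) / 2 := by gcongr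
      _ = _ := by ring
  have f5 : (J : ℝ) + 1 ≤ (4 * k + 7) * Real.log T := by linarith
  have f6 : T ^ (-ε) = T ^ (-(ε / 2)) * T ^ (-(ε / 2)) := by
    rw [← Real.rpow_add hTp]; congr 1; ring
  have f7 : T ^ (-(ε / 2)) ≤ T ^ (-δ) := Real.rpow_le_rpow_of_exponent_le hT1 (by linarith)
  have f8 : ((4 + P0) * ((J + 1) * C') + 2 * C3) * T ^ (-(ε / 2)) ≤ 1 / 2 := by
    rw [Real.rpow_neg hTp.le, ← div_eq_mul_inv, div_le_iff₀ (by positivity)]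
    have g1 : 2 * ((4 + P0) * (4 * k + 7) * C' + 2 * C3) * Real.log T ≤ T ^ (ε / 2) := by simpa using k2
    have g2 : (4 + P0) * ((J + 1) * C') + 2 * C3 ≤
        ((4 + P0) * (4 * k + 7) * C' + 2 * C3) * Real.log T := by
      have q1 : (4 + P0) * ((J + 1) * C') ≤ (4 + P0) * (((4 * k + 7) * Real.log T) * C') := by gcongr
      have q2 : 2 * C3 ≤ 2 * C3 * Real.log T := by nlinarith
      calc _ ≤ (4 + P0) * (((4 * k + 7) * Real.log T) * C') + 2 * C3 * Real.log T := add_le_add q1 q2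
        _ = _ := by ring
    linarith
  have f9 : ((4 + P0) * ((J + 1) * C') + 2 * C3) * (V * T ^ (-ε)) ≤ V * T ^ (-δ) / 2 := by
    calc ((4 + P0) * ((J + 1) * C') + 2 * C3) * (V * T ^ (-ε))
        = (((4 + P0) * ((J + 1) * C') + 2 * C3) * T ^ (-(ε / 2))) * (V * T ^ (-(ε / 2))) := by rw [f6]; ring
      _ ≤ 1 / 2 * (V * T ^ (-δ)) := by gcongr
      _ = _ := by ring
  calc _ = 8 * (k:ℝ) ^ 2 * (V * U ^ (-(1 / 2) : ℝ)) +
        ((4 + P0) * ((J + 1) * C') + 2 * C3) * (V * T ^ (-ε)) := by ring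
    _ ≤ V * T ^ (-δ) / 2 + V * T ^ (-δ) / 2 := add_le_add f4 f9
    _ = V * T ^ (-δ) := by ring

end

end Pool.Agent.Z72.SQ
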