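import Pool.Agent.Z72.SQ.Stm
import Pool.Agent.TH367.GS.SS

set_option autoImplicit false

/-! # Project SQ, part DT, first file: one coordinate of a sum of characters -/

namespace Pool.Agent.Z72.SQ

open Complex Filter Topology MeasureTheory Set
open Pool.Agent.TH612.GS (z zN PN mP SN zr Sep DD tup ch wt dr IG)
open Pool.Agent.TH367.GS (pl pr dgn mem_tup pl_pos mem_dgn fiber_sum fiber_card fma_card SN_eq)
open scoped ComplexConjugate

noncomputable section

variable {k : ℕ}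

/-- single characters -/
def fch : (Fin k ⊕ Fin k) → ℕ → ℝ → ℂ
  | Sum.inl _, m, y => (m : ℂ) ^ (-(I * y))
  | Sum.inr _, m, y => (m : ℂ) ^ (I * y)

lemma ch_eq (ν : Fin k ⊕ Fin k → ℕ) (γ : Fin k ⊕ Fin k → ℝ) : ch ν γ = ∏ i, fch i (ν i) (γ i) := by
  rw [Fintype.prod_sum_type]
  rfl

lemma norm_fch (i : Fin k ⊕ Fin k) {m : ℕ} (hm : 1 ≤ m) (y : ℝ) : ‖fch i m y‖ = 1 := by
  rcases i with j | j
  · simp only [fch]
    rw [Complex.norm_natCast_cpow_of_pos hm]
    simp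
  · simp only [fch]
    rw [Complex.norm_natCast_cpow_of_pos hm]
    simp

lemma cont_fch (i : Fin k ⊕ Fin k) {m : ℕ} (hm : 1 ≤ m) : Continuous (fch i m) := by
  have hm0 : (m : ℂ) ≠ 0 := by
    have : m ≠ 0 := by omega
    exact_mod_cast this
  rcases i with j | j
  · have : (fch (Sum.inl j) m) = fun y : ℝ => (m : ℂ) ^ (-(I * y)) := rfl
    rw [this]
    exact Continuous.const_cpow (by fun_prop) (Or.inl hm0)
  · have : (fch (Sum.inr j) m) = fun y : ℝ => (m : ℂ) ^ (I * y) := rfl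
    rw [this]
    exact Continuous.const_cpow (by fun_prop) (Or.inl hm0)

lemma ch_update (ν : Fin k ⊕ Fin k → ℕ) (γ : Fin k ⊕ Fin k → ℝ) (i : Fin k ⊕ Fin k) (y : ℝ) :
    ch ν (Function.update γ i y) =
      fch i (ν i) y * ∏ j ∈ Finset.univ.erase i, fch j (ν j) (γ j) := by
  rw [ch_eq, ← Finset.mul_prod_erase _ _ (Finset.mem_univ i), Function.update_self]
  congr 1
  refine Finset.prod_congr rfl fun j hj => ?_
  rw [Function.update_of_ne (Finset.ne_of_mem_erase hj)]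

lemma mt_fch (hMT : S_MT) : ∃ C : ℝ, 0 < C ∧ ∀ (k : ℕ) (i : Fin k ⊕ Fin k) (N Y : ℕ) (U : ℝ)
    (b : ℕ → ℂ), 1 ≤ N → 0 ≤ U → U ≤ 2 * N →
    ∫ u in (0:ℝ)..U, ‖∑ m ∈ Finset.Ioc N Y, b m * fch i m u‖ ^ 2 ≤
      C * (1 + Real.log Y) * ∑ m ∈ Finset.Ioc N Y, (m : ℝ) * ‖b m‖ ^ 2 := by
  obtain ⟨C, hC, h⟩ := hMT
  refine ⟨C, hC, fun k i N Y U b hN hU hUN => ?_⟩
  rcases i with j | j
  · exact h N Y U b hN hU hUN
  · have h1 := h N Y U (fun m => conj (b m)) hN hU hUN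
    simp only [Complex.norm_conj] at h1
    refine le_trans (le_of_eq ?_) h1
    refine intervalIntegral.integral_congr fun u _ => ?_
    change ‖_‖ ^ 2 = ‖_‖ ^ 2
    congr 1
    rw [← Complex.norm_conj, map_sum]
    congr 1
    refine Finset.sum_congr rfl fun m hm => ?_
    have hm1 : 1 ≤ m := by
      have := (Finset.mem_Ioc.1 hm).1
      omega
    have hm0 : (0:ℝ) < m := by exact_mod_cast hm1
    rw [map_mul]
    congr 1
    simp only [fch]
    have e1 : (m : ℂ) = ((m : ℝ) : ℂ) := by push_cast; rfl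
    have e2 : (-(I * (u : ℂ))) = conj (I * (u : ℂ)) := by
      simp only [map_mul, Complex.conj_I, Complex.conj_ofReal]
      ring
    rw [e1, e2, Complex.cpow_conj, Complex.conj_ofReal]
    rw [Complex.arg_ofReal_of_nonneg hm0.le]
    exact Real.pi_pos.ne

/-- one coordinate -/
lemma one_coord (hMT : S_MT) : ∃ C : ℝ, 0 < C ∧ ∀ (k : ℕ) (i : Fin k ⊕ Fin k) (N Y : ℕ) (U : ℝ)
    (A : Finset (Fin k ⊕ Fin k → ℕ)) (c : (Fin k ⊕ Fin k → ℕ) → ℂ), 1 ≤ N → 1 ≤ Y → 0 ≤ U → U ≤ 2 * N →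
    (∀ ν ∈ A, ∀ j, 1 ≤ ν j) → (∀ ν ∈ A, N < ν i ∧ ν i ≤ Y) →
    ∫⁻ γ, ENNReal.ofReal (‖∑ ν ∈ A, c ν * ch ν γ‖ ^ 2) ∂(mP (Fin k ⊕ Fin k) U) ≤
      ENNReal.ofReal (C * (1 + Real.log Y) *
        (∑ m ∈ Finset.Ioc N Y, (m : ℝ) * (∑ ν ∈ A.filter (fun ν => ν i = m), ‖c ν‖) ^ 2) *
          U ^ (2 * k - 1)) := by
  obtain ⟨C, hC, h⟩ := mt_fch hMT
  refine ⟨C, hC, fun k i N Y U A c hN hY hU hUN hA1 hAi => ?_⟩
  have hlogY : 0 ≤ Real.log Y := Real.log_nonneg (by exact_mod_cast hY)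
  set Q : ℝ := C * (1 + Real.log Y) *
        (∑ m ∈ Finset.Ioc N Y, (m : ℝ) * (∑ ν ∈ A.filter (fun ν => ν i = m), ‖c ν‖) ^ 2) with hQ
  have hQ0 : 0 ≤ Q := by
    rw [hQ]
    have : 0 ≤ ∑ m ∈ Finset.Ioc N Y, (m : ℝ) * (∑ ν ∈ A.filter (fun ν => ν i = m), ‖c ν‖) ^ 2 :=
      Finset.sum_nonneg fun m _ => by positivity
    positivity
  set F : (Fin k ⊕ Fin k → ℝ) → ENNReal :=
    fun γ => ENNReal.ofReal (‖∑ ν ∈ A, c ν * ch ν γ‖ ^ 2) with hF
  have hcch : ∀ ν ∈ A, Continuous fun γ : Fin k ⊕ Fin k → ℝ => ch ν γ := by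
    intro ν hν
    simp_rw [ch_eq]
    exact continuous_finset_prod _ fun j _ => (cont_fch j (hA1 ν hν j)).comp (continuous_apply j)
  have hFm : Measurable F := by
    have : Continuous F := ENNReal.continuous_ofReal.comp
      ((continuous_finset_sum _ fun ν hν => continuous_const.mul (hcch ν hν)).norm.pow 2)
    exact this.measurable
  have hin : ∀ γ : Fin k ⊕ Fin k → ℝ,
      ∫⁻ y, F (Function.update γ i y) ∂(volume.restrict (Icc 0 U)) ≤ ENNReal.ofReal Q := by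
    intro γ
    set g : (Fin k ⊕ Fin k → ℕ) → ℂ := fun ν => ∏ j ∈ Finset.univ.erase i, fch j (ν j) (γ j) with hg
    have hgn : ∀ ν ∈ A, ‖g ν‖ = 1 := by
      intro ν hν
      simp only [hg]
      rw [norm_prod]
      exact Finset.prod_eq_one fun j _ => norm_fch j (hA1 ν hν j) _
    set b : ℕ → ℂ := fun m => ∑ ν ∈ A.filter (fun ν => ν i = m), c ν * g ν with hb
    have hbn : ∀ m, ‖b m‖ ≤ ∑ ν ∈ A.filter (fun ν => ν i = m), ‖c ν‖ := by
      intro m
      refine (norm_sum_le _ _).trans (Finset.sum_le_sum fun ν hν => ?_)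
      rw [norm_mul, hgn ν (Finset.mem_filter.1 hν).1, mul_one]
    have h3 : ∀ y : ℝ, ∑ ν ∈ A, c ν * ch ν (Function.update γ i y) =
        ∑ m ∈ Finset.Ioc N Y, b m * fch i m y := by
      intro y
      simp only [hb]
      simp_rw [Finset.sum_mul]
      rw [← Finset.sum_fiberwise_of_maps_to (s := A) (t := Finset.Ioc N Y) (g := fun ν => ν i)
        (fun ν hν => Finset.mem_Ioc.2 (hAi ν hν))]
      refine Finset.sum_congr rfl fun m _ => Finset.sum_congr rfl fun ν hν => ?_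
      rw [ch_update, (Finset.mem_filter.1 hν).2]
      ring
    have hc : Continuous fun y : ℝ => ‖∑ m ∈ Finset.Ioc N Y, b m * fch i m y‖ ^ 2 := by
      refine Continuous.pow (Continuous.norm (continuous_finset_sum _ fun m hm => ?_)) 2
      have hm1 : 1 ≤ m := by
        have := (Finset.mem_Ioc.1 hm).1
        omega
      exact continuous_const.mul (cont_fch i hm1)
    simp only [hF, h3]
    rw [← ofReal_integral_eq_lintegral_ofReal]
    · refine ENNReal.ofReal_le_ofReal ?_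
      rw [integral_Icc_eq_integral_Ioc, ← intervalIntegral.integral_of_le hU]
      refine (h k i N Y U b hN hU hUN).trans ?_
      rw [hQ]
      refine mul_le_mul_of_nonneg_left (Finset.sum_le_sum fun m _ => ?_) (by positivity)
      gcongr
      exact hbn m
    · exact hc.continuousOn.integrableOn_compact isCompact_Icc
    · exact Eventually.of_forall fun y => by positivity
  change ∫⁻ γ, F γ ∂(Measure.pi fun _ => volume.restrict (Icc 0 U)) ≤ _
  rw [lintegral_eq_lmarginal_univ (fun _ => (0 : ℝ)), lmarginal_erase' F hFm (Finset.mem_univ i)]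
  refine (lmarginal_mono (g := fun _ => ENNReal.ofReal Q) (fun γ => hin γ) _).trans ?_
  unfold lmarginal
  rw [lintegral_const, Measure.pi_univ]
  have hm : (∏ i : {x // x ∈ Finset.univ.erase i}, (volume.restrict (Icc 0 U) : Measure ℝ) univ)
      = ENNReal.ofReal U ^ (2 * k - 1) := by
    rw [Measure.restrict_apply_univ, Real.volume_Icc, sub_zero, Finset.prod_const]
    congr 1
    rw [Finset.card_univ, Fintype.card_coe, Finset.card_erase_of_mem (Finset.mem_univ _),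
      Finset.card_univ, Fintype.card_sum, Fintype.card_fin]
    omega
  rw [hm, ← ENNReal.ofReal_pow hU, ← ENNReal.ofReal_mul hQ0]

end

end Pool.Agent.Z72.SQ
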