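import Pool.Agent.Z72.SH.As2

set_option autoImplicit false

/-!
Project SQ (helper72): shifted moments of zeta of order `2k` for shift vectors in `[0,U]^{2k}`, `T^{1/3} ≤ U ≤ T`,
outside few unit cubes, with remainder `T^{1+ε} U^{-1/2}` (square root remainder for `U = T`). Statements.
-/

namespace Pool.Agent.Z72.SQ

open Complex Filter Topology MeasureTheory Set
open Pool.Agent.TH612.GS (z zN PN mP SN zr Sep DD tup ch wt dr IG)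
open Pool.Agent.TH612.CF (Zg GG Qs)
open Pool.Agent.N879.PU (fs)
open Pool.Agent.N879.PZ (Wb)
open Pool.Agent.Z72.SH (gd BadU)

noncomputable section

/-! ### Analytic number theory -/

/-- EMN: zeta by a long partial sum, up to the pole term -/
def S_EMN : Prop := ∃ C : ℝ, 0 < C ∧ ∀ (N : ℕ) (u : ℝ), 1 ≤ N → 0 ≤ u → 4 * u ≤ N →
  ‖z u - PN N u‖ ≤ C * (N : ℝ) ^ (1 / 2 : ℝ) / (1 + u)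

/-- MM: mean squares of sums of characters over the cube -/
def S_MM : Prop := ∃ C : ℝ, 0 < C ∧ ∀ (k N : ℕ) (U : ℝ) (c : (Fin k ⊕ Fin k → ℕ) → ℂ), 1 ≤ N → 1 ≤ U →
  (N : ℝ) ≤ 16 * U →
  ∫⁻ γ, ENNReal.ofReal (‖∑ ν ∈ tup k N, c ν * ch ν γ‖ ^ 2) ∂(mP (Fin k ⊕ Fin k) U) ≤
    ENNReal.ofReal ((C * U) ^ (2 * k) * ∑ ν ∈ tup k N, ‖c ν‖ ^ 2)

/-- MT: mean value theorem for frequencies above the length of the interval -/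
def S_MT : Prop := ∃ C : ℝ, 0 < C ∧ ∀ (N Y : ℕ) (U : ℝ) (b : ℕ → ℂ), 1 ≤ N → 0 ≤ U → U ≤ 2 * N →
  ∫ u in (0:ℝ)..U, ‖∑ m ∈ Finset.Ioc N Y, b m * (m : ℂ) ^ (-(I * u))‖ ^ 2 ≤
    C * (1 + Real.log Y) * ∑ m ∈ Finset.Ioc N Y, (m : ℝ) * ‖b m‖ ^ 2

/-- NT: the sum over the off-diagonal terms -/
def S_NT : Prop := ∀ (k : ℕ) (ε : ℝ), 0 < ε → ∃ C : ℝ, 0 < C ∧ ∀ N : ℕ, 1 ≤ N →
  ∑ ν ∈ (tup k N).filter (fun ν => ∏ j, ν (Sum.inl j) ≠ ∏ j, ν (Sum.inr j)), wt ν ^ 2 *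
    |Real.log ((∏ j, (ν (Sum.inr j) : ℝ)) / ∏ j, (ν (Sum.inl j) : ℝ))|⁻¹ ≤ C * (N : ℝ) ^ ε

/-- OD: the off-diagonal terms are small on average -/
def S_OD : Prop := ∀ (k : ℕ) (ε : ℝ), 0 < ε → ∃ C : ℝ, 0 < C ∧ ∀ (U a b : ℝ) (N : ℕ), 1 ≤ U → 1 ≤ N →
  (N : ℝ) ≤ 16 * U → a ≤ b →
  ∫⁻ γ, ENNReal.ofReal (‖(∫ t in a..b, ∏ i, fs (PN N) i (t + γ i)) - ((b - a : ℝ) : ℂ) * SN N γ‖ ^ 2)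
    ∂(mP (Fin k ⊕ Fin k) U) ≤ ENNReal.ofReal (C * U ^ (2 * k) * (N : ℝ) ^ ε * (b - a))

/-- SA: the smoothed sum of the diagonal series -/
def S_SA : Prop := ∀ k : ℕ, ∃ (W : ℝ → ℂ) (C U₀ : ℝ) (B : ℕ), 0 < C ∧ 3 ≤ U₀ ∧ 2 * k + 4 ≤ B ∧ (∀ y : ℝ, ‖W y‖ ≤ 1) ∧
  (∀ y : ℝ, 0 < y → y ≤ 1 → ‖W y - 1‖ ≤ C * y) ∧
  ∀ U : ℝ, U₀ ≤ U → ∀ γ ∈ Sep k U,
    ‖zr γ - ∑ n ∈ Finset.Icc 1 ⌊U ^ (2 * B)⌋₊, dr γ n * W (n / U ^ B)‖ ≤ C / U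

/-- DT: the tail of the diagonal series is small on average -/
def S_DT : Prop := ∀ (k B : ℕ) (ε : ℝ), 0 < ε → ∃ C : ℝ, 0 < C ∧ ∀ (U : ℝ) (N : ℕ), 3 ≤ U → U ≤ 2 * N →
  (N : ℝ) ≤ 16 * U →
  (∀ W : ℕ → ℂ, (∀ n, ‖W n‖ ≤ 1) → ∀ Y : ℕ, (Y : ℝ) ≤ U ^ B →
    ∫⁻ γ, ENNReal.ofReal (‖∑ n ∈ Finset.Ioc N Y, dr γ n * W n‖ ^ 2) ∂(mP (Fin k ⊕ Fin k) U) ≤
      ENNReal.ofReal (C * U ^ (2 * k) * U ^ (ε - 1))) ∧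
  ∫⁻ γ, ENNReal.ofReal (‖SN N γ - ∑ n ∈ Finset.Icc 1 N, dr γ n‖ ^ 2) ∂(mP (Fin k ⊕ Fin k) U) ≤
    ENNReal.ofReal (C * U ^ (2 * k) * U ^ (ε - 1))

/-- DG: the diagonal sum is close to the first term of the recipe on average -/
def S_DG : Prop := ∀ (k : ℕ) (ε : ℝ), 0 < ε → ∃ C U₀ : ℝ, 0 < C ∧ 3 ≤ U₀ ∧ ∀ (U : ℝ) (N : ℕ), U₀ ≤ U → U ≤ 2 * N →
  (N : ℝ) ≤ 16 * U →
  ∫⁻ γ in Sep k U, ENNReal.ofReal (‖SN N γ - zr γ‖ ^ 2) ∂(mP (Fin k ⊕ Fin k) U) ≤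
    ENNReal.ofReal (C * U ^ (2 * k) * U ^ (ε - 1))

/-- SWI: the terms with at least one swap are small on average, over intervals -/
def S_SWI : Prop := ∀ k : ℕ, ∃ C T₀ : ℝ, 0 < C ∧ 3 ≤ T₀ ∧ ∀ (T U a b : ℝ)
  (π : Equiv.Perm (Fin k ⊕ Fin k)), T₀ ≤ T → 0 < U → U ≤ T → 0 ≤ a → a ≤ b → b ≤ T →
  (∃ j, (π (Sum.inr j)).isLeft = true) →
  ∫⁻ γ, ENNReal.ofReal (‖∫ t in a..b, GG t (fun i => (γ i : ℂ)) π‖ ^ 2)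
    ∂(mP (Fin k ⊕ Fin k) U) ≤ ENNReal.ofReal (C * U ^ (2 * k - 1) * T * (b - a) * Real.log T ^ 2)

/-- RP: replacement of all the factors by Dirichlet polynomials of length about `U` -/
def S_RP : Prop := ∀ (k : ℕ) (ε : ℝ), 1 ≤ k → 0 < ε → ∃ C : ℝ, 0 < C ∧ ∀ T U : ℝ, 3 ≤ U → U ≤ T →
  T ^ (1 / 3 : ℝ) ≤ U →
  (∀ N : ℕ, 8 * U ≤ N → (N : ℝ) ≤ 16 * U → ∀ a b : ℝ, 0 ≤ a → a ≤ b → b ≤ U →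
    ∫⁻ γ, ENNReal.ofReal (‖∫ t in a..b, gd N γ t‖ ^ 2) ∂(mP (Fin k ⊕ Fin k) U) ≤
      ENNReal.ofReal (C * T ^ (1 + ε) * U ^ (2 * k - 1) * (b - a))) ∧
  ∀ N : ℕ, U ≤ 2 * N → (N : ℝ) ≤ U → ∀ a b : ℝ, U ≤ a → a ≤ b → b ≤ T →
    ∫⁻ γ, ENNReal.ofReal (‖∫ t in a..b, gd N γ t‖ ^ 2) ∂(mP (Fin k ⊕ Fin k) U) ≤
      ENNReal.ofReal (C * T ^ (1 + ε) * U ^ (2 * k - 1) * (b - a))

/-- MU2: the exceptional set has small measure -/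
def S_MU2 : Prop := ∀ (k : ℕ) (ε : ℝ), 1 ≤ k → 0 < ε → ∃ δ T₀ : ℝ, 0 < δ ∧
  ∀ T U : ℝ, T₀ ≤ T → T ^ (1 / 3 : ℝ) ≤ U → U ≤ T →
  mP (Fin k ⊕ Fin k) U (BadU k T U (T ^ (1 + ε) * U ^ (-(1 / 2) : ℝ))) ≤
    ENNReal.ofReal (U ^ (2 * k) * T ^ (-δ))

/-- FI: all points outside few unit cubes -/
def S_FI : Prop := ∀ (k : ℕ) (ε : ℝ), 1 ≤ k → 0 < ε → ∃ δ T₀ : ℝ, 0 < δ ∧
  ∀ T U : ℝ, T₀ ≤ T → T ^ (1 / 3 : ℝ) ≤ U → U ≤ T → ∃ E : Finset (Fin k ⊕ Fin k → ℤ),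
  (E.card : ℝ) ≤ U ^ (2 * k) * T ^ (-δ) ∧
  ∀ γ : Fin k ⊕ Fin k → ℝ, (∀ i, 0 ≤ γ i ∧ γ i ≤ U) → (fun i => ⌊γ i⌋) ∉ E →
    (∀ p q, p ≠ q → 4 ≤ |γ p - γ q|) ∧ ∀ S : ℝ, 0 ≤ S → S ≤ T →
      ‖DD S γ‖ ≤ T ^ (1 + ε) * U ^ (-(1 / 2) : ℝ)

end

end Pool.Agent.Z72.SQ
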